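import Pool.Agent.Helper37.Asym.Defs

/-!
Basic facts: the pairing, the Schreier families, closure properties of the norming set.
-/

namespace Pool.Agent.Helper37.Asym

open Finset

/-! ### The pairing -/

theorem pair_eq_linear (f x : Vec) : pair f x = Finsupp.linearCombination ℝ (⇑x) f := rfl

theorem pair_eq_sum (f x : Vec) {s : Finset ℕ+} (h : f.support ⊆ s) :
    pair f x = ∑ i ∈ s, f i * x i := by
  unfold pair
  exact Finsupp.sum_of_support_subset _ h _ (by simp)

theorem pair_comm (f x : Vec) : pair f x = pair x f := by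
  rw [pair_eq_sum f x (subset_union_left (s₂ := x.support)),
    pair_eq_sum x f (subset_union_right (s₁ := f.support))]
  exact sum_congr rfl fun i _ => mul_comm _ _

theorem pair_zero_left (x : Vec) : pair 0 x = 0 := by simp [pair]

theorem pair_zero_right (f : Vec) : pair f 0 = 0 := by simp [pair]

theorem pair_add_left (f g x : Vec) : pair (f + g) x = pair f x + pair g x := by
  simp only [pair_eq_linear, map_add]

theorem pair_add_right (f x y : Vec) : pair f (x + y) = pair f x + pair f y := by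
  rw [pair_comm, pair_add_left, pair_comm x, pair_comm y]

theorem pair_smul_left (c : ℝ) (f x : Vec) : pair (c • f) x = c * pair f x := by
  simp only [pair_eq_linear, map_smul, smul_eq_mul]

theorem pair_smul_right (c : ℝ) (f x : Vec) : pair f (c • x) = c * pair f x := by
  rw [pair_comm, pair_smul_left, pair_comm x]

theorem pair_sum_left {ι : Type*} (I : Finset ι) (f : ι → Vec) (x : Vec) :
    pair (∑ i ∈ I, f i) x = ∑ i ∈ I, pair (f i) x := by
  simp only [pair_eq_linear, map_sum]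

theorem pair_sum_right {ι : Type*} (I : Finset ι) (f : Vec) (x : ι → Vec) :
    pair f (∑ i ∈ I, x i) = ∑ i ∈ I, pair f (x i) := by
  rw [pair_comm, pair_sum_left]
  exact sum_congr rfl fun i _ => pair_comm _ _

theorem pair_neg_left (f x : Vec) : pair (-f) x = - pair f x := by
  simp only [pair_eq_linear, map_neg]

theorem pair_single_left (i : ℕ+) (c : ℝ) (x : Vec) : pair (Finsupp.single i c) x = c * x i := by
  simp [pair]

theorem pair_single_right (i : ℕ+) (c : ℝ) (f : Vec) : pair f (Finsupp.single i c) = c * f i := by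
  rw [pair_comm, pair_single_left]

theorem pair_nonneg {f x : Vec} (hf : ∀ i, 0 ≤ f i) (hx : ∀ i, 0 ≤ x i) : 0 ≤ pair f x := by
  rw [pair_eq_sum f x subset_rfl]
  exact sum_nonneg fun i _ => mul_nonneg (hf i) (hx i)

theorem exists_of_pair_ne_zero {f x : Vec} (h : pair f x ≠ 0) :
    ∃ p, p ∈ f.support ∧ p ∈ x.support := by
  rw [pair_eq_sum f x subset_rfl] at h
  obtain ⟨p, hp, hp2⟩ := exists_ne_zero_of_sum_ne_zero h
  refine ⟨p, hp, ?_⟩
  rw [Finsupp.mem_support_iff]
  exact right_ne_zero_of_mul hp2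

theorem pair_eq_zero {f x : Vec} (h : ∀ p ∈ f.support, p ∉ x.support) : pair f x = 0 := by
  by_contra hne
  obtain ⟨p, h1, h2⟩ := exists_of_pair_ne_zero hne
  exact h p h1 h2

theorem pair_le_pair_left {f g x : Vec} (hfg : ∀ i, f i ≤ g i) (hx : ∀ i, 0 ≤ x i) :
    pair f x ≤ pair g x := by
  rw [pair_comm f, pair_comm g, pair_eq_sum x f subset_rfl, pair_eq_sum x g subset_rfl]
  exact sum_le_sum fun i _ => mul_le_mul_of_nonneg_left (hfg i) (hx i)

theorem pair_le_pair_right {f x y : Vec} (hf : ∀ i, 0 ≤ f i) (hxy : ∀ i, x i ≤ y i) :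
    pair f x ≤ pair f y := by
  rw [pair_comm f, pair_comm f]
  exact pair_le_pair_left hxy hf

/-! ### Schreier families -/

theorem Schreier.nonempty : ∀ {k : ℕ} {F : Finset ℕ+}, F ∈ Schreier k → F.Nonempty
  | 0, _, ⟨m, hm⟩ => by rw [hm]; exact singleton_nonempty m
  | 1, _, h => h.1
  | (k + 2), F, ⟨d, hd, G, h1, _, _, h4⟩ => by
      obtain ⟨a, ha⟩ := Schreier.nonempty (h1 ⟨0, hd⟩)
      rw [h4]
      exact ⟨a, mem_biUnion.2 ⟨_, mem_univ _, ha⟩⟩

theorem schreier_succ_of {k : ℕ} {d : ℕ} (hd : 0 < d) {G : Fin d → Finset ℕ+}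
    (h1 : ∀ q, G q ∈ Schreier k) (h2 : ∀ q r, q < r → ∀ a ∈ G q, ∀ b ∈ G r, a < b)
    (h3 : ∀ q, ∀ a ∈ G q, d ≤ (a : ℕ)) : univ.biUnion G ∈ Schreier (k + 1) := by
  cases k with
  | zero =>
    refine ⟨?_, ?_⟩
    · obtain ⟨a, ha⟩ := Schreier.nonempty (h1 ⟨0, hd⟩)
      exact ⟨a, mem_biUnion.2 ⟨_, mem_univ _, ha⟩⟩
    · intro m hm
      obtain ⟨q, _, hq⟩ := mem_biUnion.1 hm
      refine le_trans ?_ (h3 q m hq)
      calc (univ.biUnion G).card ≤ ∑ q : Fin d, (G q).card := card_biUnion_le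
        _ ≤ ∑ q : Fin d, 1 := sum_le_sum fun q _ => by
            obtain ⟨m', hm'⟩ := h1 q
            rw [hm']; simp
        _ = d := by simp
  | succ k => exact ⟨d, hd, G, h1, h2, h3 _, rfl⟩

theorem schreier_succ_dec {k : ℕ} {F : Finset ℕ+} (hF : F ∈ Schreier (k + 1)) :
    ∃ (d : ℕ) (_ : 0 < d) (G : Fin d → Finset ℕ+), (∀ q, G q ∈ Schreier k) ∧
      (∀ q r, q < r → ∀ a ∈ G q, ∀ b ∈ G r, a < b) ∧
      (∀ q, ∀ a ∈ G q, d ≤ (a : ℕ)) ∧ F = univ.biUnion G := by
  cases k with
  | zero =>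
    obtain ⟨h1, h2⟩ := hF
    refine ⟨F.card, h1.card_pos, fun q => {F.orderEmbOfFin rfl q}, ?_, ?_, ?_, ?_⟩
    · intro q; exact ⟨_, rfl⟩
    · intro q r hqr a ha b hb
      rw [mem_singleton] at ha hb
      rw [ha, hb]
      exact (F.orderEmbOfFin rfl).lt_iff_lt.2 hqr
    · intro q a ha
      rw [mem_singleton] at ha
      rw [ha]
      exact h2 _ (orderEmbOfFin_mem F rfl q)
    · ext a
      simp only [mem_biUnion, mem_univ, true_and, mem_singleton]
      constructor
      · intro ha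
        have : a ∈ Set.range (F.orderEmbOfFin rfl) := by
          rw [range_orderEmbOfFin]; exact ha
        obtain ⟨q, hq⟩ := this
        exact ⟨q, hq.symm⟩
      · rintro ⟨q, hq⟩
        rw [hq]
        exact orderEmbOfFin_mem F rfl q
  | succ k =>
    obtain ⟨d, hd, G, h1, h2, h3, h4⟩ := hF
    refine ⟨d, hd, G, h1, h2, ?_, h4⟩
    intro q a ha
    obtain ⟨b, hb⟩ := Schreier.nonempty (h1 ⟨0, hd⟩)
    by_cases hq : q = ⟨0, hd⟩
    · subst hq; exact h3 a ha
    · have hlt : (⟨0, hd⟩ : Fin d) < q := by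
        rw [Fin.lt_def]
        have : (q : ℕ) ≠ 0 := fun h => hq (Fin.ext h)
        show 0 < (q : ℕ)
        omega
      have h5 := h2 _ q hlt b hb a ha
      exact le_trans (h3 b hb) (le_of_lt (by exact_mod_cast h5))

theorem schreier_mono_succ {k : ℕ} {F : Finset ℕ+} (hF : F ∈ Schreier k) :
    F ∈ Schreier (k + 1) := by
  have := schreier_succ_of (k := k) (d := 1) one_pos (G := fun _ => F) (fun _ => hF)
    (fun q r hqr => absurd hqr (by simp [Subsingleton.elim q r])) (fun _ a _ => a.2)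
  have h2 : univ.biUnion (fun _ : Fin 1 => F) = F := by
    ext a; simp
  rwa [h2] at this

theorem schreier_mono {k l : ℕ} (h : k ≤ l) {F : Finset ℕ+} (hF : F ∈ Schreier k) :
    F ∈ Schreier l := by
  induction h with
  | refl => exact hF
  | step _ ih => exact schreier_mono_succ ih

/-! ### The stages -/

theorem stage_mono_succ (n m : ℕ) : (stage n m).1 ⊆ (stage n (m + 1)).1 ∧
    (stage n m).2 ⊆ (stage n (m + 1)).2 :=
  ⟨fun _ h => Or.inl h, fun _ h => Or.inl (Or.inl h)⟩

theorem stage_mono (n : ℕ) {m m' : ℕ} (h : m ≤ m') : (stage n m).1 ⊆ (stage n m').1 ∧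
    (stage n m).2 ⊆ (stage n m').2 := by
  induction h with
  | refl => exact ⟨subset_rfl, subset_rfl⟩
  | step _ ih => exact ⟨ih.1.trans (stage_mono_succ n _).1, ih.2.trans (stage_mono_succ n _).2⟩

/-- Averages with sizes occurring at some stage. -/
def Av (n : ℕ) : Set (ℕ × Vec) := {z | ∃ m, z ∈ (stage n m).1}

theorem single_mem_W (n : ℕ) (i : ℕ+) : Finsupp.single i 1 ∈ W n := ⟨0, i, Or.inl rfl⟩

theorem neg_single_mem_W (n : ℕ) (i : ℕ+) : Finsupp.single i (-1) ∈ W n := ⟨0, i, Or.inr rfl⟩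

theorem average_mem_Av {n ℓ : ℕ} {α : Vec} (h : IsAverage (W n) ℓ α) : (ℓ, α) ∈ Av n := by
  obtain ⟨d, f, h1, h2, h3, h4, h5, h6⟩ := h
  choose m hm using h4
  refine ⟨univ.sup m + 1, Or.inr ⟨d, f, h1, h2, h3, ?_, h5, h6⟩⟩
  intro q
  exact (stage_mono n (le_sup (f := m) (mem_univ q))).2 (hm q)

theorem mem_W_of_Av {n : ℕ} {z : ℕ × Vec} (h : z ∈ Av n) : z.2 ∈ W n := by
  obtain ⟨m, hm⟩ := h
  induction m with
  | zero => exact absurd hm (by simp [stage])
  | succ m ih =>
    rcases hm with hm | hm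
    · exact ih hm
    · exact ⟨m + 1, Or.inl (Or.inr ⟨z.1, hm⟩)⟩

theorem schreier_mem_W {n : ℕ} {g : Vec} (h : IsSchreierSum n (Av n) g) : g ∈ W n := by
  obtain ⟨d, s, α, p, h1, h2, h3, h4, h5, h6, h7, h8⟩ := h
  choose m hm using h2
  refine ⟨univ.sup m + 1, Or.inr ⟨d, s, α, p, h1, ?_, h3, h4, h5, h6, h7, h8⟩⟩
  intro q
  exact (stage_mono n (le_sup (f := m) (mem_univ q))).1 (hm q)

/-! ### Absolute values -/

/-- The coordinatewise absolute value. -/
noncomputable def absV (f : Vec) : Vec := f.mapRange (fun t => |t|) abs_zero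

theorem absV_apply (f : Vec) (i : ℕ+) : absV f i = |f i| := rfl

theorem absV_support (f : Vec) : (absV f).support = f.support := by
  ext i; simp [absV_apply]

theorem absV_single (i : ℕ+) (c : ℝ) : absV (Finsupp.single i c) = Finsupp.single i |c| := by
  simp [absV]

theorem absV_smul (c : ℝ) (f : Vec) : absV (c • f) = |c| • absV f := by
  ext i; simp [absV_apply, abs_mul]

theorem absV_sum {ι : Type*} (I : Finset ι) (f : ι → Vec)
    (h : ∀ i ∈ I, ∀ j ∈ I, i ≠ j → ∀ p ∈ (f i).support, p ∉ (f j).support) :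
    absV (∑ i ∈ I, f i) = ∑ i ∈ I, absV (f i) := by
  ext p
  rw [absV_apply, Finsupp.finsetSum_apply, Finsupp.finsetSum_apply]
  by_cases hp : ∃ i ∈ I, f i p ≠ 0
  · obtain ⟨i, hi, hip⟩ := hp
    rw [sum_eq_single i, sum_eq_single i]
    · rfl
    · intro j hj hji
      have := h i hi j hj hji.symm p (Finsupp.mem_support_iff.2 hip)
      rw [absV_apply, Finsupp.notMem_support_iff.1 this, abs_zero]
    · intro h'; exact absurd hi h'
    · intro j hj hji
      have := h i hi j hj hji.symm p (Finsupp.mem_support_iff.2 hip)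
      exact Finsupp.notMem_support_iff.1 this
    · intro h'; exact absurd hi h'
  · push Not at hp
    rw [sum_eq_zero hp, sum_eq_zero (fun i hi => by rw [absV_apply, hp i hi, abs_zero]), abs_zero]

theorem Before.disj {x y : Vec} (h : Before x y) : ∀ p ∈ x.support, p ∉ y.support :=
  fun p hp hp' => lt_irrefl p (h p hp p hp')

theorem Before.disj' {x y : Vec} (h : Before x y) : ∀ p ∈ y.support, p ∉ x.support :=
  fun p hp hp' => lt_irrefl p (h p hp' p hp)

theorem disj_of_before {ι : Type*} [LinearOrder ι] {I : Finset ι} {f : ι → Vec}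
    (h : ∀ i ∈ I, ∀ j ∈ I, i < j → Before (f i) (f j)) :
    ∀ i ∈ I, ∀ j ∈ I, i ≠ j → ∀ p ∈ (f i).support, p ∉ (f j).support := by
  intro i hi j hj hij
  rcases lt_or_gt_of_ne hij with h1 | h1
  · exact (h i hi j hj h1).disj
  · exact (h j hj i hi h1).disj'

theorem pair_le_absV {f x : Vec} (hx : ∀ i, 0 ≤ x i) : pair f x ≤ pair (absV f) x :=
  pair_le_pair_left (fun i => le_abs_self _) hx

end Pool.Agent.Helper37.Asym
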