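import Mathlib

/-!
The spaces `X^n_{0,1}` of Argyros, Beanland and Motakis: definitions.
-/

namespace Pool.Agent.Helper37.Asym

/-- Finitely supported real sequences; the index set is the set of positive integers. -/
abbrev Vec : Type := ℕ+ →₀ ℝ

/-- `x < y` for vectors: every index in the support of `x` is smaller than every index in the
support of `y`. -/
def Before (x y : Vec) : Prop := ∀ i ∈ x.support, ∀ j ∈ y.support, i < j

/-- The Schreier families: `S_0` is the set of singletons, `S_1` the set of the nonempty `F`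
with `#F ≤ min F`, and `S_{k+1}`, for `k ≥ 1`, the set of the unions of `d ≥ 1` successive members
`G_0 < ... < G_{d-1}` of `S_k` with `d ≤ min G_0`. -/
def Schreier : ℕ → Set (Finset ℕ+)
  | 0 => {F | ∃ m : ℕ+, F = {m}}
  | 1 => {F | F.Nonempty ∧ ∀ m ∈ F, F.card ≤ (m : ℕ)}
  | (k + 2) => {F | ∃ (d : ℕ) (hd : 0 < d) (G : Fin d → Finset ℕ+),
      (∀ q, G q ∈ Schreier (k + 1)) ∧
      (∀ q r, q < r → ∀ a ∈ G q, ∀ b ∈ G r, a < b) ∧
      (∀ a ∈ G ⟨0, hd⟩, d ≤ (a : ℕ)) ∧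
      F = Finset.univ.biUnion G}

/-- `α` is an average of size `ℓ` of members of `W`: `α = (1/ℓ)(f_0 + ... + f_{d-1})` with
`f_0 < ... < f_{d-1}` in `W`, `2 ≤ ℓ` and `1 ≤ d ≤ ℓ`. -/
def IsAverage (W : Set Vec) (ℓ : ℕ) (α : Vec) : Prop :=
  ∃ (d : ℕ) (f : Fin d → Vec), 2 ≤ ℓ ∧ 1 ≤ d ∧ d ≤ ℓ ∧ (∀ q, f q ∈ W) ∧
    (∀ q r, q < r → Before (f q) (f r)) ∧ α = (ℓ : ℝ)⁻¹ • ∑ q, f q

/-- `g` is a Schreier functional built from the set `A` of pairs (size, average):
`g = α_0 + ... + α_{d-1}`, `α_0 < ... < α_{d-1}`, the minima `p_q` of the supports of the `α_q` form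
a set in `S_n`, the sizes `s_q` increase strictly, and `s_{q+1} > max supp α_q`. -/
def IsSchreierSum (n : ℕ) (A : Set (ℕ × Vec)) (g : Vec) : Prop :=
  ∃ (d : ℕ) (s : Fin d → ℕ) (α : Fin d → Vec) (p : Fin d → ℕ+), 1 ≤ d ∧
    (∀ q, (s q, α q) ∈ A) ∧
    (∀ q r, q < r → Before (α q) (α r)) ∧
    (∀ q, IsLeast (↑(α q).support : Set ℕ+) (p q)) ∧
    Finset.univ.image p ∈ Schreier n ∧
    (∀ q r, q < r → s q < s r) ∧
    (∀ q r : Fin d, (r : ℕ) = (q : ℕ) + 1 → ∀ i ∈ (α q).support, (i : ℕ) < s r) ∧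
    g = ∑ q, α q

/-- The stages of the construction: `(stage n m).2` is the set `W_m` and `(stage n m).1` is the set
of the pairs (size, average) of the averages that belong to `W_m`. -/
def stage (n : ℕ) : ℕ → Set (ℕ × Vec) × Set Vec
  | 0 => (∅, {f | ∃ i : ℕ+, f = Finsupp.single i 1 ∨ f = Finsupp.single i (-1)})
  | (m + 1) =>
      ((stage n m).1 ∪ {z | IsAverage (stage n m).2 z.1 z.2},
       (stage n m).2 ∪ {α | ∃ ℓ, IsAverage (stage n m).2 ℓ α} ∪
        {g | IsSchreierSum n (stage n m).1 g})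

/-- The norming set `W`, the union of the `W_m`. -/
def W (n : ℕ) : Set Vec := {f | ∃ m, f ∈ (stage n m).2}

/-- The pairing `f(x) = ∑ f(i) x(i)`. -/
noncomputable def pair (f x : Vec) : ℝ := f.sum fun i t => t * x i

end Pool.Agent.Helper37.Asym
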