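import Pool.Agent.Helper37.Asym.Relaxed

/-!
Upper estimates.
-/

namespace Pool.Agent.Helper37.Asym

open Finset

/-- The family bound of order `j`. -/
def FB (n j : ℕ) (x : Vec) (K lo d : ℝ) : Prop :=
  ∀ (ι : Type) (_ : LinearOrder ι) (I : Finset ι) (s : ι → ℕ) (α : ι → Vec) (G : Finset ℕ+)
    (M S : ℝ), Fam n I s α → G ∈ Schreier j → MinIn I α G → (∃ g ∈ G, ((g : ℕ) : ℝ) ≤ M) →
    0 < S → (∀ i ∈ I, S ≤ s i) →
    ∑ i ∈ I, pair (α i) x ≤ K * (1 / S + M / lo + M / d)

theorem comb {n j : ℕ} {x : Vec} {K R l : ℝ} (hx0 : ∀ i, 0 ≤ x i)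
    (hx : ∀ p ∈ x.support, l ≤ ((p : ℕ) : ℝ)) (hK : 0 ≤ K) (hR : 0 ≤ R) (hl : 0 < l)
    (sub : ∀ (ι : Type) (_ : LinearOrder ι) (J : Finset ι) (s : ι → ℕ) (α : ι → Vec)
      (G' : Finset ℕ+) (S' : ℝ), Fam n J s α → G' ∈ Schreier j → MinIn J α G' →
      (∀ i ∈ J, pair (α i) x ≠ 0) → 0 < S' → (∀ i ∈ J, S' ≤ s i) →
      ∑ i ∈ J, pair (α i) x ≤ K / S' + R) :
    ∀ (ι : Type) (_ : LinearOrder ι) (I : Finset ι) (s : ι → ℕ) (α : ι → Vec) (G : Finset ℕ+)
    (M S : ℝ), Fam n I s α → G ∈ Schreier (j + 1) → MinIn I α G → (∃ g ∈ G, ((g : ℕ) : ℝ) ≤ M) →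
    0 < S → (∀ i ∈ I, S ≤ s i) →
    ∑ i ∈ I, pair (α i) x ≤ K * (1 / S + M / l) + M * R := by
  classical
  intro ι _ I s α G M S hF hG hm hM hS hsS
  obtain ⟨d, hd, Gs, h1, h2, h3, rfl⟩ := schreier_succ_dec hG
  have hdM : (d : ℝ) ≤ M := by
    obtain ⟨g, hg, hgM⟩ := hM
    obtain ⟨q, _, hq⟩ := mem_biUnion.1 hg
    exact le_trans (by exact_mod_cast h3 q g hq) hgM
  have hM0 : 0 ≤ M := le_trans (by positivity) hdM
  set I' := I.filter (fun i => pair (α i) x ≠ 0) with hI'
  have hI'I : I' ⊆ I := filter_subset _ _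
  have hsum : ∑ i ∈ I, pair (α i) x = ∑ i ∈ I', pair (α i) x := by
    rw [hI', sum_filter]
    refine sum_congr rfl fun i _ => ?_
    split_ifs with h
    · rfl
    · push Not at h; exact h
  rw [hsum]
  have hex : ∀ i, ∃ a : Fin d, i ∈ I' → ∃ p ∈ Gs a, IsLeast (↑(α i).support : Set ℕ+) p := by
    intro i
    by_cases hi : i ∈ I'
    · obtain ⟨p, hp, hp2⟩ := hm i (hI'I hi)
      obtain ⟨a, _, ha⟩ := mem_biUnion.1 hp
      exact ⟨a, fun _ => ⟨p, ha, hp2⟩⟩
    · exact ⟨⟨0, hd⟩, fun h => absurd h hi⟩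
  choose c hc using hex
  rw [← sum_fiberwise I' c]
  by_cases hne : I'.Nonempty
  swap
  · rw [not_nonempty_iff_eq_empty] at hne
    rw [hne]
    simp only [filter_empty, sum_empty, sum_const_zero]
    have : 0 ≤ 1 / S + M / l := by positivity
    positivity
  have hA : (I'.image c).Nonempty := hne.image c
  set a0 := (I'.image c).min' hA with ha0
  obtain ⟨i0, hi0, hci0⟩ := mem_image.1 ((I'.image c).min'_mem hA)
  obtain ⟨p0, hp0, hp0x⟩ := exists_of_pair_ne_zero (mem_filter.1 hi0).2
  have hlp0 : l ≤ ((p0 : ℕ) : ℝ) := hx p0 hp0x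
  have hbound : ∀ a : Fin d, ∑ i ∈ I' with c i = a, pair (α i) x ≤
      (if a = a0 then K / S else 0) + (K / l + R) := by
    intro a
    have hsub : I'.filter (fun i => c i = a) ⊆ I' := filter_subset _ _
    have hF' := hF.mono (hsub.trans hI'I)
    have hmin : MinIn (I'.filter (fun i => c i = a)) α (Gs a) := by
      intro i hi
      obtain ⟨hi1, hi2⟩ := mem_filter.1 hi
      have := hc i hi1
      rwa [hi2] at this
    have hne' : ∀ i ∈ I'.filter (fun i => c i = a), pair (α i) x ≠ 0 := by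
      intro i hi
      exact (mem_filter.1 (hsub hi)).2
    by_cases haa : a = a0
    · rw [if_pos haa]
      have := sub ι inferInstance _ s α (Gs a) S hF' (h1 a) hmin hne' hS
        (fun i hi => hsS i (hI'I (hsub hi)))
      have h5 : 0 ≤ K / l := by positivity
      linarith
    · rw [if_neg haa]
      have := sub ι inferInstance _ s α (Gs a) l hF' (h1 a) hmin hne' hl ?_
      · linarith
      · intro i hi
        obtain ⟨hi1, hi2⟩ := mem_filter.1 hi
        have ha0a : a0 < a := by
          refine lt_of_le_of_ne ?_ (Ne.symm haa)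
          exact min'_le _ _ (mem_image.2 ⟨i, hi1, hi2⟩)
        obtain ⟨q, hq, hq2⟩ := hmin i hi
        obtain ⟨q0, hq0, hq02⟩ := hc i0 hi0
        rw [hci0] at hq0
        have hqq : q0 < q := h2 a0 a ha0a q0 hq0 q hq
        have hlt : i0 < i := by
          by_contra hcon
          push Not at hcon
          rcases eq_or_lt_of_le hcon with h6 | h6
          · rw [h6] at hi2; rw [hci0] at hi2; exact haa hi2.symm
          · have := hF.bef i (hI'I hi1) i0 (hI'I hi0) h6 q hq2.1 q0 hq02.1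
            exact lt_asymm this hqq
        have h7 := hF.fast i0 (hI'I hi0) i (hI'I hi1) hlt p0 hp0
        exact le_trans hlp0 (by exact_mod_cast h7.le)
  calc ∑ a : Fin d, ∑ i ∈ I' with c i = a, pair (α i) x
      ≤ ∑ a : Fin d, ((if a = a0 then K / S else 0) + (K / l + R)) :=
        sum_le_sum fun a _ => hbound a
    _ = K / S + d * (K / l + R) := by
        rw [sum_add_distrib, sum_ite_eq' univ a0]
        simp
        ring
    _ ≤ K / S + M * (K / l + R) := by
        have : 0 ≤ K / l + R := by positivity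
        have := mul_le_mul_of_nonneg_right hdM this
        linarith
    _ = K * (1 / S + M / l) + M * R := by ring

/-- An average of size `s` sees at most `s + d` pairs. -/
theorem avg_bound {n s d : ℕ} {α : Vec} (hα : Wr n (some s) α) {w : ℕ → Vec} {B : ℝ}
    (hB0 : 0 ≤ B)
    (hw : ∀ u < d, ∀ v < d, u < v → Before (w u) (w v))
    (hB : ∀ u < d, ∀ φ, Wr n none φ → pair φ (w u) ≤ B) :
    pair α (∑ u ∈ range d, w u) ≤ B * ((s : ℝ) + d) / s := by
  classical
  obtain ⟨ι, _, T, f, h1, h2, h3, h4, rfl⟩ := hα.dec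
  have hs : (0 : ℝ) < s := by
    have : (2 : ℝ) ≤ s := by exact_mod_cast h1
    linarith
  rw [pair_smul_left, pair_sum_left]
  have hT : ∑ t ∈ T, pair (f t) (∑ u ∈ range d, w u) ≤ B * ((s : ℝ) + d) := by
    have h5 : ∑ t ∈ T, pair (f t) (∑ u ∈ range d, w u) =
        ∑ z ∈ T ×ˢ range d, pair (f z.1) (w z.2) := by
      rw [sum_product]
      exact sum_congr rfl fun t _ => pair_sum_right _ _ _
    rw [h5]
    set Z := (T ×ˢ range d).filter (fun z => pair (f z.1) (w z.2) ≠ 0) with hZ
    have h6 : ∑ z ∈ T ×ˢ range d, pair (f z.1) (w z.2) = ∑ z ∈ Z, pair (f z.1) (w z.2) := by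
      rw [hZ, sum_filter]
      refine sum_congr rfl fun i _ => ?_
      split_ifs with h
      · rfl
      · push Not at h; exact h
    rw [h6]
    set rk : ι → ℕ := fun t => (T.filter (fun v => v < t)).card with hrk
    have hrk1 : ∀ t ∈ T, rk t < T.card := by
      intro t ht
      refine card_lt_card ?_
      rw [filter_ssubset]
      exact ⟨t, ht, lt_irrefl t⟩
    have hrk2 : ∀ t ∈ T, ∀ t' ∈ T, t < t' → rk t < rk t' := by
      intro t ht t' _ htt
      refine card_lt_card ?_
      rw [ssubset_iff_of_subset]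
      · refine ⟨t, mem_filter.2 ⟨ht, htt⟩, ?_⟩
        simp
      · intro v hv
        obtain ⟨h7, h8⟩ := mem_filter.1 hv
        exact mem_filter.2 ⟨h7, lt_trans h8 htt⟩
    have hcard : Z.card ≤ s + d := by
      have hle : Z.card ≤ (range (T.card + d)).card := by
        refine card_le_card_of_injOn (fun z => rk z.1 + z.2) ?_ ?_
        · intro z hz
          obtain ⟨hz1, _⟩ := mem_filter.1 (mem_coe.1 hz)
          obtain ⟨hz2, hz3⟩ := mem_product.1 hz1
          have := hrk1 z.1 hz2
          have := mem_range.1 hz3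
          simp only [coe_range, Set.mem_Iio]
          omega
        · have main : ∀ z ∈ Z, ∀ z' ∈ Z, rk z.1 + z.2 = rk z'.1 + z'.2 → ¬ z.1 < z'.1 := by
            intro z hz z' hz' heq hlt
            obtain ⟨hz1, hz4⟩ := mem_filter.1 hz
            obtain ⟨hz2, hz3⟩ := mem_product.1 hz1
            obtain ⟨hz1', hz4'⟩ := mem_filter.1 hz'
            obtain ⟨hz2', hz3'⟩ := mem_product.1 hz1'
            have h9 := hrk2 _ hz2 _ hz2' hlt
            have h10 : z'.2 < z.2 := by omega
            obtain ⟨p, hp1, hp2⟩ := exists_of_pair_ne_zero hz4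
            obtain ⟨p', hp1', hp2'⟩ := exists_of_pair_ne_zero hz4'
            have h11 : p < p' := h4 _ hz2 _ hz2' hlt p hp1 p' hp1'
            have h12 : p' < p := hw _ (mem_range.1 hz3') _ (mem_range.1 hz3) h10 p' hp2' p hp2
            exact lt_asymm h11 h12
          intro z hz z' hz' heq
          have hz := mem_coe.1 hz
          have hz' := mem_coe.1 hz'
          have h13 := main z hz z' hz' heq
          have h14 := main z' hz' z hz heq.symm
          have h15 : z.1 = z'.1 := le_antisymm (not_lt.1 h14) (not_lt.1 h13)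
          have h16 : z.2 = z'.2 := by
            simp only [h15] at heq
            omega
          exact Prod.ext h15 h16
      rw [card_range] at hle
      omega
    calc ∑ z ∈ Z, pair (f z.1) (w z.2) ≤ ∑ z ∈ Z, B := by
          refine sum_le_sum fun z hz => ?_
          obtain ⟨hz1, _⟩ := mem_filter.1 hz
          obtain ⟨hz2, hz3⟩ := mem_product.1 hz1
          exact hB z.2 (mem_range.1 hz3) _ (h3 z.1 hz2).1
      _ = Z.card * B := by simp
      _ ≤ ((s : ℝ) + d) * B := by
          refine mul_le_mul_of_nonneg_right ?_ hB0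
          exact_mod_cast hcard
      _ = B * ((s : ℝ) + d) := by ring
  calc (s : ℝ)⁻¹ * ∑ t ∈ T, pair (f t) (∑ u ∈ range d, w u)
      ≤ (s : ℝ)⁻¹ * (B * ((s : ℝ) + d)) := mul_le_mul_of_nonneg_left hT (inv_nonneg.2 hs.le)
    _ = B * ((s : ℝ) + d) / s := by field_simp

/-- Convexity: the average of vectors of norm at most `B`. -/
theorem convex_bound {φ : Vec} {d : ℕ} {C : ℕ → Vec} {B : ℝ} (hd : 0 < d)
    (hB : ∀ u < d, pair φ (C u) ≤ B) : pair φ ((d : ℝ)⁻¹ • ∑ u ∈ range d, C u) ≤ B := by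
  rw [pair_smul_right, pair_sum_right]
  have hd' : (0 : ℝ) < d := by exact_mod_cast hd
  calc (d : ℝ)⁻¹ * ∑ u ∈ range d, pair φ (C u) ≤ (d : ℝ)⁻¹ * ∑ u ∈ range d, B := by
        refine mul_le_mul_of_nonneg_left ?_ (inv_nonneg.2 hd'.le)
        exact sum_le_sum fun u hu => hB u (mem_range.1 hu)
    _ = B := by rw [sum_const, card_range, nsmul_eq_mul]; field_simp

/-- Family bound of order one for the average of groups. -/
theorem fb_one {n d : ℕ} {w : ℕ → Vec} {B l : ℝ} (hd : 0 < d) (hB0 : 0 ≤ B) (hl : 0 < l)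
    (hw0 : ∀ u < d, ∀ i, 0 ≤ w u i)
    (hw : ∀ u < d, ∀ v < d, u < v → Before (w u) (w v))
    (hB : ∀ u < d, ∀ φ, Wr n none φ → pair φ (w u) ≤ B)
    (hsupp : ∀ u < d, ∀ p ∈ (w u).support, l ≤ ((p : ℕ) : ℝ)) :
    FB n 1 ((d : ℝ)⁻¹ • ∑ u ∈ range d, w u) B l d := by
  have hd' : (0 : ℝ) < d := by exact_mod_cast hd
  intro ι _ I s α G M S hF hG hm hM hS hsS
  have := comb (n := n) (j := 0) (x := (d : ℝ)⁻¹ • ∑ u ∈ range d, w u) (K := B) (R := B / d)
    (l := l) ?_ ?_ hB0 (by positivity) hl ?_ ι inferInstance I s α G M S hF hG hm hM hS hsS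
  · refine this.trans (le_of_eq ?_); ring
  · intro i
    show 0 ≤ (d : ℝ)⁻¹ * (∑ u ∈ range d, w u) i
    rw [Finsupp.finsetSum_apply]
    exact mul_nonneg (inv_nonneg.2 hd'.le) (sum_nonneg fun u hu => hw0 u (mem_range.1 hu) i)
  · intro p hp
    have h1 := Finsupp.support_smul hp
    obtain ⟨u, hu, hpu⟩ := mem_biUnion.1 (Finsupp.support_finsetSum h1)
    exact hsupp u (mem_range.1 hu) p hpu
  · intro ι _ J s α G' S' hF hG' hm hne hS' hsS'
    rcases J.eq_empty_or_nonempty with rfl | ⟨i, hi⟩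
    · simp only [sum_empty]; positivity
    · obtain ⟨m, rfl⟩ := hG'
      have hJ : J = {i} := by
        refine eq_singleton_iff_unique_mem.2 ⟨hi, fun k hk => ?_⟩
        obtain ⟨p, hp, hp2⟩ := hm i hi
        obtain ⟨q, hq, hq2⟩ := hm k hk
        rw [mem_singleton] at hp hq
        subst hp; subst hq
        rcases lt_trichotomy i k with h | h | h
        · exact absurd (hF.bef i hi k hk h _ hp2.1 _ hq2.1) (lt_irrefl _)
        · exact h.symm
        · exact absurd (hF.bef k hk i hi h _ hq2.1 _ hp2.1) (lt_irrefl _)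
      rw [hJ, sum_singleton, pair_smul_right]
      have h1 := avg_bound (hF.av i hi) hB0 hw hB
      have hsi : S' ≤ s i := hsS' i hi
      have hs0 : (0 : ℝ) < s i := lt_of_lt_of_le hS' hsi
      calc (d : ℝ)⁻¹ * pair (α i) (∑ u ∈ range d, w u) ≤ (d : ℝ)⁻¹ * (B * ((s i : ℝ) + d) / s i) :=
            mul_le_mul_of_nonneg_left h1 (inv_nonneg.2 hd'.le)
        _ = B / s i + B / d := by field_simp; ring
        _ ≤ B / S' + B / d := by
            have := div_le_div_of_nonneg_left hB0 hS' hsi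
            linarith

theorem geom_half (d : ℕ) : ∑ v ∈ range d, ((1 : ℝ) / 2) ^ (v + 1) ≤ 1 := by
  have : ∑ v ∈ range d, ((1 : ℝ) / 2) ^ (v + 1) = 1 - (1 / 2) ^ d := by
    induction d with
    | zero => simp
    | succ d ih => rw [sum_range_succ, ih]; ring
  rw [this]
  have : (0 : ℝ) < (1 / 2) ^ d := by positivity
  linarith

/-- Family bound of order `j + 1` from order `j`. -/
theorem fb_succ {n j d : ℕ} {C : ℕ → Vec} {B K : ℝ} {a z D : ℕ → ℝ} (hj : j ≤ n)
    (hd : 0 < d) (hB0 : 0 ≤ B) (hK : 0 ≤ K) (ha0 : 0 < a 0)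
    (hC0 : ∀ v < d, ∀ i, 0 ≤ C v i)
    (hB : ∀ v < d, ∀ φ, Wr n none φ → pair φ (C v) ≤ B)
    (hlo : ∀ v < d, ∀ p ∈ (C v).support, a v ≤ ((p : ℕ) : ℝ))
    (hhi : ∀ v < d, ∀ p ∈ (C v).support, ((p : ℕ) : ℝ) ≤ z v)
    (hza : ∀ v, (z v + 1) ^ 4 ≤ a (v + 1)) (haz : ∀ v, a v ≤ z v) (hz2 : ∀ v, (2 : ℝ) ^ (v + 1) ≤ z v)
    (haD : ∀ v, a v ≤ D v)
    (hFB : ∀ v < d, FB n j (C v) K (a v) (D v)) :
    FB n (j + 1) ((d : ℝ)⁻¹ • ∑ u ∈ range d, C u) (B + K) (a 0) d := by
  classical
  have hd' : (0 : ℝ) < d := by exact_mod_cast hd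
  have hzpos : ∀ v, 0 < z v := fun v => lt_of_lt_of_le (by positivity) (hz2 v)
  have ha1 : ∀ v, z v ≤ a (v + 1) := by
    intro v
    have h1 := hza v
    have h2 := hzpos v
    have h3 : z v ≤ (z v + 1) ^ 4 := by nlinarith [sq_nonneg (z v + 1), pow_pos h2 2, pow_pos h2 3, pow_pos h2 4]
    linarith
  have hamono : Monotone a := monotone_nat_of_le_succ fun v => (haz v).trans (ha1 v)
  have hzmono : Monotone z := monotone_nat_of_le_succ fun v => (ha1 v).trans (haz _)
  intro ι _ I s α G M S hF hG hm hM hS hsS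
  have hM0 : 0 ≤ M := by
    obtain ⟨g, _, hgM⟩ := hM
    exact le_trans (by positivity) hgM
  have := comb (n := n) (j := j) (x := (d : ℝ)⁻¹ • ∑ u ∈ range d, C u) (K := K)
    (R := (B + K) / d) (l := a 0) ?_ ?_ hK (by positivity) ha0 ?_ ι inferInstance I s α G M S
    hF hG hm hM hS hsS
  · refine this.trans ?_
    have h1 : 0 ≤ B * (1 / S + M / a 0) := by positivity
    calc K * (1 / S + M / a 0) + M * ((B + K) / d)
        ≤ K * (1 / S + M / a 0) + M * ((B + K) / d) + B * (1 / S + M / a 0) := by linarith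
      _ = (B + K) * (1 / S + M / a 0 + M / d) := by ring
  · intro i
    show 0 ≤ (d : ℝ)⁻¹ * (∑ u ∈ range d, C u) i
    rw [Finsupp.finsetSum_apply]
    exact mul_nonneg (inv_nonneg.2 hd'.le) (sum_nonneg fun u hu => hC0 u (mem_range.1 hu) i)
  · intro p hp
    have h1 := Finsupp.support_smul hp
    obtain ⟨u, hu, hpu⟩ := mem_biUnion.1 (Finsupp.support_finsetSum h1)
    exact (hamono (Nat.zero_le u)).trans (hlo u (mem_range.1 hu) p hpu)
  · intro ι _ J s α G' S' hF hG' hm hne hS' hsS'
    rcases J.eq_empty_or_nonempty with rfl | ⟨i, hi⟩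
    · simp only [sum_empty]; positivity
    · -- the first block which is touched
      have hex : ∃ v, v < d ∧ ∃ i ∈ J, pair (α i) (C v) ≠ 0 := by
        by_contra hcon
        push Not at hcon
        apply hne i hi
        rw [pair_smul_right, pair_sum_right, sum_eq_zero, mul_zero]
        intro v hv
        exact hcon v (mem_range.1 hv) i hi
      set v0 := Nat.find hex with hv0
      obtain ⟨hv0d, i0, hi0, hpi0⟩ := Nat.find_spec hex
      have hbefore : ∀ v, v < d → v < v0 → ∀ i ∈ J, pair (α i) (C v) = 0 := by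
        intro v hvd hv i hi
        by_contra hcon
        exact Nat.find_min hex hv ⟨hvd, i, hi, hcon⟩
      obtain ⟨p, hp1, hp2⟩ := exists_of_pair_ne_zero hpi0
      have hbnd : ∀ v, v < d → ∑ i ∈ J, pair (α i) (C v) ≤
          (if v = v0 then B else 0) + K / S' + K * (1 / 2) ^ (v + 1) := by
        intro v hvd
        have hpos1 : 0 ≤ K / S' := by positivity
        have hpos2 : 0 ≤ K * (1 / 2 : ℝ) ^ (v + 1) := by positivity
        rcases lt_trichotomy v v0 with h | h | h
        · rw [if_neg h.ne, sum_eq_zero (hbefore v hvd h)]; positivity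
        · rw [if_pos h, ← pair_sum_left]
          have := hB v hvd _ (hF.sum_mem hj hG' hm)
          linarith
        · rw [if_neg h.ne']
          have hv1 : v - 1 + 1 = v := by omega
          have hMv : ∃ g ∈ G', ((g : ℕ) : ℝ) ≤ z (v - 1) := by
            obtain ⟨g, hg, hg2⟩ := hm i0 hi0
            refine ⟨g, hg, ?_⟩
            have h1 : g ≤ p := hg2.2 hp1
            have h2 : ((g : ℕ) : ℝ) ≤ ((p : ℕ) : ℝ) := by exact_mod_cast h1
            have h3 := hhi v0 hv0d p hp2
            have h4 : z v0 ≤ z (v - 1) := hzmono (by omega)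
            linarith
          have h5 := hFB v hvd ι inferInstance J s α G' (z (v - 1)) S' hF hG' hm hMv hS' hsS'
          have h6 : z (v - 1) / a v + z (v - 1) / D v ≤ (1 / 2) ^ (v + 1) := by
            have h7 := hza (v - 1)
            rw [hv1] at h7
            have h8 := hz2 (v - 1)
            rw [hv1] at h8
            have h9 := hzpos (v - 1)
            have hav : 0 < a v := lt_of_lt_of_le (by positivity) h7
            have h10 : z (v - 1) / D v ≤ z (v - 1) / a v :=
              div_le_div_of_nonneg_left h9.le hav (haD v)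
            have h11 : z (v - 1) / a v ≤ (1 / 2) * (1 / 2) ^ (v + 1) := by
              rw [div_le_iff₀ hav]
              have h12 : (1 / 2 : ℝ) * (1 / 2) ^ (v + 1) * (4 * 2 ^ v) = 1 := by
                rw [show (1 / 2 : ℝ) * (1 / 2) ^ (v + 1) = ((1 / 2) * (1 / 2)) * (1 / 2) ^ v by ring]
                rw [show ((1 / 2 : ℝ) * (1 / 2)) * (1 / 2) ^ v * (4 * 2 ^ v) =
                  ((1 / 2) ^ v * 2 ^ v) by ring, ← mul_pow]
                norm_num
              have h13 : 0 < (1 / 2 : ℝ) * (1 / 2) ^ (v + 1) := by positivity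
              have h14 : (4 * 2 ^ v) * z (v - 1) ≤ a v := by
                have h15 : (2 : ℝ) ≤ z (v - 1) := by
                  have h17 : (2 : ℝ) ^ 1 ≤ 2 ^ v :=
                    pow_le_pow_right₀ (by norm_num) (by omega)
                  rw [pow_one] at h17
                  linarith
                set Z := z (v - 1)
                have h18 : (4 * 2 ^ v) * Z ≤ (4 * Z) * Z := by nlinarith
                have h19 : (4 * Z) * Z ≤ (Z + 1) ^ 4 := by
                  nlinarith [sq_nonneg (Z + 1), mul_pos h9 h9, pow_pos h9 3, pow_pos h9 4]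
                linarith
              calc z (v - 1) = ((1 / 2 : ℝ) * (1 / 2) ^ (v + 1)) * ((4 * 2 ^ v) * z (v - 1)) := by
                    rw [← mul_assoc, h12, one_mul]
                _ ≤ ((1 / 2 : ℝ) * (1 / 2) ^ (v + 1)) * a v :=
                    mul_le_mul_of_nonneg_left h14 h13.le
            linarith
          calc ∑ i ∈ J, pair (α i) (C v) ≤ K * (1 / S' + z (v - 1) / a v + z (v - 1) / D v) := h5
            _ = K / S' + K * (z (v - 1) / a v + z (v - 1) / D v) := by ring
            _ ≤ K / S' + K * (1 / 2) ^ (v + 1) := by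
                have := mul_le_mul_of_nonneg_left h6 hK
                linarith
            _ = 0 + K / S' + K * (1 / 2) ^ (v + 1) := by ring
      have hswap : ∑ i ∈ J, pair (α i) ((d : ℝ)⁻¹ • ∑ u ∈ range d, C u) =
          (d : ℝ)⁻¹ * ∑ v ∈ range d, ∑ i ∈ J, pair (α i) (C v) := by
        rw [sum_comm, mul_sum]
        refine sum_congr rfl fun i _ => ?_
        rw [pair_smul_right, pair_sum_right]
      rw [hswap]
      have htot : ∑ v ∈ range d, ∑ i ∈ J, pair (α i) (C v) ≤ B + d * (K / S') + K := by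
        calc ∑ v ∈ range d, ∑ i ∈ J, pair (α i) (C v)
            ≤ ∑ v ∈ range d, ((if v = v0 then B else 0) + K / S' + K * (1 / 2) ^ (v + 1)) :=
              sum_le_sum fun v hv => hbnd v (mem_range.1 hv)
          _ = B + d * (K / S') + K * ∑ v ∈ range d, (1 / 2 : ℝ) ^ (v + 1) := by
              rw [sum_add_distrib, sum_add_distrib, sum_ite_eq', if_pos (mem_range.2 hv0d),
                mul_sum, sum_const, card_range, nsmul_eq_mul]
          _ ≤ B + d * (K / S') + K := by
              have := mul_le_mul_of_nonneg_left (geom_half d) hK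
              linarith
      calc (d : ℝ)⁻¹ * ∑ v ∈ range d, ∑ i ∈ J, pair (α i) (C v)
          ≤ (d : ℝ)⁻¹ * (B + d * (K / S') + K) :=
            mul_le_mul_of_nonneg_left htot (inv_nonneg.2 hd'.le)
        _ = K / S' + (B + K) / d := by field_simp; ring

end Pool.Agent.Helper37.Asym
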