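import Pool.Agent.Helper37.Asym.Relaxed

/-!
The norm and the Banach space.
-/

namespace Pool.Agent.Helper37.Asym

open Finset

/-- The norm of a finitely supported vector: the supremum of `f(x)` over `f` in `W`. -/
noncomputable def nrm (n : ℕ) (x : Vec) : ℝ := sSup {r | ∃ f ∈ W n, r = pair f x}

theorem stage_neg (n m : ℕ) : (∀ z ∈ (stage n m).1, (z.1, -z.2) ∈ (stage n m).1) ∧
    (∀ f ∈ (stage n m).2, -f ∈ (stage n m).2) := by
  have hsupp : ∀ x : Vec, (-x).support = x.support := fun x => Finsupp.support_neg x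
  have hb : ∀ x y : Vec, Before x y → Before (-x) (-y) := by
    intro x y h i hi j hj
    rw [hsupp] at hi hj
    exact h i hi j hj
  induction m with
  | zero =>
    refine ⟨fun z hz => absurd hz (by simp [stage]), ?_⟩
    rintro f ⟨i, rfl | rfl⟩
    · exact ⟨i, Or.inr (by rw [Finsupp.single_neg])⟩
    · exact ⟨i, Or.inl (by rw [← Finsupp.single_neg, neg_neg])⟩
  | succ m ih =>
    have havg : ∀ ℓ α, IsAverage (stage n m).2 ℓ α → IsAverage (stage n m).2 ℓ (-α) := by
      rintro ℓ α ⟨d, f, h1, h2, h3, h4, h5, rfl⟩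
      refine ⟨d, fun q => -f q, h1, h2, h3, fun q => ih.2 _ (h4 q), fun q r hqr => hb _ _ (h5 q r hqr),
        ?_⟩
      rw [sum_neg_distrib, smul_neg]
    refine ⟨?_, ?_⟩
    · rintro z (hz | hz)
      · exact Or.inl (ih.1 z hz)
      · exact Or.inr (havg _ _ hz)
    · rintro f ((hf | ⟨ℓ, hf⟩) | hf)
      · exact Or.inl (Or.inl (ih.2 f hf))
      · exact Or.inl (Or.inr ⟨ℓ, havg _ _ hf⟩)
      · right
        obtain ⟨d, s, α, p, h1, h2, h3, h4, h5, h6, h7, rfl⟩ := hf
        refine ⟨d, s, fun q => -α q, p, h1, fun q => ih.1 _ (h2 q),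
          fun q r hqr => hb _ _ (h3 q r hqr), ?_, h5, h6, ?_, ?_⟩
        · intro q; rw [hsupp]; exact h4 q
        · intro q r hqr; rw [hsupp]; exact h7 q r hqr
        · rw [sum_neg_distrib]

theorem W_neg {n : ℕ} {f : Vec} (h : f ∈ W n) : -f ∈ W n := by
  obtain ⟨m, hm⟩ := h
  exact ⟨m, (stage_neg n m).2 f hm⟩

theorem pair_le_sum {n : ℕ} {f : Vec} (h : f ∈ W n) (x : Vec) :
    pair f x ≤ ∑ i ∈ x.support, |x i| := by
  rw [pair_comm, pair_eq_sum x f subset_rfl]
  refine sum_le_sum fun i _ => ?_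
  have h1 := (W_relaxed h).le_one i
  rw [absV_apply] at h1
  calc x i * f i ≤ |x i * f i| := le_abs_self _
    _ = |x i| * |f i| := abs_mul _ _
    _ ≤ |x i| * 1 := mul_le_mul_of_nonneg_left h1 (abs_nonneg _)
    _ = |x i| := mul_one _

theorem bddAbove_nrm (n : ℕ) (x : Vec) : BddAbove {r | ∃ f ∈ W n, r = pair f x} := by
  refine ⟨∑ i ∈ x.support, |x i|, ?_⟩
  rintro r ⟨f, hf, rfl⟩
  exact pair_le_sum hf x

theorem pair_le_nrm {n : ℕ} {f : Vec} (h : f ∈ W n) (x : Vec) : pair f x ≤ nrm n x :=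
  le_csSup (bddAbove_nrm n x) ⟨f, h, rfl⟩

theorem nrm_le {n : ℕ} {x : Vec} {B : ℝ} (h : ∀ f ∈ W n, pair f x ≤ B) : nrm n x ≤ B := by
  refine csSup_le ⟨pair (Finsupp.single 1 1) x, _, single_mem_W n 1, rfl⟩ ?_
  rintro r ⟨f, hf, rfl⟩
  exact h f hf

theorem abs_coord_le_nrm (n : ℕ) (x : Vec) (i : ℕ+) : |x i| ≤ nrm n x := by
  rw [abs_le']
  refine ⟨?_, ?_⟩
  · have := pair_le_nrm (single_mem_W n i) x
    rwa [pair_single_left, one_mul] at this
  · have := pair_le_nrm (neg_single_mem_W n i) x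
    rw [pair_single_left] at this
    linarith

theorem nrm_nonneg (n : ℕ) (x : Vec) : 0 ≤ nrm n x := (abs_nonneg _).trans (abs_coord_le_nrm n x 1)

theorem nrm_add_le (n : ℕ) (x y : Vec) : nrm n (x + y) ≤ nrm n x + nrm n y := by
  refine nrm_le fun f hf => ?_
  rw [pair_add_right]
  exact add_le_add (pair_le_nrm hf x) (pair_le_nrm hf y)

theorem nrm_neg (n : ℕ) (x : Vec) : nrm n (-x) = nrm n x := by
  have key : ∀ y : Vec, nrm n (-y) ≤ nrm n y := by
    intro y
    refine nrm_le fun f hf => ?_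
    have h1 : pair f (-y) = pair (-f) y := by
      rw [pair_neg_left, pair_comm, pair_neg_left, pair_comm]
    rw [h1]
    exact pair_le_nrm (W_neg hf) y
  refine le_antisymm (key x) ?_
  have := key (-x)
  rwa [neg_neg] at this

theorem nrm_smul (n : ℕ) (c : ℝ) (x : Vec) : nrm n (c • x) = |c| * nrm n x := by
  have key : ∀ (c : ℝ) (y : Vec), 0 ≤ c → nrm n (c • y) ≤ c * nrm n y := by
    intro c y hc
    refine nrm_le fun f hf => ?_
    rw [pair_smul_right]
    exact mul_le_mul_of_nonneg_left (pair_le_nrm hf y) hc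
  have key2 : ∀ (c : ℝ) (y : Vec), 0 < c → nrm n (c • y) = c * nrm n y := by
    intro c y hc
    refine le_antisymm (key c y hc.le) ?_
    have h1 := key c⁻¹ (c • y) (inv_nonneg.2 hc.le)
    rw [smul_smul, inv_mul_cancel₀ hc.ne', one_smul] at h1
    calc c * nrm n y ≤ c * (c⁻¹ * nrm n (c • y)) := mul_le_mul_of_nonneg_left h1 hc.le
      _ = nrm n (c • y) := by rw [← mul_assoc, mul_inv_cancel₀ hc.ne', one_mul]
  rcases lt_trichotomy c 0 with hc | hc | hc
  · have h1 : c • x = -((-c) • x) := by rw [neg_smul, neg_neg]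
    rw [h1, nrm_neg, key2 (-c) x (by linarith), abs_of_neg hc]
  · subst hc
    rw [zero_smul, abs_zero, zero_mul]
    refine le_antisymm (nrm_le fun f _ => ?_) (nrm_nonneg n 0)
    rw [pair_zero_right]
  · rw [key2 c x hc, abs_of_pos hc]

theorem nrm_eq_zero_iff (n : ℕ) (x : Vec) : nrm n x = 0 ↔ x = 0 := by
  constructor
  · intro h
    ext i
    have := abs_coord_le_nrm n x i
    rw [h] at this
    exact abs_nonpos_iff.1 this
  · rintro rfl
    refine le_antisymm (nrm_le fun f _ => ?_) (nrm_nonneg n 0)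
    rw [pair_zero_right]

/-- The space `c_00`, to be equipped with the norm `nrm n`. -/
def C00 (_n : ℕ) : Type := Vec

noncomputable instance (n : ℕ) : AddCommGroup (C00 n) := inferInstanceAs (AddCommGroup Vec)

noncomputable instance (n : ℕ) : Module ℝ (C00 n) := inferInstanceAs (Module ℝ Vec)

noncomputable instance (n : ℕ) : Norm (C00 n) := ⟨nrm n⟩

theorem core (n : ℕ) : NormedSpace.Core ℝ (C00 n) where
  norm_nonneg := nrm_nonneg n
  norm_smul := fun c x => nrm_smul n c x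
  norm_triangle := nrm_add_le n
  norm_eq_zero_iff := nrm_eq_zero_iff n

noncomputable instance (n : ℕ) : NormedAddCommGroup (C00 n) := NormedAddCommGroup.ofCore (core n)

noncomputable instance (n : ℕ) : NormedSpace ℝ (C00 n) := NormedSpace.ofCore (core n)

/-- The Banach space `X^n_{0,1}`: the completion of `c_00` for the norm `nrm n`. -/
abbrev X (n : ℕ) : Type := UniformSpace.Completion (C00 n)

/-- The linear embedding of the finitely supported sequences. -/
noncomputable def emb (n : ℕ) : Vec →ₗ[ℝ] X n :=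
  (UniformSpace.Completion.toComplₗᵢ (𝕜 := ℝ) (E := C00 n)).toLinearMap.comp
    (show Vec →ₗ[ℝ] C00 n from LinearMap.id (R := ℝ) (M := Vec))

theorem norm_emb (n : ℕ) (x : Vec) : ‖emb n x‖ = nrm n x :=
  (UniformSpace.Completion.toComplₗᵢ (𝕜 := ℝ) (E := C00 n)).norm_map x

/-- The unit vector basis of `X^n_{0,1}`. -/
noncomputable def basis (n : ℕ) (i : ℕ+) : X n := emb n (Finsupp.single i 1)

/-- Equivalence of two sequences. -/
def SeqEquiv {E F : Type} [NormedAddCommGroup E] [NormedSpace ℝ E] [NormedAddCommGroup F]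
    [NormedSpace ℝ F] (x : ℕ+ → E) (y : ℕ+ → F) : Prop :=
  ∃ C : ℝ, 1 ≤ C ∧ ∀ a : ℕ+ →₀ ℝ,
    C⁻¹ * ‖a.sum fun i t => t • y i‖ ≤ ‖a.sum fun i t => t • x i‖ ∧
    ‖a.sum fun i t => t • x i‖ ≤ C * ‖a.sum fun i t => t • y i‖

/-- The sequence generates a `c_0` spreading model: for some `C ≥ 1` and all `F` in `S_1` the
family `(x_i)` with `i` in `F` is `C`-equivalent to the unit vector basis of `ℝ^F` with the
maximum norm (the norm `‖a‖` of `a : F → ℝ` below is the maximum of the `|a i|`). -/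
def GeneratesC0 {E : Type} [NormedAddCommGroup E] [NormedSpace ℝ E] (x : ℕ+ → E) : Prop :=
  ∃ C : ℝ, 1 ≤ C ∧ ∀ F ∈ Schreier 1, ∀ a : F → ℝ,
    C⁻¹ * ‖a‖ ≤ ‖∑ i : F, a i • x i‖ ∧ ‖∑ i : F, a i • x i‖ ≤ C * ‖a‖

end Pool.Agent.Helper37.Asym
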