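import Pool.Agent.Helper37.Asym.Key
import Pool.Agent.Helper37.Asym.Space

/-!
The sequence, and its `c_0` spreading model.
-/

namespace Pool.Agent.Helper37.Asym

open Finset

/-- The positions `2^(3^N)`. -/
def P (N : ℕ) : ℕ+ := ⟨2 ^ (3 ^ N), by positivity⟩

theorem P_coe (N : ℕ) : (P N : ℕ) = 2 ^ (3 ^ N) := rfl

theorem P_succ (N : ℕ) : (P (N + 1) : ℕ) = (P N : ℕ) ^ 3 := by
  rw [P_coe, P_coe, ← pow_mul, pow_succ]

theorem two_le_P (N : ℕ) : 2 ≤ (P N : ℕ) := by
  rw [P_coe]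
  calc 2 = 2 ^ 1 := by norm_num
    _ ≤ 2 ^ (3 ^ N) := Nat.pow_le_pow_right (by norm_num) (Nat.one_le_pow _ _ (by norm_num))

theorem P_sq_lt (N : ℕ) : (P N : ℕ) ^ 2 < (P (N + 1) : ℕ) := by
  rw [P_succ]
  exact Nat.pow_lt_pow_right (two_le_P N) (by norm_num)

theorem P_strictMono : StrictMono P := by
  refine strictMono_nat_of_lt_succ fun N => ?_
  have h1 := P_sq_lt N
  have h2 := two_le_P N
  have : (P N : ℕ) < (P (N + 1) : ℕ) := by nlinarith
  exact_mod_cast this

theorem le_P (N : ℕ) : N < (P N : ℕ) := by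
  rw [P_coe]
  calc N < 3 ^ N := Nat.lt_pow_self (by norm_num)
    _ < 2 ^ (3 ^ N) := Nat.lt_pow_self (by norm_num)

theorem P_mono_coe {M N : ℕ} (h : M ≤ N) : (P M : ℕ) ≤ (P N : ℕ) := by
  exact_mod_cast P_strictMono.monotone h

/-- The vector `x_u = ∑_{i<u} 2^{-(i+1)} e_{P(u²+i)}`. -/
noncomputable def xv (u : ℕ) : Vec :=
  ∑ i ∈ range u, ((1 : ℝ) / 2) ^ (i + 1) • Finsupp.single (P (u ^ 2 + i)) (1 : ℝ)

theorem pair_xv (φ : Vec) (u : ℕ) :
    pair φ (xv u) = ∑ i ∈ range u, ((1 : ℝ) / 2) ^ (i + 1) * φ (P (u ^ 2 + i)) := by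
  rw [xv, pair_sum_right]
  refine sum_congr rfl fun i _ => ?_
  rw [pair_smul_right, pair_single_right, one_mul]

theorem xv_apply (u : ℕ) (p : ℕ+) :
    xv u p = ∑ i ∈ range u, ((1 : ℝ) / 2) ^ (i + 1) * (if P (u ^ 2 + i) = p then 1 else 0) := by
  rw [xv, Finsupp.finsetSum_apply]
  refine sum_congr rfl fun i _ => ?_
  rw [Finsupp.smul_apply, Finsupp.single_apply, smul_eq_mul]

theorem xv_nonneg (u : ℕ) (p : ℕ+) : 0 ≤ xv u p := by
  rw [xv_apply]
  refine sum_nonneg fun i _ => mul_nonneg (by positivity) ?_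
  split_ifs <;> norm_num

theorem single_le_xv {u i : ℕ} (h : i < u) (p : ℕ+) :
    (((1 : ℝ) / 2) ^ (i + 1) • Finsupp.single (P (u ^ 2 + i)) (1 : ℝ)) p ≤ xv u p := by
  rw [xv_apply, Finsupp.smul_apply, Finsupp.single_apply, smul_eq_mul]
  refine single_le_sum (f := fun i => ((1 : ℝ) / 2) ^ (i + 1) *
    (if P (u ^ 2 + i) = p then (1 : ℝ) else 0)) (fun j _ => ?_) (mem_range.2 h)
  refine mul_nonneg (by positivity) ?_
  split_ifs <;> norm_num

theorem sq_add_inj {u v i j : ℕ} (hi : i < u) (hj : j < v) (h : u ^ 2 + i = v ^ 2 + j) :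
    u = v ∧ i = j := by
  rcases lt_trichotomy u v with h1 | h1 | h1
  · exfalso; nlinarith
  · subst h1; exact ⟨rfl, by omega⟩
  · exfalso; nlinarith

theorem sum_xv_bound {n : ℕ} {φ : Vec} (hφ : Wr n none φ) {F : Finset ℕ+} (hF : F ∈ Schreier 1) :
    ∑ k ∈ F, pair φ (xv k) ≤ 2 := by
  classical
  obtain ⟨hne, hcard⟩ := hF
  have hc1 : 1 ≤ F.card := hne.card_pos
  set N := F.sup (fun k => (k : ℕ)) with hN
  have hkN : ∀ k ∈ F, (k : ℕ) ≤ N := fun k hk => le_sup (f := fun k : ℕ+ => (k : ℕ)) hk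
  have h1 : ∀ k ∈ F, pair φ (xv k) = ∑ i ∈ range N,
      (if i < (k : ℕ) then ((1 : ℝ) / 2) ^ (i + 1) * φ (P ((k : ℕ) ^ 2 + i)) else 0) := by
    intro k hk
    rw [pair_xv, ← sum_filter]
    refine sum_congr ?_ fun _ _ => rfl
    ext i
    rw [mem_filter, mem_range, mem_range]
    have := hkN k hk
    omega
  rw [sum_congr rfl h1, sum_comm]
  have h2 : ∀ i ∈ range N, ∑ k ∈ F, (if i < (k : ℕ) then
      ((1 : ℝ) / 2) ^ (i + 1) * φ (P ((k : ℕ) ^ 2 + i)) else 0) ≤ ((1 : ℝ) / 2) ^ (i + 1) * 2 := by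
    intro i _
    rw [← sum_filter, ← mul_sum]
    refine mul_le_mul_of_nonneg_left ?_ (by positivity)
    set F' := F.filter (fun k : ℕ+ => i < (k : ℕ)) with hF'
    have hinj : Set.InjOn (fun k : ℕ+ => P ((k : ℕ) ^ 2 + i)) F' := by
      intro k hk l hl hkl
      have hk' := (mem_filter.1 (mem_coe.1 hk)).2
      have hl' := (mem_filter.1 (mem_coe.1 hl)).2
      have := sq_add_inj hk' hl' (P_strictMono.injective hkl)
      exact_mod_cast this.1
    have h3 : ∑ k ∈ F', φ (P ((k : ℕ) ^ 2 + i)) =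
        ∑ g ∈ F'.image (fun k : ℕ+ => P ((k : ℕ) ^ 2 + i)), φ g := by
      rw [sum_image hinj]
    rw [h3]
    have h4 := flat_bound (n := n) (m := (F.card : ℝ)) (by exact_mod_cast hc1) φ hφ
      (F'.image (fun k : ℕ+ => P ((k : ℕ) ^ 2 + i))) ?_
    · refine h4.trans ?_
      have h5 : ((F'.image (fun k : ℕ+ => P ((k : ℕ) ^ 2 + i))).card : ℝ) ≤ F.card := by
        exact_mod_cast card_image_le.trans (card_le_card (filter_subset _ _))
      have h6 : ((F'.image (fun k : ℕ+ => P ((k : ℕ) ^ 2 + i))).card : ℝ) / F.card ≤ 1 := by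
        rw [div_le_one (by exact_mod_cast hc1)]
        exact h5
      linarith
    · intro g hg
      obtain ⟨k, hk, rfl⟩ := mem_image.1 hg
      have hkF := (mem_filter.1 hk).1
      have h7 := hcard k hkF
      have h8 := le_P ((k : ℕ) ^ 2 + i)
      have h9 : (k : ℕ) ≤ (k : ℕ) ^ 2 := by nlinarith [k.2]
      exact_mod_cast (by omega : F.card ≤ (P ((k : ℕ) ^ 2 + i) : ℕ))
  refine (sum_le_sum h2).trans ?_
  rw [← sum_mul]
  have := geom_half N
  linarith

/-- The sequence in the Banach space. -/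
noncomputable def xs (n : ℕ) (k : ℕ+) : X n := emb n (xv k)

theorem xs_generates (n : ℕ) : GeneratesC0 (xs n) := by
  classical
  refine ⟨2, by norm_num, fun F hF a => ?_⟩
  have hsum : ∑ i : F, a i • xs n i = emb n (∑ i : F, a i • xv ((i : ℕ+) : ℕ)) := by
    rw [map_sum]
    exact sum_congr rfl fun i _ => by rw [map_smul]; rfl
  rw [hsum, norm_emb]
  refine ⟨?_, ?_⟩
  · -- lower bound
    have hle : ‖a‖ ≤ 2 * nrm n (∑ i : F, a i • xv ((i : ℕ+) : ℕ)) := by
      rw [pi_norm_le_iff_of_nonneg (by have := nrm_nonneg n (∑ i : F, a i • xv ((i : ℕ+) : ℕ)); linarith)]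
      intro k
      have h1 := abs_coord_le_nrm n (∑ i : F, a i • xv ((i : ℕ+) : ℕ)) (P (((k : ℕ+) : ℕ) ^ 2 + 0))
      have h2 : (∑ i : F, a i • xv ((i : ℕ+) : ℕ)) (P (((k : ℕ+) : ℕ) ^ 2 + 0)) = a k * (1 / 2) := by
        rw [Finsupp.finsetSum_apply, sum_eq_single k]
        · rw [Finsupp.smul_apply, smul_eq_mul, xv_apply, sum_eq_single 0]
          · simp
          · intro j _ hj
            rw [if_neg, mul_zero]
            intro h
            have := P_strictMono.injective h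
            omega
          · intro h
            exact absurd (mem_range.2 (k : ℕ+).2) h
        · intro l _ hl
          rw [Finsupp.smul_apply, smul_eq_mul, xv_apply, sum_eq_zero, mul_zero]
          intro j hj
          rw [if_neg, mul_zero]
          intro h
          have h3 := sq_add_inj (mem_range.1 hj) (k : ℕ+).2 (P_strictMono.injective h)
          apply hl
          apply Subtype.ext
          exact PNat.eq h3.1
        · intro h; exact absurd (mem_univ k) h
      rw [h2, abs_mul, abs_of_pos (by norm_num : (0 : ℝ) < 1 / 2)] at h1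
      rw [Real.norm_eq_abs]
      linarith
    linarith
  · refine nrm_le fun f hf => ?_
    rw [pair_sum_right]
    have hφ := W_relaxed hf
    have h1 : ∀ i : F, pair f (a i • xv ((i : ℕ+) : ℕ)) ≤
        ‖a‖ * pair (absV f) (xv ((i : ℕ+) : ℕ)) := by
      intro i
      rw [pair_smul_right]
      have h2 : |pair f (xv ((i : ℕ+) : ℕ))| ≤ pair (absV f) (xv ((i : ℕ+) : ℕ)) := by
        rw [abs_le']
        refine ⟨pair_le_absV (xv_nonneg _), ?_⟩
        rw [← pair_neg_left]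
        exact pair_le_pair_left (fun p => by
          rw [absV_apply, Finsupp.neg_apply]; exact neg_le_abs _) (xv_nonneg _)
      calc a i * pair f (xv ((i : ℕ+) : ℕ)) ≤ |a i * pair f (xv ((i : ℕ+) : ℕ))| := le_abs_self _
        _ = |a i| * |pair f (xv ((i : ℕ+) : ℕ))| := abs_mul _ _
        _ ≤ ‖a‖ * pair (absV f) (xv ((i : ℕ+) : ℕ)) := by
            refine mul_le_mul ?_ h2 (abs_nonneg _) (norm_nonneg _)
            have := norm_le_pi_norm a i
            rwa [Real.norm_eq_abs] at this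
    refine (sum_le_sum fun i _ => h1 i).trans ?_
    rw [← mul_sum]
    have h3 : ∑ i : F, pair (absV f) (xv ((i : ℕ+) : ℕ)) = ∑ k ∈ F, pair (absV f) (xv k) :=
      sum_coe_sort F (fun k : ℕ+ => pair (absV f) (xv (k : ℕ)))
    rw [h3]
    have h4 := mul_le_mul_of_nonneg_left (sum_xv_bound hφ hF) (norm_nonneg a)
    linarith

end Pool.Agent.Helper37.Asym
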