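import Pool.Agent.Helper37.Asym.Estimates

/-!
The norm of a group of successive vectors, and of a node.
-/

namespace Pool.Agent.Helper37.Asym

open Finset

/-- Norm of a group of very sparse successive vectors. -/
theorem group_bound {n L : ℕ} {y : ℕ → Vec} {m z : ℕ → ℝ} {B K : ℝ} (hB0 : 0 ≤ B) (hK : 0 ≤ K)
    (hy0 : ∀ r < L, ∀ i, 0 ≤ y r i)
    (hlo : ∀ r < L, ∀ p ∈ (y r).support, m r ≤ ((p : ℕ) : ℝ))
    (hhi : ∀ r < L, ∀ p ∈ (y r).support, ((p : ℕ) : ℝ) ≤ z r)
    (hm0 : 1 ≤ m 0) (hmz : ∀ r, m r ≤ z r) (hzm : ∀ r, (z r + 1) ^ 2 ≤ m (r + 1))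
    (hB : ∀ r < L, ∀ φ, Wr n none φ → pair φ (y r) ≤ B)
    (hFB : ∀ r < L, FB n n (y r) K (m r) (m r)) :
    ∀ φ, Wr n none φ → ∀ r, pair φ (∑ q ∈ Ico r L, y q) ≤ B + 16 * K * L / m r := by
  classical
  have hstep : ∀ r, m r ≤ m (r + 1) := by
    intro r
    have h1 := hmz r
    have h2 := hzm r
    nlinarith [sq_nonneg (z r)]
  have hmmono : Monotone m := monotone_nat_of_le_succ hstep
  have hm1 : ∀ r, 1 ≤ m r := fun r => hm0.trans (hmmono (Nat.zero_le r))
  have hzlt : ∀ r, z r < m (r + 1) := by
    intro r
    have h1 := hmz r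
    have h2 := hzm r
    have h3 := hm1 r
    nlinarith [sq_nonneg (z r)]
  have hzlt' : ∀ r q, r < q → z r < m q := fun r q h => (hzlt r).trans_le (hmmono h)
  have hdpos : ∀ r, 0 ≤ 16 * K * L / m r := by
    intro r
    have := hm1 r
    positivity
  -- the tail sums vanish past the end
  have hsplit : ∀ r, r < L → ∑ q ∈ Ico r L, y q = y r + ∑ q ∈ Ico (r + 1) L, y q := by
    intro r hr
    rw [sum_eq_sum_Ico_succ_bot hr]
  have hY0 : ∀ r i, 0 ≤ (∑ q ∈ Ico r L, y q) i := by
    intro r i
    rw [Finsupp.finsetSum_apply]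
    exact sum_nonneg fun q hq => hy0 q (mem_Ico.1 hq).2 i
  have hYlo : ∀ r, ∀ p ∈ (∑ q ∈ Ico r L, y q).support, m r ≤ ((p : ℕ) : ℝ) := by
    intro r p hp
    obtain ⟨u, hu, hpu⟩ := mem_biUnion.1 (Finsupp.support_finsetSum hp)
    exact (hmmono (mem_Ico.1 hu).1).trans (hlo u (mem_Ico.1 hu).2 p hpu)
  refine Wr.ind ?_ ?_ ?_
  · intro i r
    refine le_trans ?_ (le_add_of_nonneg_right (hdpos r))
    rw [pair_sum_right]
    by_cases h : ∃ q ∈ Ico r L, pair (Finsupp.single i 1) (y q) ≠ 0
    · obtain ⟨q, hq, hqne⟩ := h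
      rw [sum_eq_single q]
      · exact hB q (mem_Ico.1 hq).2 _ (Wr.unit i)
      · intro q' hq' hne
        by_contra hcon
        obtain ⟨p, hp1, hp2⟩ := exists_of_pair_ne_zero hqne
        obtain ⟨p', hp1', hp2'⟩ := exists_of_pair_ne_zero hcon
        have e1 : p = i := by
          have := Finsupp.support_single_subset hp1; simpa using this
        have e2 : p' = i := by
          have := Finsupp.support_single_subset hp1'; simpa using this
        subst e1; subst e2
        have a1 := hlo q (mem_Ico.1 hq).2 _ hp2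
        have a2 := hhi q (mem_Ico.1 hq).2 _ hp2
        have a3 := hlo q' (mem_Ico.1 hq').2 _ hp2'
        have a4 := hhi q' (mem_Ico.1 hq').2 _ hp2'
        rcases lt_or_gt_of_ne hne with h5 | h5
        · have := hzlt' _ _ h5; linarith
        · have := hzlt' _ _ h5; linarith
      · intro h'; exact absurd hq h'
    · push Not at h
      rw [sum_eq_zero h]; exact hB0
  · rintro ℓ α hα ⟨ι, _, T, f, h1, h2, h3, h4, rfl⟩ r
    have hl : (2 : ℝ) ≤ ℓ := by exact_mod_cast h1
    rw [pair_smul_left, pair_sum_left]
    have hX : 0 ≤ B + 16 * K * L / m r := add_nonneg hB0 (hdpos r)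
    calc (ℓ : ℝ)⁻¹ * ∑ t ∈ T, pair (f t) (∑ q ∈ Ico r L, y q)
        ≤ (ℓ : ℝ)⁻¹ * ∑ t ∈ T, (B + 16 * K * L / m r) := by
          refine mul_le_mul_of_nonneg_left ?_ (inv_nonneg.2 (by linarith))
          exact sum_le_sum fun t ht => (h3 t ht).2 r
      _ = (ℓ : ℝ)⁻¹ * (T.card * (B + 16 * K * L / m r)) := by rw [sum_const, nsmul_eq_mul]
      _ ≤ (ℓ : ℝ)⁻¹ * (ℓ * (B + 16 * K * L / m r)) := by
          refine mul_le_mul_of_nonneg_left ?_ (inv_nonneg.2 (by linarith))
          exact mul_le_mul_of_nonneg_right (by exact_mod_cast h2) hX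
      _ = B + 16 * K * L / m r := by
          have : (ℓ : ℝ) ≠ 0 := by linarith
          field_simp
  · intro ι _ I s α G hW hDec hP hbef hfast hG hmin
    have hφ : Wr n none (∑ i ∈ I, α i) := Wr.sch I s α G hW hbef hfast hG hmin
    have hF : Fam n I s α := ⟨hW, hbef, hfast⟩
    -- inner induction
    have inner : ∀ k r, L - r = k → pair (∑ i ∈ I, α i) (∑ q ∈ Ico r L, y q) ≤
        B + 16 * K * L / m r := by
      intro k
      induction k with
      | zero =>
        intro r hr
        have : Ico r L = ∅ := Ico_eq_empty (by omega)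
        rw [this, sum_empty, pair_zero_right]
        exact add_nonneg hB0 (hdpos r)
      | succ k ih =>
        intro r hr
        have hrL : r < L := by omega
        have hIH := ih (r + 1) (by omega)
        have hmr := hm1 r
        have hmr1 := hm1 (r + 1)
        have hdle : 16 * K * L / m (r + 1) ≤ 16 * K * L / m r :=
          div_le_div_of_nonneg_left (by positivity) (by linarith) (hstep r)
        by_cases h0 : pair (∑ i ∈ I, α i) (y r) = 0
        · rw [hsplit r hrL, pair_add_right, h0, zero_add]
          linarith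
        -- the first average which touches `y r`
        set J := I.filter (fun i => pair (α i) (y r) ≠ 0) with hJ
        have hJne : J.Nonempty := by
          rw [pair_sum_left] at h0
          obtain ⟨i, hi, hi2⟩ := exists_ne_zero_of_sum_ne_zero h0
          exact ⟨i, mem_filter.2 ⟨hi, hi2⟩⟩
        set i0 := J.min' hJne with hi0
        have hi0J : i0 ∈ J := J.min'_mem hJne
        obtain ⟨hi0I, hi0ne⟩ := mem_filter.1 hi0J
        obtain ⟨a, ha1, ha2⟩ := exists_of_pair_ne_zero hi0ne
        have halo := hlo r hrL a ha2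
        have hahi := hhi r hrL a ha2
        have hprev : ∀ i ∈ I, i < i0 → pair (α i) (∑ q ∈ Ico r L, y q) = 0 := by
          intro i hi hlt
          rw [hsplit r hrL, pair_add_right]
          have e1 : pair (α i) (y r) = 0 := by
            by_contra hcon
            exact absurd (J.min'_le i (mem_filter.2 ⟨hi, hcon⟩)) (not_le.2 hlt)
          have e2 : pair (α i) (∑ q ∈ Ico (r + 1) L, y q) = 0 := by
            refine pair_eq_zero fun p hp hp' => ?_
            have e3 := hbef i hi i0 hi0I hlt p hp a ha1
            have e4 := hYlo (r + 1) p hp'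
            have e5 : ((p : ℕ) : ℝ) < ((a : ℕ) : ℝ) := by exact_mod_cast e3
            have e6 := hzlt r
            linarith
          rw [e1, e2, add_zero]
        have hprev' : ∀ i ∈ I, i < i0 → pair (α i) (∑ q ∈ Ico (r + 1) L, y q) = 0 := by
          intro i hi hlt
          refine pair_eq_zero fun p hp hp' => ?_
          have e3 := hbef i hi i0 hi0I hlt p hp a ha1
          have e4 := hYlo (r + 1) p hp'
          have e5 : ((p : ℕ) : ℝ) < ((a : ℕ) : ℝ) := by exact_mod_cast e3
          have e6 := hzlt r
          linarith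
        -- the tail
        set I2 := I.filter (fun i => i0 < i) with hI2
        have hI2I : I2 ⊆ I := filter_subset _ _
        have htail : ∑ i ∈ I2, pair (α i) (∑ q ∈ Ico (r + 1) L, y q) ≤ 3 * K * L / m r := by
          have e1 : ∑ i ∈ I2, pair (α i) (∑ q ∈ Ico (r + 1) L, y q) =
              ∑ q ∈ Ico (r + 1) L, ∑ i ∈ I2, pair (α i) (y q) := by
            rw [sum_comm]
            exact sum_congr rfl fun i _ => pair_sum_right _ _ _
          rw [e1]
          have e2 : ∀ q ∈ Ico (r + 1) L, ∑ i ∈ I2, pair (α i) (y q) ≤ 3 * K / m r := by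
            intro q hq
            obtain ⟨hq1, hq2⟩ := mem_Ico.1 hq
            have hM : ∃ g ∈ G, ((g : ℕ) : ℝ) ≤ z r := by
              obtain ⟨g, hg, hg2⟩ := hmin i0 hi0I
              refine ⟨g, hg, ?_⟩
              have h1 : g ≤ a := hg2.2 ha1
              have h2 : ((g : ℕ) : ℝ) ≤ ((a : ℕ) : ℝ) := by exact_mod_cast h1
              linarith
            have hS : ∀ i ∈ I2, m r ≤ s i := by
              intro i hi
              obtain ⟨hi1, hi2⟩ := mem_filter.1 hi
              have := hfast i0 hi0I i hi1 hi2 a ha1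
              have h2 : ((a : ℕ) : ℝ) < s i := by exact_mod_cast this
              linarith
            have e3 := hFB q hq2 ι inferInstance I2 s α G (z r) (m r) (hF.mono hI2I) hG
              (MinIn.mono hmin hI2I) hM (by linarith) hS
            refine e3.trans ?_
            have hzr : 1 ≤ z r := hmr.trans (hmz r)
            have hmq : m (r + 1) ≤ m q := hmmono hq1
            have hmqpos : 0 < m q := by linarith
            have e4 : z r / m q ≤ 1 / m r := by
              rw [div_le_div_iff₀ hmqpos (by linarith), one_mul]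
              have e5 := hzm r
              have e6 := hmz r
              nlinarith [sq_nonneg (z r)]
            calc K * (1 / m r + z r / m q + z r / m q) ≤ K * (1 / m r + 1 / m r + 1 / m r) :=
                  mul_le_mul_of_nonneg_left (by linarith) hK
              _ = 3 * K / m r := by ring
          calc ∑ q ∈ Ico (r + 1) L, ∑ i ∈ I2, pair (α i) (y q)
              ≤ ∑ q ∈ Ico (r + 1) L, 3 * K / m r := sum_le_sum e2
            _ = ((L - (r + 1) : ℕ) : ℝ) * (3 * K / m r) := by simp
            _ ≤ (L : ℝ) * (3 * K / m r) := by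
                refine mul_le_mul_of_nonneg_right ?_ (by positivity)
                exact_mod_cast (by omega : L - (r + 1) ≤ L)
            _ = 3 * K * L / m r := by ring
        have hsplitI : ∀ g : ι → ℝ, (∀ i ∈ I, i < i0 → g i = 0) →
            ∑ i ∈ I, g i = g i0 + ∑ i ∈ I2, g i := by
          intro g hg
          have e1 : ∑ i ∈ I, g i = ∑ i ∈ insert i0 I2, g i := by
            symm
            refine sum_subset ?_ ?_
            · intro i hi
              rcases mem_insert.1 hi with h | h
              · rw [h]; exact hi0I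
              · exact hI2I h
            · intro i hi hni
              apply hg i hi
              by_contra hcon
              push Not at hcon
              apply hni
              rcases eq_or_lt_of_le hcon with h | h
              · rw [h]; exact mem_insert_self _ _
              · exact mem_insert_of_mem (mem_filter.2 ⟨hi, h⟩)
          rw [e1, sum_insert]
          intro h
          exact lt_irrefl _ (mem_filter.1 h).2
        have h3le : 3 * K * L / m r ≤ 16 * K * L / m r := by
          refine div_le_div_of_nonneg_right ?_ (by linarith)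
          have : 0 ≤ K * L := by positivity
          linarith
        by_cases hcase : pair (α i0) (∑ q ∈ Ico (r + 1) L, y q) = 0
        · -- the average touches only `y r`
          rw [hsplit r hrL, pair_add_right]
          have e1 : pair (∑ i ∈ I, α i) (∑ q ∈ Ico (r + 1) L, y q) =
              ∑ i ∈ I2, pair (α i) (∑ q ∈ Ico (r + 1) L, y q) := by
            rw [pair_sum_left, hsplitI _ hprev', hcase, zero_add]
          rw [e1]
          have e2 := hB r hrL _ hφ
          linarith
        · -- the average touches later vectors too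
          obtain ⟨b, hb1, hb2⟩ := exists_of_pair_ne_zero hcase
          have hblo := hYlo (r + 1) b hb2
          have e1 : pair (∑ i ∈ I, α i) (∑ q ∈ Ico r L, y q) =
              pair (α i0) (∑ q ∈ Ico r L, y q) +
                ∑ i ∈ I2, pair (α i) (∑ q ∈ Ico (r + 1) L, y q) := by
            rw [pair_sum_left, hsplitI _ hprev]
            congr 1
            refine sum_congr rfl fun i hi => ?_
            obtain ⟨hi1, hi2⟩ := mem_filter.1 hi
            rw [hsplit r hrL, pair_add_right]
            have : pair (α i) (y r) = 0 := by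
              refine pair_eq_zero fun p hp hp' => ?_
              have e3 := hbef i0 hi0I i hi1 hi2 b hb1 p hp
              have e4 := hhi r hrL p hp'
              have e5 : ((b : ℕ) : ℝ) < ((p : ℕ) : ℝ) := by exact_mod_cast e3
              have e6 := hzlt r
              linarith
            rw [this, zero_add]
          rw [e1]
          obtain ⟨κ, _, T, f, h1, h2, h3, h4, h5⟩ := hDec i0 hi0I
          have hs2 : (2 : ℝ) ≤ s i0 := by exact_mod_cast h1
          have hspos : (0 : ℝ) < s i0 := by linarith
          set T1 := T.filter (fun t => pair (f t) (y r) ≠ 0) with hT1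
          have hT1ne : T1.Nonempty := by
            have e7 := hi0ne
            rw [h5, pair_smul_left, pair_sum_left] at e7
            obtain ⟨t, ht, ht2⟩ := exists_ne_zero_of_sum_ne_zero (right_ne_zero_of_mul e7)
            exact ⟨t, mem_filter.2 ⟨ht, ht2⟩⟩
          set t0 := T1.max' hT1ne with ht0
          obtain ⟨ht0T, ht0ne⟩ := mem_filter.1 (T1.max'_mem hT1ne)
          obtain ⟨c, hc1, hc2⟩ := exists_of_pair_ne_zero ht0ne
          have hchi := hhi r hrL c hc2
          have hdr1 := hdpos (r + 1)
          have hdr := hdpos r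
          have hft : ∀ t ∈ T, pair (f t) (∑ q ∈ Ico r L, y q) ≤
              (B + 16 * K * L / m (r + 1)) + (if t = t0 then 16 * K * L / m r else 0) := by
            intro t ht
            rcases lt_trichotomy t t0 with h | h | h
            · rw [if_neg h.ne, hsplit r hrL, pair_add_right]
              have e8 : pair (f t) (∑ q ∈ Ico (r + 1) L, y q) = 0 := by
                refine pair_eq_zero fun p hp hp' => ?_
                have e3 := h4 t ht t0 ht0T h p hp c hc1
                have e4 := hYlo (r + 1) p hp'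
                have e5 : ((p : ℕ) : ℝ) < ((c : ℕ) : ℝ) := by exact_mod_cast e3
                have e6 := hzlt r
                linarith
              have e9 := hB r hrL _ (h3 t ht).1
              rw [e8]; linarith
            · rw [if_pos h]
              have := (h3 t ht).2 r
              linarith
            · rw [if_neg h.ne', hsplit r hrL, pair_add_right]
              have e8 : pair (f t) (y r) = 0 := by
                by_contra hcon
                exact absurd (T1.le_max' t (mem_filter.2 ⟨ht, hcon⟩)) (not_le.2 h)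
              have := (h3 t ht).2 (r + 1)
              rw [e8]; linarith
          have hα : pair (α i0) (∑ q ∈ Ico r L, y q) ≤
              B + 16 * K * L / m (r + 1) + (16 * K * L / m r) / 2 := by
            rw [h5, pair_smul_left, pair_sum_left]
            calc (s i0 : ℝ)⁻¹ * ∑ t ∈ T, pair (f t) (∑ q ∈ Ico r L, y q)
                ≤ (s i0 : ℝ)⁻¹ * ∑ t ∈ T, ((B + 16 * K * L / m (r + 1)) +
                    (if t = t0 then 16 * K * L / m r else 0)) :=
                  mul_le_mul_of_nonneg_left (sum_le_sum hft) (inv_nonneg.2 hspos.le)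
              _ = (s i0 : ℝ)⁻¹ * (T.card * (B + 16 * K * L / m (r + 1)) + 16 * K * L / m r) := by
                  rw [sum_add_distrib, sum_const, nsmul_eq_mul, sum_ite_eq', if_pos ht0T]
              _ ≤ (s i0 : ℝ)⁻¹ * (s i0 * (B + 16 * K * L / m (r + 1)) + 16 * K * L / m r) := by
                  refine mul_le_mul_of_nonneg_left ?_ (inv_nonneg.2 hspos.le)
                  have : (T.card : ℝ) ≤ s i0 := by exact_mod_cast h2
                  have := mul_le_mul_of_nonneg_right this (add_nonneg hB0 hdr1)
                  linarith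
              _ = B + 16 * K * L / m (r + 1) + (s i0 : ℝ)⁻¹ * (16 * K * L / m r) := by
                  field_simp
              _ ≤ B + 16 * K * L / m (r + 1) + (16 * K * L / m r) / 2 := by
                  have e10 : (s i0 : ℝ)⁻¹ ≤ 1 / 2 := by
                    rw [one_div]
                    exact inv_anti₀ (by norm_num) hs2
                  have := mul_le_mul_of_nonneg_right e10 hdr
                  linarith
          have e11 : 16 * K * L / m (r + 1) ≤ 4 * K * L / m r := by
            have e12 : 4 * m r ≤ m (r + 1) := by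
              have := hzm r
              have := hmz r
              nlinarith [sq_nonneg (z r - 1)]
            rw [div_le_div_iff₀ (by linarith) (by linarith)]
            have : 0 ≤ K * L := by positivity
            nlinarith
          have e13 : 16 * K * L / m r = 4 * K * L / m r + (16 * K * L / m r) / 2 +
              3 * K * L / m r + K * L / m r := by ring
          have e14 : 0 ≤ K * L / m r := by positivity
          linarith
    exact fun r => inner _ r rfl

/-- Norm of a node whose tail is not seen by the averages that start at its root. -/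
theorem node_bound {n : ℕ} {q : ℕ+} {C : Vec} {B ε : ℝ} (hB0 : 0 ≤ B) (hε : 0 ≤ ε)
    (hlo : ∀ p ∈ C.support, q < p)
    (hB : ∀ φ, Wr n none φ → pair φ C ≤ B)
    (htail : ∀ (ι : Type) (_ : LinearOrder ι) (I : Finset ι) (s : ι → ℕ) (α : ι → Vec)
      (G : Finset ℕ+), Fam n I s α → G ∈ Schreier n → MinIn I α G →
      (∃ g ∈ G, ((g : ℕ) : ℝ) ≤ ((q : ℕ) : ℝ)) → (∀ i ∈ I, ((q : ℕ) : ℝ) ≤ s i) →
      ∑ i ∈ I, pair (α i) C ≤ ε) :
    ∀ φ, Wr n none φ → pair φ (Finsupp.single q 1 + C) ≤ max 1 (B + 2 * ε) := by
  classical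
  set X := max 1 (B + 2 * ε) with hX
  have hX1 : 1 ≤ X := le_max_left _ _
  have hX2 : B + 2 * ε ≤ X := le_max_right _ _
  have hCq : C q = 0 := by
    by_contra h
    exact lt_irrefl q (hlo q (Finsupp.mem_support_iff.2 h))
  have hnot : ∀ φ : Vec, Wr n none φ → φ q = 0 →
      pair φ (Finsupp.single q 1 + C) ≤ B := by
    intro φ hφ h0
    rw [pair_add_right, pair_single_right, h0, mul_zero, zero_add]
    exact hB φ hφ
  refine Wr.ind ?_ ?_ ?_
  · intro i
    by_cases h : i = q
    · subst h
      rw [pair_single_left]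
      simp [hCq, hX1]
    · have := hnot _ (Wr.unit i) (by rw [Finsupp.single_apply, if_neg h])
      linarith
  · rintro ℓ α hα ⟨ι, _, T, f, h1, h2, h3, h4, rfl⟩
    have hl : (2 : ℝ) ≤ ℓ := by exact_mod_cast h1
    rw [pair_smul_left, pair_sum_left]
    calc (ℓ : ℝ)⁻¹ * ∑ t ∈ T, pair (f t) (Finsupp.single q 1 + C)
        ≤ (ℓ : ℝ)⁻¹ * ∑ t ∈ T, X := by
          refine mul_le_mul_of_nonneg_left ?_ (inv_nonneg.2 (by linarith))
          exact sum_le_sum fun t ht => (h3 t ht).2
      _ = (ℓ : ℝ)⁻¹ * (T.card * X) := by rw [sum_const, nsmul_eq_mul]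
      _ ≤ (ℓ : ℝ)⁻¹ * (ℓ * X) := by
          refine mul_le_mul_of_nonneg_left ?_ (inv_nonneg.2 (by linarith))
          exact mul_le_mul_of_nonneg_right (by exact_mod_cast h2) (by linarith)
      _ = X := by
          have : (ℓ : ℝ) ≠ 0 := by linarith
          field_simp
  · intro ι _ I s α G hW hDec hP hbef hfast hG hmin
    have hφ : Wr n none (∑ i ∈ I, α i) := Wr.sch I s α G hW hbef hfast hG hmin
    have hF : Fam n I s α := ⟨hW, hbef, hfast⟩
    by_cases h0 : (∑ i ∈ I, α i) q = 0
    · have := hnot _ hφ h0
      linarith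
    rw [Finsupp.finsetSum_apply] at h0
    obtain ⟨i0, hi0, hi0q⟩ := exists_ne_zero_of_sum_ne_zero h0
    have hq0 : q ∈ (α i0).support := Finsupp.mem_support_iff.2 hi0q
    set I2 := I.filter (fun i => i0 < i) with hI2
    have hI2I : I2 ⊆ I := filter_subset _ _
    have hprev : ∀ i ∈ I, i < i0 → pair (α i) (Finsupp.single q 1 + C) = 0 := by
      intro i hi hlt
      refine pair_eq_zero fun p hp hp' => ?_
      have e1 := hbef i hi i0 hi0 hlt p hp q hq0
      rcases mem_union.1 (Finsupp.support_add hp') with h | h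
      · have := Finsupp.support_single_subset h
        rw [mem_singleton] at this
        exact absurd this e1.ne
      · exact lt_asymm e1 (hlo p h)
    have hsplitI : ∑ i ∈ I, pair (α i) (Finsupp.single q 1 + C) =
        pair (α i0) (Finsupp.single q 1 + C) +
          ∑ i ∈ I2, pair (α i) (Finsupp.single q 1 + C) := by
      have e1 : ∑ i ∈ I, pair (α i) (Finsupp.single q 1 + C) =
          ∑ i ∈ insert i0 I2, pair (α i) (Finsupp.single q 1 + C) := by
        symm
        refine sum_subset ?_ ?_
        · intro i hi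
          rcases mem_insert.1 hi with h | h
          · rw [h]; exact hi0
          · exact hI2I h
        · intro i hi hni
          apply hprev i hi
          by_contra hcon
          push Not at hcon
          apply hni
          rcases eq_or_lt_of_le hcon with h | h
          · rw [h]; exact mem_insert_self _ _
          · exact mem_insert_of_mem (mem_filter.2 ⟨hi, h⟩)
      rw [e1, sum_insert]
      intro h
      exact lt_irrefl _ (mem_filter.1 h).2
    rw [pair_sum_left, hsplitI]
    have htl : ∑ i ∈ I2, pair (α i) (Finsupp.single q 1 + C) ≤ ε := by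
      have e1 : ∑ i ∈ I2, pair (α i) (Finsupp.single q 1 + C) = ∑ i ∈ I2, pair (α i) C := by
        refine sum_congr rfl fun i hi => ?_
        obtain ⟨hi1, hi2⟩ := mem_filter.1 hi
        have : α i q = 0 := by
          by_contra hcon
          exact lt_irrefl _ (hbef i0 hi0 i hi1 hi2 q hq0 q (Finsupp.mem_support_iff.2 hcon))
        rw [pair_add_right, pair_single_right, this, mul_zero, zero_add]
      rw [e1]
      refine htail ι inferInstance I2 s α G (hF.mono hI2I) hG (MinIn.mono hmin hI2I) ?_ ?_
      · obtain ⟨g, hg, hg2⟩ := hmin i0 hi0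
        refine ⟨g, hg, ?_⟩
        have h1 : g ≤ q := hg2.2 hq0
        exact_mod_cast h1
      · intro i hi
        obtain ⟨hi1, hi2⟩ := mem_filter.1 hi
        exact_mod_cast (hfast i0 hi0 i hi1 hi2 q hq0).le
    obtain ⟨κ, _, T, f, h1, h2, h3, h4, h5⟩ := hDec i0 hi0
    have hs2 : (2 : ℝ) ≤ s i0 := by exact_mod_cast h1
    have hspos : (0 : ℝ) < s i0 := by linarith
    have hT0 : ∃ t0 ∈ T, f t0 q ≠ 0 := by
      have e7 := hi0q
      rw [h5] at e7
      have e8 : ((s i0 : ℝ)⁻¹ • ∑ t ∈ T, f t) q = (s i0 : ℝ)⁻¹ * ∑ t ∈ T, f t q := by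
        rw [Finsupp.smul_apply, Finsupp.finsetSum_apply]; rfl
      rw [e8] at e7
      exact exists_ne_zero_of_sum_ne_zero (right_ne_zero_of_mul e7)
    obtain ⟨t0, ht0, ht0q⟩ := hT0
    have hBX : B ≤ X := by linarith
    have hft : ∀ t ∈ T, pair (f t) (Finsupp.single q 1 + C) ≤
        B + (if t = t0 then X - B else 0) := by
      intro t ht
      by_cases h : t = t0
      · rw [if_pos h]
        have := (h3 t ht).2
        linarith
      · rw [if_neg h, add_zero]
        refine hnot _ (h3 t ht).1 ?_
        have := disj_of_before h4 t0 ht0 t ht (Ne.symm h) q (Finsupp.mem_support_iff.2 ht0q)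
        exact Finsupp.notMem_support_iff.1 this
    have hα : pair (α i0) (Finsupp.single q 1 + C) ≤ B + (X - B) / 2 := by
      rw [h5, pair_smul_left, pair_sum_left]
      calc (s i0 : ℝ)⁻¹ * ∑ t ∈ T, pair (f t) (Finsupp.single q 1 + C)
          ≤ (s i0 : ℝ)⁻¹ * ∑ t ∈ T, (B + (if t = t0 then X - B else 0)) :=
            mul_le_mul_of_nonneg_left (sum_le_sum hft) (inv_nonneg.2 hspos.le)
        _ = (s i0 : ℝ)⁻¹ * (T.card * B + (X - B)) := by
            rw [sum_add_distrib, sum_const, nsmul_eq_mul, sum_ite_eq', if_pos ht0]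
        _ ≤ (s i0 : ℝ)⁻¹ * (s i0 * B + (X - B)) := by
            refine mul_le_mul_of_nonneg_left ?_ (inv_nonneg.2 hspos.le)
            have : (T.card : ℝ) ≤ s i0 := by exact_mod_cast h2
            have := mul_le_mul_of_nonneg_right this hB0
            linarith
        _ = B + (s i0 : ℝ)⁻¹ * (X - B) := by field_simp
        _ ≤ B + (X - B) / 2 := by
            have e10 : (s i0 : ℝ)⁻¹ ≤ 1 / 2 := by
              rw [one_div]
              exact inv_anti₀ (by norm_num) hs2
            have := mul_le_mul_of_nonneg_right e10 (sub_nonneg.2 hBX)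
            linarith
    linarith

/-- Family bound of a unit vector: at most `1 / S`. -/
theorem fam_single {n : ℕ} {ι : Type} [LinearOrder ι] {I : Finset ι} {s : ι → ℕ} {α : ι → Vec}
    (hF : Fam n I s α) (q : ℕ+) {S : ℝ} (hS : 0 < S) (hsS : ∀ i ∈ I, S ≤ s i) :
    ∑ i ∈ I, pair (α i) (Finsupp.single q 1) ≤ 1 / S := by
  classical
  have e : ∀ i, pair (α i) (Finsupp.single q 1) = α i q := fun i => by
    rw [pair_single_right, one_mul]
  simp only [e]
  by_cases h : ∃ i ∈ I, α i q ≠ 0
  · obtain ⟨i, hi, hiq⟩ := h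
    rw [sum_eq_single i]
    · refine ((hF.av i hi).le_inv q).trans ?_
      rw [one_div]
      exact inv_anti₀ hS (hsS i hi)
    · intro j hj hji
      have := disj_of_before hF.bef i hi j hj hji.symm q (Finsupp.mem_support_iff.2 hiq)
      exact Finsupp.notMem_support_iff.1 this
    · intro h'; exact absurd hi h'
  · push Not at h
    rw [sum_eq_zero h]
    positivity

/-- Flat vectors on sets `G'` with `m ≤ min G'`. -/
theorem flat_bound {n : ℕ} {m : ℝ} (hm : 1 ≤ m) :
    ∀ φ, Wr n none φ → ∀ G' : Finset ℕ+, (∀ g ∈ G', m ≤ ((g : ℕ) : ℝ)) →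
      ∑ g ∈ G', φ g ≤ 1 + G'.card / m := by
  classical
  have hm0 : 0 < m := by linarith
  refine Wr.ind ?_ ?_ ?_
  · intro i G' _
    have : ∑ g ∈ G', (Finsupp.single i (1 : ℝ)) g ≤ 1 := by
      simp only [Finsupp.single_apply]
      rw [sum_ite_eq]
      split_ifs <;> norm_num
    have h2 : 0 ≤ (G'.card : ℝ) / m := by positivity
    linarith
  · rintro ℓ α hα ⟨ι, _, T, f, h1, h2, h3, h4, rfl⟩ G' hG'
    have hl : (2 : ℝ) ≤ ℓ := by exact_mod_cast h1
    have hdisj : ∀ t ∈ T, ∀ u ∈ T, t ≠ u →
        Disjoint (G' ∩ (f t).support) (G' ∩ (f u).support) := by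
      intro t ht u hu htu
      rw [disjoint_left]
      intro p hp hp'
      exact disj_of_before h4 t ht u hu htu p (mem_inter.1 hp).2 (mem_inter.1 hp').2
    have hcard : ∑ t ∈ T, (G' ∩ (f t).support).card ≤ G'.card := by
      rw [← card_biUnion hdisj]
      exact card_le_card (biUnion_subset.2 fun t _ => inter_subset_left)
    have hft : ∀ t ∈ T, ∑ g ∈ G', f t g ≤ 1 + (G' ∩ (f t).support).card / m := by
      intro t ht
      have e1 : ∑ g ∈ G', f t g = ∑ g ∈ G' ∩ (f t).support, f t g := by
        symm
        refine sum_subset inter_subset_left ?_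
        intro g hg hg'
        by_contra hcon
        exact hg' (mem_inter.2 ⟨hg, Finsupp.mem_support_iff.2 hcon⟩)
      rw [e1]
      exact (h3 t ht).2 _ fun g hg => hG' g (mem_inter.1 hg).1
    have e2 : ∑ g ∈ G', ((ℓ : ℝ)⁻¹ • ∑ t ∈ T, f t) g = (ℓ : ℝ)⁻¹ * ∑ t ∈ T, ∑ g ∈ G', f t g := by
      rw [sum_comm, mul_sum]
      refine sum_congr rfl fun g _ => ?_
      rw [Finsupp.smul_apply, Finsupp.finsetSum_apply]; rfl
    rw [e2]
    have hlpos : (0 : ℝ) < ℓ := by linarith
    calc (ℓ : ℝ)⁻¹ * ∑ t ∈ T, ∑ g ∈ G', f t g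
        ≤ (ℓ : ℝ)⁻¹ * ∑ t ∈ T, (1 + ((G' ∩ (f t).support).card : ℝ) / m) :=
          mul_le_mul_of_nonneg_left (sum_le_sum hft) (inv_nonneg.2 hlpos.le)
      _ = (ℓ : ℝ)⁻¹ * (T.card + ((∑ t ∈ T, (G' ∩ (f t).support).card : ℕ) : ℝ) / m) := by
          rw [sum_add_distrib, sum_const, nsmul_eq_mul, mul_one, ← sum_div]
          push_cast
          ring
      _ ≤ (ℓ : ℝ)⁻¹ * (ℓ + (G'.card : ℝ) / m) := by
          refine mul_le_mul_of_nonneg_left ?_ (inv_nonneg.2 hlpos.le)
          have e3 : (T.card : ℝ) ≤ ℓ := by exact_mod_cast h2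
          have e4 : ((∑ t ∈ T, (G' ∩ (f t).support).card : ℕ) : ℝ) / m ≤ (G'.card : ℝ) / m :=
            div_le_div_of_nonneg_right (by exact_mod_cast hcard) hm0.le
          linarith
      _ = 1 + (ℓ : ℝ)⁻¹ * ((G'.card : ℝ) / m) := by field_simp
      _ ≤ 1 + G'.card / m := by
          have e5 : (ℓ : ℝ)⁻¹ ≤ 1 := inv_le_one_of_one_le₀ (by linarith)
          have e6 : 0 ≤ (G'.card : ℝ) / m := by positivity
          nlinarith
  · intro ι _ I s α G hW hDec hP hbef hfast hG hmin G' hG'
    by_cases hne : ∃ i ∈ I, (G' ∩ (α i).support).Nonempty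
    swap
    · push Not at hne
      have : ∑ g ∈ G', (∑ i ∈ I, α i) g = 0 := by
        refine sum_eq_zero fun g hg => ?_
        rw [Finsupp.finsetSum_apply]
        refine sum_eq_zero fun i hi => ?_
        by_contra hcon
        have h1 := hne i hi
        have h2 : g ∈ G' ∩ (α i).support := mem_inter.2 ⟨hg, Finsupp.mem_support_iff.2 hcon⟩
        rw [h1] at h2
        exact absurd h2 (notMem_empty g)
      rw [this]
      positivity
    set J := I.filter (fun i => (G' ∩ (α i).support).Nonempty) with hJ
    have hJne : J.Nonempty := by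
      obtain ⟨i, hi, hi2⟩ := hne
      exact ⟨i, mem_filter.2 ⟨hi, hi2⟩⟩
    set i0 := J.min' hJne with hi0
    obtain ⟨hi0I, g0, hg0⟩ := mem_filter.1 (J.min'_mem hJne)
    obtain ⟨hg0G, hg0s⟩ := mem_inter.1 hg0
    have hdisj : ∀ t ∈ I, ∀ u ∈ I, t ≠ u →
        Disjoint (G' ∩ (α t).support) (G' ∩ (α u).support) := by
      intro t ht u hu htu
      rw [disjoint_left]
      intro p hp hp'
      exact disj_of_before hbef t ht u hu htu p (mem_inter.1 hp).2 (mem_inter.1 hp').2
    have hcard : ∑ t ∈ I, (G' ∩ (α t).support).card ≤ G'.card := by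
      rw [← card_biUnion hdisj]
      exact card_le_card (biUnion_subset.2 fun t _ => inter_subset_left)
    have hrestr : ∀ i, ∑ g ∈ G', α i g = ∑ g ∈ G' ∩ (α i).support, α i g := by
      intro i
      symm
      refine sum_subset inter_subset_left ?_
      intro g hg hg'
      by_contra hcon
      exact hg' (mem_inter.2 ⟨hg, Finsupp.mem_support_iff.2 hcon⟩)
    have hbd : ∀ i ∈ I, ∑ g ∈ G', α i g ≤ (if i = i0 then 1 else 0) +
        ((G' ∩ (α i).support).card : ℝ) / m := by
      intro i hi
      by_cases h : i = i0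
      · rw [if_pos h, hrestr]
        exact hP i hi _ fun g hg => hG' g (mem_inter.1 hg).1
      · rw [if_neg h, zero_add, hrestr]
        rcases lt_or_gt_of_ne h with h1 | h1
        · have h2 : G' ∩ (α i).support = ∅ := by
            by_contra hcon
            rw [← ne_eq, ← nonempty_iff_ne_empty] at hcon
            exact absurd (J.min'_le i (mem_filter.2 ⟨hi, hcon⟩)) (not_le.2 h1)
          rw [h2]; simp
        · have h3 := hfast i0 hi0I i hi h1 g0 hg0s
          have h4 : m ≤ s i := by
            have := hG' g0 hg0G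
            have h5 : ((g0 : ℕ) : ℝ) < s i := by exact_mod_cast h3
            linarith
          calc ∑ g ∈ G' ∩ (α i).support, α i g ≤ ∑ g ∈ G' ∩ (α i).support, (1 / m) := by
                refine sum_le_sum fun g _ => ?_
                refine ((hW i hi).le_inv g).trans ?_
                rw [one_div]
                exact inv_anti₀ hm0 h4
            _ = ((G' ∩ (α i).support).card : ℝ) / m := by
                rw [sum_const, nsmul_eq_mul]; ring
    have e1 : ∑ g ∈ G', (∑ i ∈ I, α i) g = ∑ i ∈ I, ∑ g ∈ G', α i g := by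
      rw [sum_comm]
      exact sum_congr rfl fun g _ => Finsupp.finsetSum_apply _ _ _
    rw [e1]
    calc ∑ i ∈ I, ∑ g ∈ G', α i g
        ≤ ∑ i ∈ I, ((if i = i0 then 1 else 0) + ((G' ∩ (α i).support).card : ℝ) / m) :=
          sum_le_sum hbd
      _ = 1 + ((∑ t ∈ I, (G' ∩ (α t).support).card : ℕ) : ℝ) / m := by
          rw [sum_add_distrib, sum_ite_eq', if_pos hi0I, ← sum_div]
          push_cast
          ring
      _ ≤ 1 + G'.card / m := by
          have : ((∑ t ∈ I, (G' ∩ (α t).support).card : ℕ) : ℝ) / m ≤ (G'.card : ℝ) / m :=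
            div_le_div_of_nonneg_right (by exact_mod_cast hcard) hm0.le
          linarith

end Pool.Agent.Helper37.Asym
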