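import Pool.Agent.Helper37.Asym.Trees

/-!
Groups, nodes and the key lemma.
-/

namespace Pool.Agent.Helper37.Asym

open Finset

variable {n : ℕ} {lo hi dd : ℕ → ℕ} {D : ℕ} {η : ℝ}

theorem Reg.sum {ι : Type*} {π : ℕ → ℕ+} {a b : ℕ} {I : Finset ι} {f : ι → Vec}
    (h : ∀ i ∈ I, Reg π a b (f i)) : Reg π a b (∑ i ∈ I, f i) := by
  classical
  intro p hp
  obtain ⟨i, hi, hpi⟩ := mem_biUnion.1 (Finsupp.support_finsetSum hp)
  exact h i hi p hpi

theorem Reg.smul {π : ℕ → ℕ+} {a b : ℕ} {x : Vec} (h : Reg π a b x) (c : ℝ) :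
    Reg π a b (c • x) := fun p hp => h p (Finsupp.support_smul hp)

theorem grp_of_trees (hS : Scale lo hi dd) {K : ℝ} (hK : 0 ≤ K) (hη : 0 < η) (hη2 : η ≤ 2)
    {κ0 κ1 : ℕ} (h01 : κ0 ≤ κ1) (h1 : 1 ≤ κ1) (hKκ : 16 * K ≤ (η / 2) * κ1)
    (hT : ∀ κ, κ0 ≤ κ → ∃ E c, Tree n lo hi dd D K η κ E c) :
    ∀ b, κ1 ≤ b → ∃ E c, Piece n lo hi dd D η 0 b E c := by
  classical
  intro b hb
  have hT' : ∀ b, ∃ E c, b < E ∧ (κ1 ≤ b → Tree n lo hi dd D K η b E c) := by
    intro b
    by_cases hb : κ1 ≤ b
    · obtain ⟨E, c, h⟩ := hT b (h01.trans hb)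
      exact ⟨E, c, h.lt, fun _ => h⟩
    · exact ⟨b + 1, 0, Nat.lt_succ_self b, fun h => absurd h hb⟩
  choose nx cc hnx hPc using hT'
  set ch := chain nx b with hch
  have hch0 : ch 0 = b := rfl
  have hchs : ∀ v, ch (v + 1) = nx (ch v) := fun v => chain_succ nx b v
  have hmono : StrictMono ch := chain_mono hnx b
  have hge : ∀ v, κ1 ≤ ch v := fun v => by
    have h : b + v ≤ ch v := le_chain hnx b v
    omega
  have hpc : ∀ v, Tree n lo hi dd D K η (ch v) (ch (v + 1)) (cc (ch v)) := fun v => by
    rw [hchs]; exact hPc _ (hge v)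
  obtain ⟨hd1, hd2, hd3⟩ := chain_data hS hnx b
  set L := hi (b - 1) + 1 with hL
  have hb1 : b - 1 + 1 = b := by omega
  have hL4 : L ^ 4 ≤ lo b := by
    have := hS.sparse (b - 1)
    rwa [hb1] at this
  have hLb : b + 2 ≤ L := by
    have h2 := hS.le_lo (b - 1)
    have h3 := hS.le (b - 1)
    omega
  have hL2 : 2 ≤ L := by omega
  have hLpos : 0 < L := by omega
  have hLR : (0 : ℝ) < L := by exact_mod_cast hLpos
  have hlo0 : (0 : ℝ) < lo b := by
    have := hS.le_lo b
    exact_mod_cast (by omega : 0 < lo b)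
  have hsmall : 16 * K * L / lo b ≤ η / 2 := by
    rw [div_le_iff₀ hlo0]
    have h3 : κ1 * L ≤ lo b := by
      calc κ1 * L ≤ L * L := Nat.mul_le_mul_right _ (by omega)
        _ = L ^ 2 := by ring
        _ ≤ L ^ 4 := Nat.pow_le_pow_right hLpos (by norm_num)
        _ ≤ lo b := hL4
    have h4 : (κ1 : ℝ) * L ≤ lo b := by exact_mod_cast h3
    calc 16 * K * L ≤ (η / 2) * κ1 * L := mul_le_mul_of_nonneg_right hKκ hLR.le
      _ = (η / 2) * (κ1 * L) := by ring
      _ ≤ (η / 2) * lo b := mul_le_mul_of_nonneg_left h4 (by linarith)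
  have hpush : ∀ π, push π (∑ v ∈ range L, cc (ch v)) = ∑ v ∈ range L, push π (cc (ch v)) :=
    fun π => push_sum _ _ _
  have hreg : ∀ π v, Reg π (ch v) (ch (v + 1)) (push π (cc (ch v))) := fun π v =>
    push_reg (hpc v).supp
  have hbound : ∀ π, Pos lo hi π → ∀ B : ℝ, 0 ≤ B →
      (∀ v, ∀ φ, Wr n none φ → pair φ (push π (cc (ch v))) ≤ B) →
      ∀ φ, Wr n none φ → pair φ (push π (∑ v ∈ range L, cc (ch v))) ≤ B + η / 2 := by
    intro π hπ B hB0 hB φ hφ
    have h5 := group_bound (n := n) (L := L) (y := fun v => push π (cc (ch v)))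
      (m := fun v => (lo (ch v) : ℝ)) (z := fun v => (hi (ch (v + 1) - 1) : ℝ)) (B := B) (K := K)
      hB0 hK (fun v _ i => push_nonneg (hpc v).nonneg i) (fun v _ => (hreg π v).lo_le hS hπ)
      (fun v _ => (hreg π v).le_hi hS hπ)
      (by exact_mod_cast (le_trans (by omega) (hS.le_lo (ch 0)) : 1 ≤ lo (ch 0)))
      hd2 (fun v => ?_) (fun v _ => hB v) (fun v _ => (hpc v).fb π hπ) φ hφ 0
    · rw [hpush, range_eq_Ico]
      refine h5.trans ?_
      have h6 : 16 * K * (L : ℝ) / (lo (ch 0) : ℝ) ≤ η / 2 := hsmall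
      linarith
    · refine le_trans ?_ (hd1 v)
      have h7 : (1 : ℝ) ≤ (hi (chain nx b (v + 1) - 1) : ℝ) + 1 := by
        have : (0 : ℝ) ≤ (hi (chain nx b (v + 1) - 1) : ℝ) := by positivity
        linarith
      exact pow_le_pow_right₀ h7 (by norm_num)
  refine ⟨ch L, ∑ v ∈ range L, cc (ch v), ?_⟩
  refine
    { lt := ?_
      nonneg := ?_
      supp := ?_
      ub := ?_
      ub1 := ?_
      fb := fun h => absurd h (lt_irrefl 0)
      lb := ?_ }
  · exact hmono hLpos
  · intro k
    rw [Finsupp.finsetSum_apply]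
    exact sum_nonneg fun v _ => (hpc v).nonneg k
  · intro k hk
    obtain ⟨v, hv, hkv⟩ := mem_biUnion.1 (Finsupp.support_finsetSum hk)
    obtain ⟨h1, h2⟩ := (hpc v).supp k hkv
    refine ⟨le_trans (hmono.monotone (Nat.zero_le v)) h1, lt_of_lt_of_le h2 ?_⟩
    exact hmono.monotone (mem_range.1 hv)
  · intro π hπ φ hφ
    have := hbound π hπ (1 + 2 * D) (by positivity) (fun v => (hpc v).ub π hπ) φ hφ
    linarith
  · intro π hπ hπ2 φ hφ
    exact hbound π hπ (1 + D * η) (by positivity) (fun v => (hpc v).ub1 π hπ hπ2) φ hφ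
  · intro π hπ hπ2
    have hex : ∀ v, ∃ g ∈ W n, (∀ i, 0 ≤ g i) ∧ Reg π (ch v) (ch (v + 1)) g ∧
        (D : ℝ) / 2 ≤ pair g (push π (cc (ch v))) := fun v => (hpc v).lb π hπ hπ2
    choose g hgW hg0 hgR hgv using hex
    set α : Vec := (L : ℝ)⁻¹ • ∑ q : Fin L, g q with hα
    have hαav : (L, α) ∈ Av n := by
      refine average_mem_Av ⟨L, fun q => g q, hL2, hLpos, le_rfl, fun q => hgW q, ?_, rfl⟩
      intro q r hqr
      exact (hgR q).before hS hπ (hgR r) (hmono.monotone hqr)
    have hα0 : ∀ i, 0 ≤ α i := by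
      intro i
      show 0 ≤ (L : ℝ)⁻¹ * (∑ q : Fin L, g q) i
      rw [Finsupp.finsetSum_apply]
      exact mul_nonneg (inv_nonneg.2 hLR.le) (sum_nonneg fun v _ => hg0 v i)
    have hαR : Reg π b (ch L) α := by
      refine Reg.smul (Reg.sum fun q _ => ?_) _
      exact (hgR q).mono (hmono.monotone (Nat.zero_le _)) (hmono.monotone q.2)
    obtain ⟨p, hp⟩ := exists_least (Av_ne_zero hαav)
    refine ⟨[(b, α)], {p}, ⟨?_, ?_, ?_⟩, ⟨p, rfl⟩, ?_⟩
    · intro z hz
      rw [List.mem_singleton] at hz
      subst hz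
      exact ⟨le_rfl, hmono hLpos, hαav, hα0, hαR⟩
    · exact List.pairwise_singleton _ _
    · intro q
      rw [mem_singleton]
      constructor
      · rintro rfl
        exact ⟨(b, α), List.mem_singleton.2 rfl, hp⟩
      · rintro ⟨z, hz, hz2⟩
        rw [List.mem_singleton] at hz
        subst hz
        exact hz2.unique hp
    · rw [List.map_cons, List.map_nil, List.sum_cons, List.sum_nil, add_zero]
      show (D : ℝ) / 2 ≤ pair α (push π (∑ v ∈ range L, cc (ch v)))
      rw [hα, pair_smul_left, pair_sum_left]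
      have hle : ∀ q : Fin L, (D : ℝ) / 2 ≤ pair (g q) (push π (∑ v ∈ range L, cc (ch v))) := by
        intro q
        refine (hgv q).trans (pair_le_pair_right (hg0 q) ?_)
        intro i
        rw [hpush, Finsupp.finsetSum_apply]
        exact single_le_sum (f := fun v => push π (cc (ch v)) i)
          (fun u _ => push_nonneg (hpc u).nonneg i) (mem_range.2 q.2)
      calc (D : ℝ) / 2 = (L : ℝ)⁻¹ * ∑ q : Fin L, (D : ℝ) / 2 := by
            rw [sum_const, card_univ, Fintype.card_fin, nsmul_eq_mul]; field_simp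
        _ ≤ _ := mul_le_mul_of_nonneg_left (sum_le_sum fun q _ => hle q) (inv_nonneg.2 hLR.le)

theorem tree_of_avgS (hS : Scale lo hi dd) (hη : 0 < η) {j κ κ1 E : ℕ} {C : ℕ →₀ ℝ}
    (hn : n = j + 1) (hκ : κ1 ≤ κ) (hKκ : 12 * (n * (2 + 2 * D)) ≤ η * κ1)
    (h : AvgS n lo hi dd D η j (dd κ) (κ + 1) E C) :
    Tree n lo hi dd (D + 1) (1 + n * (2 + 2 * D)) η κ E (Finsupp.single κ 1 + C) := by
  classical
  have hpush : ∀ π, push π (Finsupp.single κ 1 + C) = Finsupp.single (π κ) 1 + push π C :=
    fun π => by rw [push_add, push_single]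
  have hreg : ∀ π, Reg π (κ + 1) E (push π C) := fun π => push_reg h.supp
  have hKn : (0 : ℝ) ≤ n * (2 + 2 * D) := by positivity
  have hj1 : ((j : ℝ) + 1) = n := by rw [hn]; push_cast; ring
  have hloκ : (0 : ℝ) < lo κ := by
    have := hS.le_lo κ
    exact_mod_cast (by omega : 0 < lo κ)
  have hlolo : (lo κ : ℝ) ≤ lo (κ + 1) := by
    exact_mod_cast hS.lo_mono.monotone (Nat.le_succ κ)
  have hlodd : (lo κ : ℝ) ≤ dd κ := by exact_mod_cast hS.lo_le_dd κ
  have hfb : ∀ π, Pos lo hi π → FB n n (push π C) (n * (2 + 2 * D)) (lo (κ + 1)) (dd κ) := by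
    intro π hπ
    have := h.fb π hπ
    rw [← hn, hj1] at this
    exact this
  refine
    { lt := ?_
      nonneg := ?_
      supp := ?_
      ub := ?_
      fb := ?_
      ub1 := ?_
      lb := ?_ }
  · have := h.lt; omega
  · intro k
    rw [Finsupp.add_apply]
    refine add_nonneg ?_ (h.nonneg k)
    rw [Finsupp.single_apply]
    split_ifs <;> norm_num
  · intro k hk
    have hlt := h.lt
    rcases mem_union.1 (Finsupp.support_add hk) with h1 | h1
    · have := Finsupp.support_single_subset h1
      rw [mem_singleton] at this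
      subst this
      exact ⟨le_rfl, by omega⟩
    · have := h.supp k h1
      exact ⟨by omega, this.2⟩
  · intro π hπ φ hφ
    rw [hpush, pair_add_right, pair_single_right, one_mul]
    have h1 := h.ub π hπ φ hφ
    have h2 := hφ.le_one (π κ)
    push_cast
    linarith
  · intro π hπ ι _ I s α G M S hF hG hm hM hSp hsS
    have hM0 : 0 ≤ M := by
      obtain ⟨g, _, hgM⟩ := hM
      exact le_trans (by positivity) hgM
    have e1 : ∑ i ∈ I, pair (α i) (push π (Finsupp.single κ 1 + C)) =
        ∑ i ∈ I, pair (α i) (Finsupp.single (π κ) 1) + ∑ i ∈ I, pair (α i) (push π C) := by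
      rw [← sum_add_distrib]
      refine sum_congr rfl fun i _ => ?_
      rw [hpush, pair_add_right]
    rw [e1]
    have e2 := fam_single hF (π κ) hSp hsS
    have e3 := hfb π hπ ι inferInstance I s α G M S hF hG hm hM hSp hsS
    have e4 : M / lo (κ + 1) ≤ M / lo κ := div_le_div_of_nonneg_left hM0 hloκ hlolo
    have e5 : M / dd κ ≤ M / lo κ := div_le_div_of_nonneg_left hM0 hloκ hlodd
    have e6 : (n * (2 + 2 * D) : ℝ) * (1 / S + M / lo (κ + 1) + M / dd κ) ≤
        (n * (2 + 2 * D)) * (1 / S + M / lo κ + M / lo κ) :=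
      mul_le_mul_of_nonneg_left (by linarith) hKn
    have e7 : 0 ≤ M / lo κ := by positivity
    calc ∑ i ∈ I, pair (α i) (Finsupp.single (π κ) 1) + ∑ i ∈ I, pair (α i) (push π C)
        ≤ 1 / S + (n * (2 + 2 * D)) * (1 / S + M / lo κ + M / lo κ) := by linarith
      _ ≤ (1 + n * (2 + 2 * D)) * (1 / S + M / lo κ + M / lo κ) := by
          have : (1 + n * (2 + 2 * D) : ℝ) * (1 / S + M / lo κ + M / lo κ) =
            1 / S + (M / lo κ + M / lo κ) + (n * (2 + 2 * D)) * (1 / S + M / lo κ + M / lo κ) := by
              ring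
          linarith
  · intro π hπ hπ2 φ hφ
    rw [hpush]
    have hq1 : lo κ ≤ (π κ : ℕ) := (hπ κ).1
    have hq0 : (0 : ℝ) < ((π κ : ℕ) : ℝ) := by exact_mod_cast (π κ).2
    have hqκ : (κ1 : ℝ) ≤ ((π κ : ℕ) : ℝ) := by
      have := hS.le_lo κ
      exact_mod_cast (by omega : κ1 ≤ (π κ : ℕ))
    have hmain := node_bound (n := n) (q := π κ) (C := push π C) (B := 1 + D * η + η / 2)
      (ε := η / 4) (by positivity) (by linarith) ?_ (h.ub1 π hπ hπ2) ?_ φ hφ
    · refine hmain.trans ?_
      push_cast
      refine max_le ?_ ?_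
      · have : 0 ≤ ((D : ℝ) + 1) * η := by positivity
        linarith
      · linarith
    · intro p hp
      obtain ⟨k, hk1, hk2, rfl⟩ := hreg π p hp
      exact (hπ.strictMono hS) (by omega)
    · intro ι _ I s α G hF hG hm hM hsS
      have e3 := hfb π hπ ι inferInstance I s α G _ _ hF hG hm hM hq0 hsS
      refine e3.trans ?_
      set q : ℝ := ((π κ : ℕ) : ℝ) with hq
      have hqhi : (π κ : ℕ) ≤ hi κ := (hπ κ).2
      have e4 : q / lo (κ + 1) ≤ 1 / q := by
        have hl : (0 : ℝ) < lo (κ + 1) := lt_of_lt_of_le hloκ hlolo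
        rw [div_le_div_iff₀ hl hq0, one_mul]
        have h8 : (π κ : ℕ) * (π κ : ℕ) ≤ lo (κ + 1) := by
          calc (π κ : ℕ) * (π κ : ℕ) ≤ (hi κ + 1) * (hi κ + 1) :=
                Nat.mul_le_mul (by omega) (by omega)
            _ = (hi κ + 1) ^ 2 := by ring
            _ ≤ (hi κ + 1) ^ 4 := Nat.pow_le_pow_right (by omega) (by norm_num)
            _ ≤ lo (κ + 1) := hS.sparse κ
        have h8' : (((π κ : ℕ) * (π κ : ℕ) : ℕ) : ℝ) ≤ ((lo (κ + 1) : ℕ) : ℝ) := Nat.cast_le.2 h8
        rwa [Nat.cast_mul] at h8'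
      have e5 : q / dd κ ≤ 1 / q := by
        have hl : (0 : ℝ) < dd κ := lt_of_lt_of_le hloκ hlodd
        rw [div_le_div_iff₀ hl hq0, one_mul]
        have h8 := hπ2 κ
        have h9 : (π κ : ℕ) * (π κ : ℕ) ≤ dd κ := by nlinarith
        have h8' : (((π κ : ℕ) * (π κ : ℕ) : ℕ) : ℝ) ≤ ((dd κ : ℕ) : ℝ) := Nat.cast_le.2 h9
        rwa [Nat.cast_mul] at h8'
      calc (n * (2 + 2 * D) : ℝ) * (1 / q + q / lo (κ + 1) + q / dd κ)
          ≤ (n * (2 + 2 * D)) * (1 / q + 1 / q + 1 / q) :=
            mul_le_mul_of_nonneg_left (by linarith) hKn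
        _ = (3 * (n * (2 + 2 * D))) / q := by ring
        _ ≤ η / 4 := by
            rw [div_le_iff₀ hq0]
            have : η * κ1 ≤ η * q := mul_le_mul_of_nonneg_left hqκ hη.le
            linarith
  · intro π hπ hπ2
    obtain ⟨L, F, hLF, ⟨G, hG1, hG2, hG3⟩, hv⟩ := h.lb π hπ hπ2
    have hsm := hπ.strictMono hS
    have hlt := h.lt
    have hstrict := hS.hi_mono
    -- the average through the root
    set a0 : Vec := ((2 : ℕ) : ℝ)⁻¹ • ∑ _q : Fin 1, Finsupp.single (π κ) (1 : ℝ) with ha0
    have ha0' : a0 = Finsupp.single (π κ) (1 / 2 : ℝ) := by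
      rw [ha0]; simp
    have ha0av : (2, a0) ∈ Av n := by
      refine average_mem_Av ⟨1, fun _ => Finsupp.single (π κ) (1 : ℝ), le_rfl, le_rfl,
        by norm_num, fun _ => single_mem_W n _, ?_, rfl⟩
      intro q r hqr
      exact absurd hqr (by simp [Subsingleton.elim q r])
    have ha0supp : a0.support = {π κ} := by
      rw [ha0']
      exact Finsupp.support_single_ne_zero (π κ) (by norm_num)
    have hhi4 : ∀ k, 4 ≤ hi k := fun k => by
      have h1 := hS.four
      have h2 := hS.le k
      have h3 := hS.lo_mono.monotone (Nat.zero_le k)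
      omega
    have hgmem : (((2, a0) :: L.map fun z => (hi (z.1 - 1) + 1, z.2)).map Prod.snd).sum ∈ W n := by
      refine list_mem_W (List.cons_ne_nil _ _) ?_ ?_ (F := insert (π κ) F) ?_ ?_
      · intro z hz
        rcases List.mem_cons.1 hz with rfl | hz
        · exact ha0av
        · obtain ⟨w, hw, rfl⟩ := List.mem_map.1 hz
          exact (hLF.mem w hw).2.2.1
      · rw [List.pairwise_cons]
        refine ⟨?_, ?_⟩
        · intro z hz
          obtain ⟨w, hw, rfl⟩ := List.mem_map.1 hz
          obtain ⟨h1, h2, h3, h4, h5⟩ := hLF.mem w hw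
          refine ⟨?_, ?_, ?_⟩
          · intro i hi' j' hj'
            rw [ha0supp, mem_singleton] at hi'
            subst hi'
            obtain ⟨k, hk1, hk2, rfl⟩ := h5 j' hj'
            exact hsm (by omega)
          · have := hhi4 (w.1 - 1)
            show 2 < hi (w.1 - 1) + 1
            omega
          · intro i hi'
            rw [ha0supp, mem_singleton] at hi'
            subst hi'
            have h6 := (hπ κ).2
            have h7 : hi κ ≤ hi (w.1 - 1) := hstrict.monotone (by omega)
            show (π κ : ℕ) < hi (w.1 - 1) + 1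
            omega
        · rw [List.pairwise_map]
          refine (List.Pairwise.and_mem.1 hLF.pw).imp ?_
          rintro w w' ⟨hw, hw', h6, h7⟩
          obtain ⟨h1, h2, h3, h4, h5⟩ := hLF.mem w hw
          obtain ⟨h1', h2', h3', h4', h5'⟩ := hLF.mem w' hw'
          refine ⟨h7.before hS hπ h5' le_rfl, ?_, ?_⟩
          · have : hi (w.1 - 1) < hi (w'.1 - 1) := hstrict (by omega)
            show hi (w.1 - 1) + 1 < hi (w'.1 - 1) + 1
            omega
          · intro i hi'
            obtain ⟨k, hk1, hk2, rfl⟩ := h7 i hi'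
            have h8 := (hπ k).2
            have h9 : hi k ≤ hi (w'.1 - 1) := hstrict.monotone (by omega)
            show (π k : ℕ) < hi (w'.1 - 1) + 1
            omega
      · -- the set of the minima
        have hFin : ∀ a ∈ F, π κ < a ∧ dd κ + 1 ≤ (a : ℕ) := by
          intro a ha
          obtain ⟨k, hk1, hk2, rfl⟩ := hLF.reg a ha
          have h6 : π κ < π k := hsm (by omega)
          have h7 : (π κ : ℕ) < (π k : ℕ) := by exact_mod_cast h6
          have h8 := hπ2 κ
          exact ⟨h6, by omega⟩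
        have h9 := schreier_succ_of (k := j) (d := dd κ + 1) (Nat.succ_pos _)
          (G := Fin.cons {π κ} G) ?_ ?_ ?_
        · have h10 : univ.biUnion (Fin.cons {π κ} G : Fin (dd κ + 1) → Finset ℕ+) =
              insert (π κ) F := by
            ext a
            rw [hG3, mem_biUnion, mem_insert, mem_biUnion]
            constructor
            · rintro ⟨q, _, hq⟩
              refine Fin.cases (fun hq => ?_) (fun q hq => ?_) q hq
              · rw [Fin.cons_zero, mem_singleton] at hq; exact Or.inl hq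
              · rw [Fin.cons_succ] at hq; exact Or.inr ⟨q, mem_univ _, hq⟩
            · rintro (rfl | ⟨q, _, hq⟩)
              · exact ⟨0, mem_univ _, by rw [Fin.cons_zero, mem_singleton]⟩
              · exact ⟨q.succ, mem_univ _, by rw [Fin.cons_succ]; exact hq⟩
          rw [h10] at h9
          rw [hn]
          exact h9
        · intro q
          refine Fin.cases ?_ (fun q => ?_) q
          · rw [Fin.cons_zero]
            exact schreier_mono (Nat.zero_le j) ⟨π κ, rfl⟩
          · rw [Fin.cons_succ]; exact hG1 q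
        · intro q r
          refine Fin.cases ?_ (fun q => ?_) q
          · refine Fin.cases ?_ (fun r => ?_) r
            · intro h; exact absurd h (lt_irrefl _)
            · intro _ a ha b' hb'
              rw [Fin.cons_zero, mem_singleton] at ha
              rw [Fin.cons_succ] at hb'
              subst ha
              exact (hFin b' (by rw [hG3]; exact mem_biUnion.2 ⟨r, mem_univ _, hb'⟩)).1
          · refine Fin.cases ?_ (fun r => ?_) r
            · intro h; exact absurd h (by simp)
            · intro hqr a ha b' hb'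
              rw [Fin.cons_succ] at ha hb'
              exact hG2 q r (Fin.succ_lt_succ_iff.1 hqr) a ha b' hb'
        · intro q
          refine Fin.cases ?_ (fun q => ?_) q
          · intro a ha
            rw [Fin.cons_zero, mem_singleton] at ha
            subst ha
            exact hπ2 κ
          · intro a ha
            rw [Fin.cons_succ] at ha
            exact (hFin a (by rw [hG3]; exact mem_biUnion.2 ⟨q, mem_univ _, ha⟩)).2
      · intro p
        rw [mem_insert]
        constructor
        · rintro (rfl | hp)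
          · refine ⟨(2, a0), List.mem_cons_self, ?_⟩
            show IsLeast (↑a0.support : Set ℕ+) (π κ)
            rw [ha0supp, coe_singleton]
            exact isLeast_singleton
          · obtain ⟨z, hz, hz2⟩ := (hLF.mins p).1 hp
            exact ⟨(hi (z.1 - 1) + 1, z.2), List.mem_cons_of_mem _ (List.mem_map.2 ⟨z, hz, rfl⟩),
              hz2⟩
        · rintro ⟨z, hz, hz2⟩
          rcases List.mem_cons.1 hz with rfl | hz
          · left
            have h11 : p ∈ (↑a0.support : Set ℕ+) := hz2.1
            rw [ha0supp, coe_singleton] at h11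
            exact h11
          · right
            obtain ⟨w, hw, rfl⟩ := List.mem_map.1 hz
            exact (hLF.mins p).2 ⟨w, hw, hz2⟩
    have hsum : (((2, a0) :: L.map fun z => (hi (z.1 - 1) + 1, z.2)).map Prod.snd).sum =
        a0 + (L.map fun z => z.2).sum := by
      rw [List.map_cons, List.sum_cons, List.map_map]
      rfl
    rw [hsum] at hgmem
    have hL0 : ∀ i, 0 ≤ (L.map fun z => z.2).sum i := by
      intro i
      have : ∀ L' : List (ℕ × Vec), (∀ z ∈ L', ∀ i, 0 ≤ z.2 i) →
          0 ≤ (L'.map fun z => z.2).sum i := by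
        intro L'
        induction L' with
        | nil => intro _; simp
        | cons w L' ih =>
          intro hw
          rw [List.map_cons, List.sum_cons, Finsupp.add_apply]
          exact add_nonneg (hw w List.mem_cons_self i) (ih fun z hz => hw z (List.mem_cons_of_mem _ hz))
      exact this L fun z hz => (hLF.mem z hz).2.2.2.1
    have ha00 : ∀ i, 0 ≤ a0 i := by
      intro i
      rw [ha0', Finsupp.single_apply]
      split_ifs <;> norm_num
    have hLR : Reg π κ E (L.map fun z => z.2).sum := by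
      have : ∀ L' : List (ℕ × Vec), (∀ z ∈ L', Reg π κ E z.2) →
          Reg π κ E (L'.map fun z => z.2).sum := by
        intro L'
        induction L' with
        | nil => intro _ p hp; simp at hp
        | cons w L' ih =>
          intro hw p hp
          rw [List.map_cons, List.sum_cons] at hp
          rcases mem_union.1 (Finsupp.support_add hp) with h1 | h1
          · exact hw w List.mem_cons_self p h1
          · exact ih (fun z hz => hw z (List.mem_cons_of_mem _ hz)) p h1
      refine this L fun z hz => ?_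
      obtain ⟨h1, h2, h3, h4, h5⟩ := hLF.mem z hz
      exact h5.mono (by omega) le_rfl
    refine ⟨_, hgmem, fun i => add_nonneg (ha00 i) (hL0 i), ?_, ?_⟩
    · intro p hp
      rcases mem_union.1 (Finsupp.support_add hp) with h1 | h1
      · rw [ha0supp, mem_singleton] at h1
        subst h1
        exact ⟨κ, le_rfl, by omega, rfl⟩
      · exact hLR p h1
    · rw [hpush]
      have hpC0 : ∀ i, 0 ≤ push π C i := push_nonneg h.nonneg
      have h12 : pair (L.map fun z => z.2).sum (push π C) =
          (L.map fun z => pair z.2 (push π C)).sum := by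
        have : ∀ L' : List (ℕ × Vec), pair (L'.map fun z => z.2).sum (push π C) =
            (L'.map fun z => pair z.2 (push π C)).sum := by
          intro L'
          induction L' with
          | nil => simp [pair_zero_left]
          | cons w L' ih =>
            rw [List.map_cons, List.sum_cons, List.map_cons, List.sum_cons, pair_add_left, ih]
        exact this L
      rw [pair_add_left, pair_add_right, pair_add_right, h12, pair_single_right, pair_single_right]
      have h13 : a0 (π κ) = 1 / 2 := by rw [ha0']; simp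
      have h14 : 0 ≤ pair a0 (push π C) := pair_nonneg ha00 hpC0
      have h15 := hL0 (π κ)
      rw [h13]
      push_cast
      linarith

/-- Existence of trees. -/
theorem exists_trees (hS : Scale lo hi dd) (hn : 1 ≤ n) (hη : 0 < η) (hη2 : η ≤ 2) :
    ∀ D : ℕ, ∃ K : ℝ, 0 ≤ K ∧ ∃ κ0, ∀ κ, κ0 ≤ κ → ∃ E c, Tree n lo hi dd D K η κ E c := by
  intro D
  induction D with
  | zero =>
    refine ⟨1, zero_le_one, 0, fun κ _ => ⟨κ + 1, Finsupp.single κ 1, ?_⟩⟩
    refine
      { lt := Nat.lt_succ_self κ
        nonneg := ?_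
        supp := ?_
        ub := ?_
        fb := ?_
        ub1 := ?_
        lb := ?_ }
    · intro k
      rw [Finsupp.single_apply]
      split_ifs <;> norm_num
    · intro k hk
      have := Finsupp.support_single_subset hk
      rw [mem_singleton] at this
      subst this
      exact ⟨le_rfl, Nat.lt_succ_self _⟩
    · intro π hπ φ hφ
      rw [push_single, pair_single_right, one_mul]
      have := hφ.le_one (π κ)
      simpa using this
    · intro π hπ ι _ I s α G M S hF hG hm hM hSp hsS
      have hM0 : 0 ≤ M := by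
        obtain ⟨g, _, hgM⟩ := hM
        exact le_trans (by positivity) hgM
      rw [push_single, one_mul]
      have e2 := fam_single hF (π κ) hSp hsS
      have e7 : 0 ≤ M / lo κ := by positivity
      linarith
    · intro π hπ _ φ hφ
      rw [push_single, pair_single_right, one_mul]
      have := hφ.le_one (π κ)
      simpa using this
    · intro π hπ _
      refine ⟨Finsupp.single (π κ) 1, single_mem_W n _, ?_, ?_, ?_⟩
      · intro i
        rw [Finsupp.single_apply]
        split_ifs <;> norm_num
      · intro p hp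
        have := Finsupp.support_single_subset hp
        rw [mem_singleton] at this
        subst this
        exact ⟨κ, le_rfl, Nat.lt_succ_self _, rfl⟩
      · rw [push_single, pair_single_right]
        simp
  | succ D ih =>
    obtain ⟨K, hK, κ0, hT⟩ := ih
    obtain ⟨κ1, hκ1⟩ := exists_nat_ge (max (κ0 : ℝ) (max 1 (max (16 * K / (η / 2))
      (12 * (n * (2 + 2 * (D : ℝ))) / η))))
    have h1 : κ0 ≤ κ1 := by
      exact_mod_cast (le_max_left _ _).trans hκ1
    have h2 : 1 ≤ κ1 := by
      have : (1 : ℝ) ≤ κ1 := ((le_max_left _ _).trans (le_max_right _ _)).trans hκ1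
      exact_mod_cast this
    have h3 : 16 * K ≤ (η / 2) * κ1 := by
      have : 16 * K / (η / 2) ≤ κ1 :=
        (((le_max_left _ _).trans (le_max_right _ _)).trans (le_max_right _ _)).trans hκ1
      rw [div_le_iff₀ (by linarith)] at this
      linarith
    have h4 : 12 * (n * (2 + 2 * (D : ℝ))) ≤ η * κ1 := by
      have : 12 * (n * (2 + 2 * (D : ℝ))) / η ≤ κ1 :=
        (((le_max_right _ _).trans (le_max_right _ _)).trans (le_max_right _ _)).trans hκ1
      rw [div_le_iff₀ hη] at this
      linarith
    refine ⟨1 + n * (2 + 2 * D), by positivity, κ1, ?_⟩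
    have hpieces : ∀ j, j < n → ∀ b, κ1 ≤ b → ∃ E c, Piece n lo hi dd D η j b E c := by
      intro j
      induction j with
      | zero => intro _; exact grp_of_trees hS hK hη hη2 h1 h2 h3 hT
      | succ j ihj =>
        intro hj b hb
        have hddpos : 0 < dd b := by
          have h5 := hS.le_lo b
          have h6 := hS.lo_le_dd b
          omega
        obtain ⟨E, c, h⟩ := avgS_of_pieces hS (by omega : j ≤ n) (ihj (by omega)) (dd b) hddpos b hb
        exact ⟨E, c, h.toPiece hS⟩
    intro κ hκ
    have hddpos : 0 < dd κ := by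
      have h5 := hS.le_lo κ
      have h6 := hS.lo_le_dd κ
      omega
    obtain ⟨E, c, h⟩ := avgS_of_pieces hS (by omega : n - 1 ≤ n) (hpieces (n - 1) (by omega))
      (dd κ) hddpos (κ + 1) (by omega)
    exact ⟨E, _, tree_of_avgS hS hη (by omega) hκ h4 h⟩

end Pool.Agent.Helper37.Asym
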