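import Pool.Agent.Helper37.Asym.Example

/-!
No subsequence of `xs` is equivalent to a subsequence of the basis.
-/

namespace Pool.Agent.Helper37.Asym

open Finset

/-- Lower end of the scale. -/
def loF (k j : ℕ+ → ℕ+) (t : ℕ+) : ℕ := min (P ((k t : ℕ) ^ 2) : ℕ) (j t : ℕ)

/-- Upper end of the scale. -/
def hiF (k j : ℕ+ → ℕ+) (t : ℕ+) : ℕ := max (P ((k t : ℕ) ^ 2 + (k t : ℕ)) : ℕ) (j t : ℕ)

theorem self_le_of_strictMono {k : ℕ+ → ℕ+} (hk : StrictMono k) (t : ℕ+) : t ≤ k t := by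
  induction t using PNat.recOn with
  | one => exact one_le
  | succ t ih =>
    have h1 : k t < k (t + 1) := hk (PNat.lt_add_right t 1)
    exact PNat.add_one_le_iff.2 (lt_of_le_of_lt ih h1)

theorem le_loF {k j : ℕ+ → ℕ+} (hk : StrictMono k) (hj : StrictMono j) (t : ℕ+) :
    (t : ℕ) ≤ loF k j t := by
  refine le_min ?_ ?_
  · have h1 : (t : ℕ) ≤ (k t : ℕ) := self_le_of_strictMono hk t
    have h2 := le_P ((k t : ℕ) ^ 2)
    have h3 : (k t : ℕ) ≤ (k t : ℕ) ^ 2 := by nlinarith [(k t).2]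
    omega
  · exact self_le_of_strictMono hj t

theorem loF_le_hiF (k j : ℕ+ → ℕ+) (t : ℕ+) : loF k j t ≤ hiF k j t :=
  (min_le_right _ _).trans (le_max_right _ _)

/-- Thinning. -/
theorem thin {k j : ℕ+ → ℕ+} (hk : StrictMono k) (hj : StrictMono j) {Q : ℕ → ℕ+ → Prop}
    (hQ : ∀ m N : ℕ, ∃ t : ℕ+, N < (t : ℕ) ∧ Q m t) :
    ∃ t : ℕ → ℕ+, StrictMono t ∧ (∀ m, Q m (t m)) ∧
      (∀ m, (hiF k j (t m) + 1) ^ 4 ≤ loF k j (t (m + 1))) ∧ 4 ≤ loF k j (t 0) := by
  choose f hf1 hf2 using hQ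
  set t : ℕ → ℕ+ := fun m => Nat.rec (f 0 4)
    (fun m prev => f (m + 1) (max (prev : ℕ) ((hiF k j prev + 1) ^ 4))) m with ht
  have ht0 : t 0 = f 0 4 := rfl
  have hts : ∀ m, t (m + 1) = f (m + 1) (max (t m : ℕ) ((hiF k j (t m) + 1) ^ 4)) := fun m => rfl
  refine ⟨t, ?_, ?_, ?_, ?_⟩
  · refine strictMono_nat_of_lt_succ fun m => ?_
    have h1 := hf1 (m + 1) (max (t m : ℕ) ((hiF k j (t m) + 1) ^ 4))
    rw [← hts] at h1
    have h2 : (t m : ℕ) < (t (m + 1) : ℕ) := lt_of_le_of_lt (le_max_left _ _) h1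
    exact_mod_cast h2
  · intro m
    cases m with
    | zero => exact hf2 0 4
    | succ m => rw [hts]; exact hf2 _ _
  · intro m
    have h1 := hf1 (m + 1) (max (t m : ℕ) ((hiF k j (t m) + 1) ^ 4))
    rw [← hts] at h1
    have h2 := le_loF hk hj (t (m + 1))
    have h3 := le_max_right (t m : ℕ) ((hiF k j (t m) + 1) ^ 4)
    omega
  · have h1 := hf1 0 4
    have h2 := le_loF hk hj (t 0)
    rw [ht0] at h2 ⊢
    omega

/-- The number of the positions `P(u²+i)`, `i < u`, which are at most `v`, as a `Nat.find`. -/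
theorem cnt_ex (u : ℕ) (v : ℕ+) : ∃ i, u ≤ i ∨ (v : ℕ) < (P (u ^ 2 + i) : ℕ) := ⟨u, Or.inl le_rfl⟩

open Classical in
/-- First `i` with `i = u` or `v < P(u²+i)`. -/
noncomputable def cnt (u : ℕ) (v : ℕ+) : ℕ := Nat.find (cnt_ex u v)

theorem cnt_le (u : ℕ) (v : ℕ+) : cnt u v ≤ u := by
  classical
  exact Nat.find_min' (cnt_ex u v) (Or.inl le_rfl)

theorem cnt_spec {u : ℕ} {v : ℕ+} (h : cnt u v < u) : (v : ℕ) < (P (u ^ 2 + cnt u v) : ℕ) := by
  classical
  rcases Nat.find_spec (cnt_ex u v) with h1 | h1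
  · exact absurd h1 (not_le.2 h)
  · exact h1

theorem cnt_lt {u i : ℕ} {v : ℕ+} (h : i < cnt u v) : (P (u ^ 2 + i) : ℕ) ≤ (v : ℕ) := by
  classical
  have := Nat.find_min (cnt_ex u v) h
  push Not at this
  exact this.2

/-- The combination of the vectors `x_{k(t m)}`. -/
noncomputable def comb' (k : ℕ+ → ℕ+) (t : ℕ → ℕ+) (c : ℕ →₀ ℝ) : Vec :=
  c.sum fun m s => s • xv (k (t m) : ℕ)

/-- Equivalence at the level of finitely supported vectors. -/
theorem equiv_vec {n : ℕ} {k j : ℕ+ → ℕ+} (h : SeqEquiv (xs n ∘ k) (basis n ∘ j)) :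
    ∃ C : ℝ, 1 ≤ C ∧ ∀ (t : ℕ → ℕ+) (c : ℕ →₀ ℝ),
      nrm n (push (fun m => j (t m)) c) ≤ C * nrm n (comb' k t c) ∧
      nrm n (comb' k t c) ≤ C * nrm n (push (fun m => j (t m)) c) := by
  obtain ⟨C, hC, h⟩ := h
  refine ⟨C, hC, fun t c => ?_⟩
  have hC0 : 0 < C := by linarith
  obtain ⟨h1, h2⟩ := h (c.mapDomain t)
  have e1 : ((c.mapDomain t).sum fun i s => s • (basis n ∘ j) i) =
      emb n (push (fun m => j (t m)) c) := by
    rw [Finsupp.sum_mapDomain_index (by simp) (by intros; rw [add_smul])]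
    have e3 : push (fun m => j (t m)) c = c.sum fun m s => Finsupp.single (j (t m)) s := rfl
    rw [e3, Finsupp.sum, Finsupp.sum, map_sum]
    refine sum_congr rfl fun m _ => ?_
    rw [Function.comp_apply, basis, ← map_smul, Finsupp.smul_single, smul_eq_mul, mul_one]
  have e2 : ((c.mapDomain t).sum fun i s => s • (xs n ∘ k) i) = emb n (comb' k t c) := by
    rw [Finsupp.sum_mapDomain_index (by simp) (by intros; rw [add_smul])]
    rw [comb', Finsupp.sum, Finsupp.sum, map_sum]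
    refine sum_congr rfl fun m _ => ?_
    rw [Function.comp_apply, xs, map_smul]
  rw [e1, e2, norm_emb, norm_emb] at h1 h2
  refine ⟨?_, h2⟩
  rw [inv_mul_le_iff₀ hC0] at h1
  exact h1

theorem pair_comb' (φ : Vec) (k : ℕ+ → ℕ+) (t : ℕ → ℕ+) (c : ℕ →₀ ℝ) :
    pair φ (comb' k t c) = ∑ m ∈ c.support, c m * pair φ (xv (k (t m) : ℕ)) := by
  rw [comb', Finsupp.sum, pair_sum_right]
  exact sum_congr rfl fun m _ => pair_smul_right _ _ _

theorem pair_push (φ : Vec) (π : ℕ → ℕ+) (c : ℕ →₀ ℝ) :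
    pair φ (push π c) = ∑ m ∈ c.support, c m * φ (π m) := by
  have e3 : push π c = ∑ m ∈ c.support, Finsupp.single (π m) (c m) := rfl
  rw [e3, pair_sum_right]
  exact sum_congr rfl fun m _ => pair_single_right _ _ _

theorem geom_tail (I N : ℕ) :
    ∑ i ∈ range N, (if I ≤ i then ((1 : ℝ) / 2) ^ (i + 1) else 0) ≤ (1 / 2) ^ I := by
  have key : ∀ N, ∑ i ∈ range N, (if I ≤ i then ((1 : ℝ) / 2) ^ (i + 1) else 0) =
      if I ≤ N then (1 / 2) ^ I - (1 / 2) ^ N else 0 := by
    intro N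
    induction N with
    | zero =>
      rw [range_zero, sum_empty]
      split_ifs with h
      · have : I = 0 := by omega
        subst this; simp
      · rfl
    | succ N ih =>
      rw [sum_range_succ, ih]
      by_cases h1 : I ≤ N
      · rw [if_pos h1, if_pos h1, if_pos (by omega)]
        rw [pow_succ]; ring
      · rw [if_neg h1, if_neg h1]
        by_cases h2 : I ≤ N + 1
        · have : I = N + 1 := by omega
          subst this; simp
        · rw [if_neg h2]; simp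
  rw [key]
  have h1 : (0 : ℝ) < (1 / 2) ^ I := by positivity
  have h2 : (0 : ℝ) < (1 / 2) ^ N := by positivity
  split_ifs <;> linarith

theorem case_one {n : ℕ} (hn : 1 ≤ n) {k j : ℕ+ → ℕ+} (hk : StrictMono k) (hj : StrictMono j)
    {C : ℝ} (hC : 1 ≤ C)
    (hE : ∀ (t : ℕ → ℕ+) (c : ℕ →₀ ℝ),
      nrm n (comb' k t c) ≤ C * nrm n (push (fun m => j (t m)) c))
    {i0 : ℕ} (hfreq : ∀ N : ℕ, ∃ t : ℕ+, N < (t : ℕ) ∧ cnt (k t) (j t) = i0) : False := by
  obtain ⟨t, ht, hQ, hsp, hfour⟩ := thin hk hj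
    (Q := fun _ t => cnt (k t) (j t) = i0 ∧ i0 + 2 < (t : ℕ)) (by
      intro m N
      obtain ⟨t, h1, h2⟩ := hfreq (max N (i0 + 2))
      exact ⟨t, lt_of_le_of_lt (le_max_left _ _) h1, h2, lt_of_le_of_lt (le_max_right _ _) h1⟩)
  set u : ℕ → ℕ := fun m => (k (t m) : ℕ) with hu
  have hui : ∀ m, i0 + 2 < u m := fun m => by
    have h1 := (hQ m).2
    have h2 : (t m : ℕ) ≤ (k (t m) : ℕ) := self_le_of_strictMono hk (t m)
    show i0 + 2 < (k (t m) : ℕ)
    omega
  have hv : ∀ m, (j (t m) : ℕ) < (P (u m ^ 2 + i0) : ℕ) := by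
    intro m
    have h1 := (hQ m).1
    have h2 := cnt_spec (u := (k (t m) : ℕ)) (v := j (t m)) (by
      have := hui m
      rw [h1]; show i0 < u m; omega)
    rw [h1] at h2
    exact h2
  have hS : Scale (fun m => loF k j (t m)) (fun m => hiF k j (t m))
      (fun m => (P (u m ^ 2 + i0) : ℕ) ^ 2) := by
    refine ⟨fun m => loF_le_hiF k j _, hsp, fun m => ?_, hfour⟩
    refine Nat.pow_le_pow_left ?_ 2
    exact (min_le_right _ _).trans (hv m).le
  have hposv : Pos (fun m => loF k j (t m)) (fun m => hiF k j (t m)) (fun m => j (t m)) :=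
    fun m => ⟨min_le_right _ _, le_max_right _ _⟩
  have hposu : Pos (fun m => loF k j (t m)) (fun m => hiF k j (t m))
      (fun m => P (u m ^ 2 + (i0 + 1))) := by
    intro m
    have h1 := hui m
    exact ⟨(min_le_left _ _).trans (P_mono_coe (Nat.le_add_right _ _)),
      (P_mono_coe (by omega : u m ^ 2 + (i0 + 1) ≤ u m ^ 2 + u m)).trans (le_max_left _ _)⟩
  obtain ⟨D, hD⟩ := exists_nat_gt (4 * C * 2 ^ (i0 + 2))
  have hD0 : (0 : ℝ) < D := lt_of_le_of_lt (by positivity) hD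
  have hD1 : (1 : ℝ) ≤ D := by
    have : 0 < D := by exact_mod_cast hD0
    exact_mod_cast this
  obtain ⟨K, hK, κ0, hT⟩ := exists_trees hS hn (η := 1 / D) (by positivity)
    ((div_le_one hD0).2 hD1 |>.trans (by norm_num)) D
  obtain ⟨E, c, hc⟩ := hT κ0 le_rfl
  -- upper bound for the basis
  have hub : nrm n (push (fun m => j (t m)) c) ≤ 2 := by
    refine nrm_le fun f hf => ?_
    have h1 := hc.ub1 _ hposv (fun m => Nat.pow_le_pow_left (hv m).le 2) _ (W_relaxed hf)
    have h2 := pair_le_absV (f := f) (push_nonneg (π := fun m => j (t m)) hc.nonneg)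
    have h3 : (D : ℝ) * (1 / D) = 1 := by field_simp
    linarith
  -- lower bound for the sequence
  obtain ⟨g, hgW, hg0, _, hgv⟩ := hc.lb _ hposu (fun m => by
    have := P_sq_lt (u m ^ 2 + i0)
    exact this)
  have hlb : (1 / 2) ^ (i0 + 2) * ((D : ℝ) / 2) ≤ nrm n (comb' k t c) := by
    refine le_trans ?_ (pair_le_nrm hgW _)
    rw [pair_comb']
    have h1 := mul_le_mul_of_nonneg_left hgv (show (0 : ℝ) ≤ (1 / 2) ^ (i0 + 2) by positivity)
    refine h1.trans ?_
    rw [pair_push, mul_sum]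
    refine sum_le_sum fun m _ => ?_
    have h2 := pair_le_pair_right hg0 (single_le_xv (u := u m) (i := i0 + 1) (by
      have := hui m; omega))
    rw [pair_smul_right, pair_single_right, one_mul] at h2
    calc (1 / 2) ^ (i0 + 2) * (c m * g (P (u m ^ 2 + (i0 + 1))))
        = c m * ((1 / 2) ^ (i0 + 1 + 1) * g (P (u m ^ 2 + (i0 + 1)))) := by ring
      _ ≤ c m * pair g (xv (u m)) := mul_le_mul_of_nonneg_left h2 (hc.nonneg m)
  have h4 := hE t c
  have h5 : (1 / 2) ^ (i0 + 2) * ((D : ℝ) / 2) ≤ 2 * C := by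
    have := mul_le_mul_of_nonneg_left hub (show 0 ≤ C by linarith)
    linarith
  have h6 : (D : ℝ) ≤ 4 * C * 2 ^ (i0 + 2) := by
    have h7 : (0 : ℝ) < 2 ^ (i0 + 2) := by positivity
    have h8 : ((1 : ℝ) / 2) ^ (i0 + 2) * 2 ^ (i0 + 2) = 1 := by
      rw [← mul_pow]; norm_num
    have h9 := mul_le_mul_of_nonneg_right h5 h7.le
    have h10 : (1 / 2 : ℝ) ^ (i0 + 2) * ((D : ℝ) / 2) * 2 ^ (i0 + 2) = D / 2 := by
      calc (1 / 2 : ℝ) ^ (i0 + 2) * ((D : ℝ) / 2) * 2 ^ (i0 + 2)
          = ((1 / 2 : ℝ) ^ (i0 + 2) * 2 ^ (i0 + 2)) * (D / 2) := by ring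
        _ = D / 2 := by rw [h8, one_mul]
    rw [h10] at h9
    linarith
  linarith

theorem case_two {n : ℕ} (hn : 1 ≤ n) {k j : ℕ+ → ℕ+} (hk : StrictMono k) (hj : StrictMono j)
    {C : ℝ} (hC : 1 ≤ C)
    (hE : ∀ (t : ℕ → ℕ+) (c : ℕ →₀ ℝ),
      nrm n (push (fun m => j (t m)) c) ≤ C * nrm n (comb' k t c))
    (hinf : ∀ I N : ℕ, ∃ t : ℕ+, N < (t : ℕ) ∧ I ≤ cnt (k t) (j t)) : False := by
  obtain ⟨t, ht, hQ, hsp, hfour⟩ := thin hk hj
    (Q := fun m t => m + 2 ≤ cnt (k t) (j t)) (fun m N => hinf (m + 2) N)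
  set u : ℕ → ℕ := fun m => (k (t m) : ℕ) with hu
  set q : ℕ → ℕ := fun m => cnt (u m) (j (t m)) with hq
  have hqu : ∀ m, q m ≤ u m := fun m => cnt_le _ _
  have hqm : ∀ m, m + 2 ≤ q m := hQ
  have hv : ∀ m, (P (u m ^ 2 + (q m - 2)) : ℕ) ^ 2 < (j (t m) : ℕ) := by
    intro m
    have h1 := hqm m
    have h2 : (P (u m ^ 2 + (q m - 1)) : ℕ) ≤ (j (t m) : ℕ) :=
      cnt_lt (u := u m) (i := q m - 1) (by show q m - 1 < q m; omega)
    have h3 := P_sq_lt (u m ^ 2 + (q m - 2))
    rw [show u m ^ 2 + (q m - 2) + 1 = u m ^ 2 + (q m - 1) by omega] at h3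
    omega
  have hS : Scale (fun m => loF k j (t m)) (fun m => hiF k j (t m))
      (fun m => (P (u m ^ 2 + (q m - 2)) : ℕ) ^ 2) := by
    refine ⟨fun m => loF_le_hiF k j _, hsp, fun m => ?_, hfour⟩
    refine Nat.pow_le_pow_left ?_ 2
    exact (min_le_left _ _).trans (P_mono_coe (Nat.le_add_right _ _))
  have hposv : Pos (fun m => loF k j (t m)) (fun m => hiF k j (t m)) (fun m => j (t m)) :=
    fun m => ⟨min_le_right _ _, le_max_right _ _⟩
  have hpos : ∀ r : ℕ → ℕ, (∀ m, r m ≤ u m) → Pos (fun m => loF k j (t m))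
      (fun m => hiF k j (t m)) (fun m => P (u m ^ 2 + r m)) := by
    intro r hr m
    exact ⟨(min_le_left _ _).trans (P_mono_coe (Nat.le_add_right _ _)),
      (P_mono_coe (by have := hr m; omega : u m ^ 2 + r m ≤ u m ^ 2 + u m)).trans
        (le_max_left _ _)⟩
  obtain ⟨D, hD⟩ := exists_nat_gt (6 * C)
  have hD0 : (0 : ℝ) < D := lt_of_le_of_lt (by positivity) hD
  have hD1 : (1 : ℝ) ≤ D := by
    have : 0 < D := by exact_mod_cast hD0
    exact_mod_cast this
  obtain ⟨K, hK, κ0, hT⟩ := exists_trees hS hn (η := 1 / D) (by positivity)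
    ((div_le_one hD0).2 hD1 |>.trans (by norm_num)) D
  set I := 2 * D + 1 with hI
  obtain ⟨E, c, hc⟩ := hT (max κ0 I) (le_max_left _ _)
  -- lower bound for the basis
  obtain ⟨g, hgW, hg0, _, hgv⟩ := hc.lb _ hposv (fun m => hv m)
  have hlb : (D : ℝ) / 2 ≤ nrm n (push (fun m => j (t m)) c) := hgv.trans (pair_le_nrm hgW _)
  -- upper bound for the sequence
  have hub : nrm n (comb' k t c) ≤ 3 := by
    refine nrm_le fun f hf => ?_
    have hφ := W_relaxed hf
    have hφ0 := hφ.nonneg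
    set φ := absV f with hφdef
    have h1 : pair f (comb' k t c) ≤ pair φ (comb' k t c) := by
      rw [pair_comb', pair_comb']
      exact sum_le_sum fun m _ =>
        mul_le_mul_of_nonneg_left (pair_le_absV (xv_nonneg _)) (hc.nonneg m)
    refine h1.trans ?_
    rw [pair_comb']
    set N := c.support.sup u with hN
    have huN : ∀ m ∈ c.support, u m ≤ N := fun m hm => le_sup (f := u) hm
    have h2 : ∀ m ∈ c.support, c m * pair φ (xv (k (t m) : ℕ)) = ∑ i ∈ range N,
        (if i < u m then ((1 : ℝ) / 2) ^ (i + 1) * (c m * φ (P (u m ^ 2 + i))) else 0) := by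
      intro m hm
      rw [pair_xv, mul_sum, ← sum_filter]
      refine sum_congr ?_ fun i _ => by ring
      ext i
      rw [mem_filter, mem_range, mem_range]
      have := huN m hm
      show i < u m ↔ _
      omega
    rw [sum_congr rfl h2, sum_comm]
    have h3 : ∀ i ∈ range N, ∑ m ∈ c.support,
        (if i < u m then ((1 : ℝ) / 2) ^ (i + 1) * (c m * φ (P (u m ^ 2 + i))) else 0) ≤
        ((1 : ℝ) / 2) ^ (i + 1) * 2 +
          (1 + 2 * D) * (if I ≤ i then ((1 : ℝ) / 2) ^ (i + 1) else 0) := by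
      intro i _
      by_cases hiI : I ≤ i
      · rw [if_pos hiI]
        -- large `i`
        have h4 := hc.ub _ (hpos (fun m => min i (u m - 1)) (fun m =>
          (min_le_right _ _).trans (Nat.sub_le _ _))) φ hφ
        rw [pair_push] at h4
        calc ∑ m ∈ c.support,
            (if i < u m then ((1 : ℝ) / 2) ^ (i + 1) * (c m * φ (P (u m ^ 2 + i))) else 0)
            ≤ ∑ m ∈ c.support, ((1 : ℝ) / 2) ^ (i + 1) *
              (c m * φ (P (u m ^ 2 + min i (u m - 1)))) := by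
              refine sum_le_sum fun m _ => ?_
              split_ifs with h
              · rw [min_eq_left (by omega : i ≤ u m - 1)]
              · exact mul_nonneg (by positivity) (mul_nonneg (hc.nonneg m) (hφ0 _))
          _ = ((1 : ℝ) / 2) ^ (i + 1) * ∑ m ∈ c.support,
              (c m * φ (P (u m ^ 2 + min i (u m - 1)))) := by rw [mul_sum]
          _ ≤ ((1 : ℝ) / 2) ^ (i + 1) * (1 + 2 * D) :=
              mul_le_mul_of_nonneg_left h4 (by positivity)
          _ ≤ ((1 : ℝ) / 2) ^ (i + 1) * 2 + (1 + 2 * D) * ((1 : ℝ) / 2) ^ (i + 1) := by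
              have : (0 : ℝ) ≤ ((1 : ℝ) / 2) ^ (i + 1) * 2 := by positivity
              linarith
      · rw [if_neg hiI, mul_zero, add_zero]
        have h4 := hc.ub1 _ (hpos (fun m => min i (q m - 2)) (fun m =>
          (min_le_right _ _).trans ((Nat.sub_le _ _).trans (hqu m)))) (fun m =>
            Nat.pow_le_pow_left (P_mono_coe (by
              have : min i (q m - 2) ≤ q m - 2 := min_le_right _ _
              omega)) 2) φ hφ
        rw [pair_push] at h4
        have h3' : (D : ℝ) * (1 / D) = 1 := by field_simp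
        calc ∑ m ∈ c.support,
            (if i < u m then ((1 : ℝ) / 2) ^ (i + 1) * (c m * φ (P (u m ^ 2 + i))) else 0)
            ≤ ∑ m ∈ c.support, ((1 : ℝ) / 2) ^ (i + 1) *
              (c m * φ (P (u m ^ 2 + min i (q m - 2)))) := by
              refine sum_le_sum fun m hm => ?_
              have h5 := (hc.supp m hm).1
              have h6 : I ≤ m := (le_max_right _ _).trans h5
              have h7 := hqm m
              have h8 := hqu m
              rw [if_pos (by omega : i < u m), min_eq_left (by omega : i ≤ q m - 2)]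
          _ = ((1 : ℝ) / 2) ^ (i + 1) * ∑ m ∈ c.support,
              (c m * φ (P (u m ^ 2 + min i (q m - 2)))) := by rw [mul_sum]
          _ ≤ ((1 : ℝ) / 2) ^ (i + 1) * 2 := by
              refine mul_le_mul_of_nonneg_left ?_ (by positivity)
              linarith
    refine (sum_le_sum h3).trans ?_
    rw [sum_add_distrib, ← sum_mul, ← mul_sum]
    have h9 := geom_half N
    have h10 := geom_tail I N
    have h11 : (1 + 2 * (D : ℝ)) * (1 / 2) ^ I ≤ 1 := by
      have h12 : ((2 * D + 1 : ℕ) : ℝ) ≤ 2 ^ I := by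
        exact_mod_cast (Nat.lt_two_pow_self (n := 2 * D + 1)).le
      have h13 : ((1 : ℝ) / 2) ^ I * 2 ^ I = 1 := by
        rw [← mul_pow]; norm_num
      have h14 : (0 : ℝ) < (1 / 2) ^ I := by positivity
      have h15 := mul_le_mul_of_nonneg_left h12 h14.le
      rw [h13] at h15
      push_cast at h15
      linarith
    have h12 := mul_le_mul_of_nonneg_left h10 (show (0 : ℝ) ≤ 1 + 2 * (D : ℝ) by positivity)
    linarith
  have h4 := (hE t c)
  have h5 := mul_le_mul_of_nonneg_left hub (show 0 ≤ C by linarith)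
  linarith

/-- No subsequence of `xs n` is equivalent to a subsequence of the basis. -/
theorem not_equiv {n : ℕ} (hn : 1 ≤ n) {k j : ℕ+ → ℕ+} (hk : StrictMono k) (hj : StrictMono j) :
    ¬ SeqEquiv (xs n ∘ k) (basis n ∘ j) := by
  intro h
  obtain ⟨C, hC, hE⟩ := equiv_vec h
  by_cases hcase : ∃ i0, ∀ N : ℕ, ∃ t : ℕ+, N < (t : ℕ) ∧ cnt (k t) (j t) = i0
  · obtain ⟨i0, hfreq⟩ := hcase
    exact case_one hn hk hj hC (fun t c => (hE t c).2) hfreq
  · push Not at hcase
    refine case_two hn hk hj hC (fun t c => (hE t c).1) ?_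
    have hall : ∀ I, ∃ N : ℕ, ∀ t : ℕ+, N < (t : ℕ) → I ≤ cnt (k t) (j t) := by
      intro I
      induction I with
      | zero => exact ⟨0, fun _ _ => Nat.zero_le _⟩
      | succ I ih =>
        obtain ⟨N, hN⟩ := ih
        obtain ⟨N', hN'⟩ := hcase I
        refine ⟨max N N', fun t ht => ?_⟩
        have h1 := hN t (lt_of_le_of_lt (le_max_left _ _) ht)
        have h2 := hN' t (lt_of_le_of_lt (le_max_right _ _) ht)
        omega
    intro I N
    obtain ⟨N', hN'⟩ := hall I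
    refine ⟨⟨max N N' + 1, Nat.succ_pos _⟩, ?_, ?_⟩
    · show N < max N N' + 1
      exact Nat.lt_succ_of_le (le_max_left _ _)
    · refine hN' _ ?_
      show N' < max N N' + 1
      exact Nat.lt_succ_of_le (le_max_right _ _)

end Pool.Agent.Helper37.Asym
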