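import Pool.Agent.Helper37.Asym.Basic

/-!
The relaxed nonnegative norming class, used for all upper estimates.
-/

namespace Pool.Agent.Helper37.Asym

open Finset

/-- Relaxed nonnegative norming functionals (`none`) and averages with a size (`some ℓ`). -/
inductive Wr (n : ℕ) : Option ℕ → Vec → Prop
  | unit (i : ℕ+) : Wr n none (Finsupp.single i 1)
  | avg {ι : Type} [LinearOrder ι] (T : Finset ι) (ℓ : ℕ) (f : ι → Vec) (hℓ : 2 ≤ ℓ)
      (hT : T.card ≤ ℓ) (hf : ∀ t ∈ T, Wr n none (f t))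
      (hs : ∀ t ∈ T, ∀ u ∈ T, t < u → Before (f t) (f u)) :
      Wr n (some ℓ) ((ℓ : ℝ)⁻¹ • ∑ t ∈ T, f t)
  | ofAvg {ℓ : ℕ} {α : Vec} (h : Wr n (some ℓ) α) : Wr n none α
  | sch {ι : Type} [LinearOrder ι] (I : Finset ι) (s : ι → ℕ) (α : ι → Vec) (G : Finset ℕ+)
      (h : ∀ i ∈ I, Wr n (some (s i)) (α i))
      (hb : ∀ i ∈ I, ∀ j ∈ I, i < j → Before (α i) (α j))
      (hfast : ∀ i ∈ I, ∀ j ∈ I, i < j → ∀ p ∈ (α i).support, (p : ℕ) < s j)
      (hG : G ∈ Schreier n)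
      (hadm : ∀ i ∈ I, ∃ p ∈ G, IsLeast (↑(α i).support : Set ℕ+) p) :
      Wr n none (∑ i ∈ I, α i)

/-- The decomposition of an average, with a property of the constituents. -/
def Dec (n : ℕ) (P : Vec → Prop) (ℓ : ℕ) (α : Vec) : Prop :=
  ∃ (ι : Type) (_ : LinearOrder ι) (T : Finset ι) (f : ι → Vec), 2 ≤ ℓ ∧ T.card ≤ ℓ ∧
    (∀ t ∈ T, Wr n none (f t) ∧ P (f t)) ∧
    (∀ t ∈ T, ∀ u ∈ T, t < u → Before (f t) (f u)) ∧ α = (ℓ : ℝ)⁻¹ • ∑ t ∈ T, f t

/-- Induction principle. -/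
theorem Wr.ind {n : ℕ} {P : Vec → Prop} (unit : ∀ i, P (Finsupp.single i 1))
    (avg : ∀ (ℓ : ℕ) (α : Vec), Wr n (some ℓ) α → Dec n P ℓ α → P α)
    (sch : ∀ (ι : Type) (_ : LinearOrder ι) (I : Finset ι) (s : ι → ℕ) (α : ι → Vec)
      (G : Finset ℕ+), (∀ i ∈ I, Wr n (some (s i)) (α i)) → (∀ i ∈ I, Dec n P (s i) (α i)) →
      (∀ i ∈ I, P (α i)) →
      (∀ i ∈ I, ∀ j ∈ I, i < j → Before (α i) (α j)) →
      (∀ i ∈ I, ∀ j ∈ I, i < j → ∀ p ∈ (α i).support, (p : ℕ) < s j) →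
      G ∈ Schreier n → (∀ i ∈ I, ∃ p ∈ G, IsLeast (↑(α i).support : Set ℕ+) p) →
      P (∑ i ∈ I, α i)) :
    ∀ φ, Wr n none φ → P φ := by
  have key : ∀ (o : Option ℕ) (φ : Vec), Wr n o φ →
      (P φ ∧ ∀ ℓ, o = some ℓ → Dec n P ℓ φ) := by
    intro o φ h
    induction h with
    | unit i => exact ⟨unit i, fun ℓ h => by cases h⟩
    | @avg ι _ T ℓ f hℓ hT hf hs ih =>
      have hd : Dec n P ℓ ((ℓ : ℝ)⁻¹ • ∑ t ∈ T, f t) :=
        ⟨ι, inferInstance, T, f, hℓ, hT, fun t ht => ⟨hf t ht, (ih t ht).1⟩, hs, rfl⟩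
      refine ⟨avg ℓ _ (Wr.avg T ℓ f hℓ hT hf hs) hd, ?_⟩
      intro ℓ' h'
      cases h'
      exact hd
    | ofAvg h ih => exact ⟨ih.1, fun ℓ h => by cases h⟩
    | @sch ι _ I s α G h hb hfast hG hadm ih =>
      refine ⟨sch ι inferInstance I s α G h (fun i hi => (ih i hi).2 _ rfl)
        (fun i hi => (ih i hi).1) hb hfast hG hadm, fun ℓ h => by cases h⟩
  exact fun φ h => (key none φ h).1

theorem Wr.dec {n ℓ : ℕ} {α : Vec} (h : Wr n (some ℓ) α) : Dec n (fun _ => True) ℓ α := by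
  cases h with
  | @avg ι _ T _ f hℓ hT hf hs =>
    exact ⟨ι, inferInstance, T, f, hℓ, hT, fun t ht => ⟨hf t ht, trivial⟩, hs, rfl⟩

/-- The functionals of `W`, in absolute value, are relaxed functionals. -/
theorem stage_relaxed (n m : ℕ) :
    (∀ z ∈ (stage n m).1, Wr n (some z.1) (absV z.2)) ∧
    (∀ f ∈ (stage n m).2, Wr n none (absV f)) := by
  induction m with
  | zero =>
    refine ⟨fun z hz => absurd hz (by simp [stage]), ?_⟩
    rintro f ⟨i, rfl | rfl⟩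
    · rw [absV_single, abs_one]; exact Wr.unit i
    · rw [absV_single, abs_neg, abs_one]; exact Wr.unit i
  | succ m ih =>
    have havg : ∀ ℓ α, IsAverage (stage n m).2 ℓ α → Wr n (some ℓ) (absV α) := by
      rintro ℓ α ⟨d, f, h1, h2, h3, h4, h5, rfl⟩
      rw [absV_smul, absV_sum univ f (disj_of_before fun q _ r _ => h5 q r), abs_inv, Nat.abs_cast]
      refine Wr.avg univ ℓ (fun q => absV (f q)) h1 (by simpa using h3)
        (fun q _ => ih.2 _ (h4 q)) ?_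
      intro q _ r _ hqr i hi j hj
      simp only [absV_support] at hi hj
      exact h5 q r hqr i hi j hj
    refine ⟨?_, ?_⟩
    · rintro z (hz | hz)
      · exact ih.1 z hz
      · exact havg _ _ hz
    · rintro f ((hf | ⟨ℓ, hf⟩) | hf)
      · exact ih.2 f hf
      · exact Wr.ofAvg (havg _ _ hf)
      · obtain ⟨d, s, α, p, h1, h2, h3, h4, h5, h6, h7, rfl⟩ := hf
        rw [absV_sum univ α (disj_of_before fun q _ r _ => h3 q r)]
        refine Wr.sch univ s (fun q => absV (α q)) (univ.image p) (fun q _ => ih.1 _ (h2 q))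
          ?_ ?_ h5 ?_
        · intro q _ r _ hqr i hi j hj
          simp only [absV_support] at hi hj
          exact h3 q r hqr i hi j hj
        · intro q _ r _ hqr i hi
          simp only [absV_support] at hi
          have hq1 : (q : ℕ) + 1 < d := lt_of_le_of_lt (Nat.succ_le_of_lt hqr) r.2
          have h8 := h7 q ⟨(q : ℕ) + 1, hq1⟩ rfl i hi
          refine lt_of_lt_of_le h8 ?_
          rcases eq_or_lt_of_le (show (⟨(q : ℕ) + 1, hq1⟩ : Fin d) ≤ r from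
            Nat.succ_le_of_lt hqr) with h9 | h9
          · rw [h9]
          · exact (h6 _ _ h9).le
        · intro q _
          refine ⟨p q, mem_image_of_mem p (mem_univ q), ?_⟩
          simp only [absV_support]
          exact h4 q

theorem W_relaxed {n : ℕ} {f : Vec} (h : f ∈ W n) : Wr n none (absV f) := by
  obtain ⟨m, hm⟩ := h
  exact (stage_relaxed n m).2 f hm

/-! ### Coordinates -/

theorem Wr.nonneg_le {n : ℕ} : ∀ {o : Option ℕ} {φ : Vec}, Wr n o φ →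
    (∀ i, 0 ≤ φ i ∧ φ i ≤ 1) ∧ (∀ ℓ, o = some ℓ → 2 ≤ ℓ ∧ ∀ i, φ i ≤ (ℓ : ℝ)⁻¹) := by
  intro o φ h
  induction h with
  | unit i =>
    refine ⟨fun j => ?_, fun ℓ h => by cases h⟩
    rw [Finsupp.single_apply]
    split_ifs <;> norm_num
  | @avg ι _ T ℓ f hℓ hT hf hs ih =>
    have hl : (2 : ℝ) ≤ ℓ := by exact_mod_cast hℓ
    have hpos : (0 : ℝ) < ℓ := by linarith
    have hsum : ∀ i, 0 ≤ (∑ t ∈ T, f t) i ∧ (∑ t ∈ T, f t) i ≤ 1 := by
      intro i
      rw [Finsupp.finsetSum_apply]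
      refine ⟨sum_nonneg fun t ht => ((ih t ht).1 i).1, ?_⟩
      by_cases hp : ∃ t ∈ T, f t i ≠ 0
      · obtain ⟨t, ht, hti⟩ := hp
        rw [sum_eq_single t]
        · exact ((ih t ht).1 i).2
        · intro u hu hut
          have := disj_of_before hs t ht u hu hut.symm i (Finsupp.mem_support_iff.2 hti)
          exact Finsupp.notMem_support_iff.1 this
        · intro h'; exact absurd ht h'
      · push Not at hp
        rw [sum_eq_zero hp]; norm_num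
    have h2 : ∀ i, ((ℓ : ℝ)⁻¹ • ∑ t ∈ T, f t) i = (ℓ : ℝ)⁻¹ * (∑ t ∈ T, f t) i := fun i => rfl
    refine ⟨fun i => ⟨?_, ?_⟩, ?_⟩
    · rw [h2]; exact mul_nonneg (inv_nonneg.2 hpos.le) (hsum i).1
    · rw [h2]
      calc (ℓ : ℝ)⁻¹ * (∑ t ∈ T, f t) i ≤ 1 * 1 := by
            refine mul_le_mul ?_ (hsum i).2 (hsum i).1 zero_le_one
            exact inv_le_one_of_one_le₀ (by linarith)
        _ = 1 := by norm_num
    · intro ℓ' h'
      cases h'
      refine ⟨hℓ, fun i => ?_⟩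
      rw [h2]
      calc (ℓ : ℝ)⁻¹ * (∑ t ∈ T, f t) i ≤ (ℓ : ℝ)⁻¹ * 1 :=
            mul_le_mul_of_nonneg_left (hsum i).2 (inv_nonneg.2 hpos.le)
        _ = (ℓ : ℝ)⁻¹ := by ring
  | ofAvg h ih => exact ⟨ih.1, fun ℓ h => by cases h⟩
  | @sch ι _ I s α G h hb hfast hG hadm ih =>
    refine ⟨fun i => ?_, fun ℓ h => by cases h⟩
    rw [Finsupp.finsetSum_apply]
    refine ⟨sum_nonneg fun t ht => ((ih t ht).1 i).1, ?_⟩
    by_cases hp : ∃ t ∈ I, α t i ≠ 0
    · obtain ⟨t, ht, hti⟩ := hp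
      rw [sum_eq_single t]
      · exact ((ih t ht).1 i).2
      · intro u hu hut
        have := disj_of_before hb t ht u hu hut.symm i (Finsupp.mem_support_iff.2 hti)
        exact Finsupp.notMem_support_iff.1 this
      · intro h'; exact absurd ht h'
    · push Not at hp
      rw [sum_eq_zero hp]; norm_num

theorem Wr.nonneg {n : ℕ} {o : Option ℕ} {φ : Vec} (h : Wr n o φ) (i : ℕ+) : 0 ≤ φ i :=
  (h.nonneg_le.1 i).1

theorem Wr.le_one {n : ℕ} {o : Option ℕ} {φ : Vec} (h : Wr n o φ) (i : ℕ+) : φ i ≤ 1 :=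
  (h.nonneg_le.1 i).2

theorem Wr.two_le {n ℓ : ℕ} {φ : Vec} (h : Wr n (some ℓ) φ) : 2 ≤ ℓ :=
  (h.nonneg_le.2 ℓ rfl).1

theorem Wr.le_inv {n ℓ : ℕ} {φ : Vec} (h : Wr n (some ℓ) φ) (i : ℕ+) : φ i ≤ (ℓ : ℝ)⁻¹ :=
  (h.nonneg_le.2 ℓ rfl).2 i

/-! ### Families of averages -/

/-- A very fast growing family of relaxed averages. -/
structure Fam (n : ℕ) {ι : Type} [LinearOrder ι] (I : Finset ι) (s : ι → ℕ) (α : ι → Vec) :
    Prop where
  av : ∀ i ∈ I, Wr n (some (s i)) (α i)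
  bef : ∀ i ∈ I, ∀ j ∈ I, i < j → Before (α i) (α j)
  fast : ∀ i ∈ I, ∀ j ∈ I, i < j → ∀ p ∈ (α i).support, (p : ℕ) < s j

theorem Fam.mono {n : ℕ} {ι : Type} [LinearOrder ι] {I J : Finset ι} {s : ι → ℕ} {α : ι → Vec}
    (h : Fam n I s α) (hJ : J ⊆ I) : Fam n J s α :=
  ⟨fun i hi => h.av i (hJ hi), fun i hi j hj => h.bef i (hJ hi) j (hJ hj),
    fun i hi j hj => h.fast i (hJ hi) j (hJ hj)⟩

/-- The minima of the supports lie in `G`. -/
def MinIn {ι : Type} (I : Finset ι) (α : ι → Vec) (G : Finset ℕ+) : Prop :=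
  ∀ i ∈ I, ∃ p ∈ G, IsLeast (↑(α i).support : Set ℕ+) p

theorem MinIn.mono {ι : Type} {I J : Finset ι} {α : ι → Vec} {G : Finset ℕ+}
    (h : MinIn I α G) (hJ : J ⊆ I) : MinIn J α G := fun i hi => h i (hJ hi)

theorem Fam.sum_mem {n j : ℕ} (hj : j ≤ n) {ι : Type} [LinearOrder ι] {I : Finset ι} {s : ι → ℕ}
    {α : ι → Vec} (h : Fam n I s α) {G : Finset ℕ+} (hG : G ∈ Schreier j) (hm : MinIn I α G) :
    Wr n none (∑ i ∈ I, α i) :=
  Wr.sch I s α G h.av h.bef h.fast (schreier_mono hj hG) hm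

end Pool.Agent.Helper37.Asym
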