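import Pool.Agent.Helper37.Asym.Groups

/-!
Scales, positions, and membership of the lower functionals in the norming set.
-/

namespace Pool.Agent.Helper37.Asym

open Finset

/-- A very sparse scale. -/
structure Scale (lo hi dd : ℕ → ℕ) : Prop where
  le : ∀ k, lo k ≤ hi k
  sparse : ∀ k, (hi k + 1) ^ 4 ≤ lo (k + 1)
  sq : ∀ k, lo k ^ 2 ≤ dd k
  four : 4 ≤ lo 0

/-- Position maps. -/
def Pos (lo hi : ℕ → ℕ) (π : ℕ → ℕ+) : Prop := ∀ k, lo k ≤ (π k : ℕ) ∧ (π k : ℕ) ≤ hi k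

/-- The vector whose coefficient at the position `π k` is `c k`. -/
noncomputable def push (π : ℕ → ℕ+) (c : ℕ →₀ ℝ) : Vec := c.mapDomain π

/-- The support is contained in the positions with index in `[a, b)`. -/
def Reg (π : ℕ → ℕ+) (a b : ℕ) (x : Vec) : Prop :=
  ∀ p ∈ x.support, ∃ k, a ≤ k ∧ k < b ∧ π k = p

section scale

variable {lo hi dd : ℕ → ℕ}

theorem Scale.hi_lt (h : Scale lo hi dd) (k : ℕ) : hi k < lo (k + 1) := by
  have h1 := h.sparse k
  have h2 : hi k + 1 ≤ (hi k + 1) ^ 4 := Nat.le_self_pow (by norm_num) _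
  omega

theorem Scale.lo_mono (h : Scale lo hi dd) : StrictMono lo :=
  strictMono_nat_of_lt_succ fun k => lt_of_le_of_lt (h.le k) (h.hi_lt k)

theorem Scale.hi_mono (h : Scale lo hi dd) : StrictMono hi :=
  strictMono_nat_of_lt_succ fun k => lt_of_lt_of_le (h.hi_lt k) (h.le (k + 1))

theorem Scale.hi_lt' (h : Scale lo hi dd) {k l : ℕ} (hkl : k < l) : hi k < lo l :=
  lt_of_lt_of_le (h.hi_lt k) (h.lo_mono.monotone hkl)

theorem Scale.two_pow (h : Scale lo hi dd) (k : ℕ) : 2 ^ (k + 2) ≤ lo k := by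
  induction k with
  | zero => simpa using h.four
  | succ k ih =>
    have h1 := h.sparse k
    have h2 := h.le k
    have h3 : 2 ^ (k + 1 + 2) = 2 * 2 ^ (k + 2) := by ring
    have h4 : 2 * (hi k + 1) ≤ (hi k + 1) ^ 4 := by
      have h5 : 2 ≤ hi k + 1 := by
        have : 1 ≤ 2 ^ (k + 2) := Nat.one_le_two_pow
        omega
      calc 2 * (hi k + 1) ≤ (hi k + 1) * (hi k + 1) := Nat.mul_le_mul_right _ h5
        _ = (hi k + 1) ^ 2 := by ring
        _ ≤ (hi k + 1) ^ 4 := Nat.pow_le_pow_right (by omega) (by norm_num)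
    omega

theorem Scale.le_lo (h : Scale lo hi dd) (k : ℕ) : k + 2 ≤ lo k :=
  le_trans (Nat.lt_two_pow_self).le (h.two_pow k)

theorem Scale.lo_le_dd (h : Scale lo hi dd) (k : ℕ) : lo k ≤ dd k := by
  have h1 := h.sq k
  have h2 := h.le_lo k
  nlinarith

theorem Pos.strictMono (h : Scale lo hi dd) {π : ℕ → ℕ+} (hπ : Pos lo hi π) : StrictMono π := by
  refine strictMono_nat_of_lt_succ fun k => ?_
  have h1 := (hπ k).2
  have h2 := (hπ (k + 1)).1
  have h3 := h.hi_lt k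
  have : (π k : ℕ) < (π (k + 1) : ℕ) := by omega
  exact_mod_cast this

end scale

/-! ### push -/

theorem push_add (π : ℕ → ℕ+) (c c' : ℕ →₀ ℝ) : push π (c + c') = push π c + push π c' :=
  Finsupp.mapDomain_add

theorem push_smul (π : ℕ → ℕ+) (t : ℝ) (c : ℕ →₀ ℝ) : push π (t • c) = t • push π c :=
  Finsupp.mapDomain_smul t c

theorem push_sum {ι : Type*} (π : ℕ → ℕ+) (I : Finset ι) (c : ι → ℕ →₀ ℝ) :
    push π (∑ i ∈ I, c i) = ∑ i ∈ I, push π (c i) :=
  Finsupp.mapDomain_finsetSum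

theorem push_single (π : ℕ → ℕ+) (k : ℕ) (t : ℝ) :
    push π (Finsupp.single k t) = Finsupp.single (π k) t :=
  Finsupp.mapDomain_single

theorem push_nonneg {π : ℕ → ℕ+} {c : ℕ →₀ ℝ} (hc : ∀ k, 0 ≤ c k) (i : ℕ+) : 0 ≤ push π c i := by
  have h : push π c = ∑ k ∈ c.support, Finsupp.single (π k) (c k) := rfl
  rw [h, Finsupp.finsetSum_apply]
  refine sum_nonneg fun k _ => ?_
  rw [Finsupp.single_apply]
  split_ifs
  · exact hc k
  · exact le_rfl

theorem push_reg {π : ℕ → ℕ+} {c : ℕ →₀ ℝ} {a b : ℕ} (hc : ∀ k ∈ c.support, a ≤ k ∧ k < b) :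
    Reg π a b (push π c) := by
  classical
  intro p hp
  have h1 := Finsupp.mapDomain_support hp
  obtain ⟨k, hk, hkp⟩ := mem_image.1 h1
  exact ⟨k, (hc k hk).1, (hc k hk).2, hkp⟩

theorem Reg.mono {π : ℕ → ℕ+} {a b a' b' : ℕ} {x : Vec} (h : Reg π a b x) (ha : a' ≤ a)
    (hb : b ≤ b') : Reg π a' b' x := by
  intro p hp
  obtain ⟨k, h1, h2, h3⟩ := h p hp
  exact ⟨k, ha.trans h1, h2.trans_le hb, h3⟩

theorem Reg.before {lo hi dd : ℕ → ℕ} (hS : Scale lo hi dd) {π : ℕ → ℕ+} (hπ : Pos lo hi π)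
    {a b a' b' : ℕ} {x y : Vec} (hx : Reg π a b x) (hy : Reg π a' b' y) (h : b ≤ a') :
    Before x y := by
  intro i hi j hj
  obtain ⟨k, _, h2, rfl⟩ := hx i hi
  obtain ⟨l, h3, _, rfl⟩ := hy j hj
  exact (hπ.strictMono hS) (by omega)

theorem Reg.lo_le {lo hi dd : ℕ → ℕ} (hS : Scale lo hi dd) {π : ℕ → ℕ+} (hπ : Pos lo hi π)
    {a b : ℕ} {x : Vec} (hx : Reg π a b x) : ∀ p ∈ x.support, ((lo a : ℕ) : ℝ) ≤ ((p : ℕ) : ℝ) := by
  intro p hp
  obtain ⟨k, h1, _, rfl⟩ := hx p hp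
  exact_mod_cast (hS.lo_mono.monotone h1).trans (hπ k).1

theorem Reg.le_hi {lo hi dd : ℕ → ℕ} (hS : Scale lo hi dd) {π : ℕ → ℕ+} (hπ : Pos lo hi π)
    {a b : ℕ} {x : Vec} (hx : Reg π a b x) :
    ∀ p ∈ x.support, ((p : ℕ) : ℝ) ≤ ((hi (b - 1) : ℕ) : ℝ) := by
  intro p hp
  obtain ⟨k, _, h2, rfl⟩ := hx p hp
  exact_mod_cast (hπ k).2.trans (hS.hi_mono.monotone (by omega))

/-! ### Membership in the norming set -/

theorem stage_ne_zero (n m : ℕ) : (∀ z ∈ (stage n m).1, z.2 ≠ 0) ∧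
    (∀ f ∈ (stage n m).2, f ≠ 0) := by
  have key : ∀ (d : ℕ) (f : Fin d → Vec), 1 ≤ d → (∀ q, f q ≠ 0) →
      (∀ q r, q < r → Before (f q) (f r)) → ∑ q, f q ≠ 0 := by
    intro d f hd hne hb h0
    obtain ⟨p, hp⟩ := Finsupp.support_nonempty_iff.2 (hne ⟨0, hd⟩)
    have h1 : (∑ q, f q) p = f ⟨0, hd⟩ p := by
      rw [Finsupp.finsetSum_apply, sum_eq_single]
      · intro q _ hq
        have := disj_of_before (I := univ) (f := f) (fun q _ r _ => hb q r) ⟨0, hd⟩ (mem_univ _) q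
          (mem_univ _) (Ne.symm hq) p hp
        exact Finsupp.notMem_support_iff.1 this
      · intro h; exact absurd (mem_univ _) h
    rw [h0] at h1
    exact Finsupp.mem_support_iff.1 hp h1.symm
  induction m with
  | zero =>
    refine ⟨fun z hz => absurd hz (by simp [stage]), ?_⟩
    rintro f ⟨i, rfl | rfl⟩
    · simp
    · simp
  | succ m ih =>
    have havg : ∀ ℓ α, IsAverage (stage n m).2 ℓ α → α ≠ 0 := by
      rintro ℓ α ⟨d, f, h1, h2, h3, h4, h5, rfl⟩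
      refine smul_ne_zero (inv_ne_zero ?_) (key d f h2 (fun q => ih.2 _ (h4 q)) h5)
      have : (2 : ℝ) ≤ ℓ := by exact_mod_cast h1
      linarith
    refine ⟨?_, ?_⟩
    · rintro z (hz | hz)
      · exact ih.1 z hz
      · exact havg _ _ hz
    · rintro f ((hf | ⟨ℓ, hf⟩) | hf)
      · exact ih.2 f hf
      · exact havg _ _ hf
      · obtain ⟨d, s, α, p, h1, h2, h3, _, _, _, _, rfl⟩ := hf
        exact key d α h1 (fun q => ih.1 _ (h2 q)) h3

theorem W_ne_zero {n : ℕ} {f : Vec} (h : f ∈ W n) : f ≠ 0 := by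
  obtain ⟨m, hm⟩ := h
  exact (stage_ne_zero n m).2 f hm

theorem Av_ne_zero {n : ℕ} {z : ℕ × Vec} (h : z ∈ Av n) : z.2 ≠ 0 := by
  obtain ⟨m, hm⟩ := h
  exact (stage_ne_zero n m).1 z hm

theorem exists_least {x : Vec} (hx : x ≠ 0) : ∃ p, IsLeast (↑x.support : Set ℕ+) p := by
  have h := Finsupp.support_nonempty_iff.2 hx
  exact ⟨x.support.min' h, x.support.min'_mem h, fun q hq => x.support.min'_le q hq⟩

theorem list_mem_W {n : ℕ} {L : List (ℕ × Vec)} (hne : L ≠ []) (h1 : ∀ z ∈ L, z ∈ Av n)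
    (h2 : L.Pairwise (fun (z z' : ℕ × Vec) => Before z.2 z'.2 ∧ z.1 < z'.1 ∧
      ∀ i ∈ z.2.support, (i : ℕ) < z'.1))
    {F : Finset ℕ+} (hF : F ∈ Schreier n)
    (h3 : ∀ p, p ∈ F ↔ ∃ z ∈ L, IsLeast (↑z.2.support : Set ℕ+) p) :
    (L.map Prod.snd).sum ∈ W n := by
  classical
  have hz : ∀ q : Fin L.length, ∃ p, IsLeast (↑(L.get q).2.support : Set ℕ+) p := fun q =>
    exists_least (Av_ne_zero (h1 _ (List.get_mem L q)))
  choose p hp using hz
  have hpw : ∀ q r : Fin L.length, q < r → Before (L.get q).2 (L.get r).2 ∧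
      (L.get q).1 < (L.get r).1 ∧ ∀ i ∈ (L.get q).2.support, (i : ℕ) < (L.get r).1 := by
    intro q r hqr
    exact List.pairwise_iff_get.1 h2 q r hqr
  refine schreier_mem_W ⟨L.length, fun q => (L.get q).1, fun q => (L.get q).2, p, ?_, ?_, ?_, hp,
    ?_, ?_, ?_, ?_⟩
  · exact List.length_pos_iff.2 hne
  · intro q; exact h1 _ (List.get_mem L q)
  · intro q r hqr; exact (hpw q r hqr).1
  · have : univ.image p = F := by
      ext a
      rw [h3, mem_image]
      constructor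
      · rintro ⟨q, _, rfl⟩
        exact ⟨_, List.get_mem L q, hp q⟩
      · rintro ⟨z, hz, hza⟩
        obtain ⟨q, rfl⟩ := List.get_of_mem hz
        exact ⟨q, mem_univ _, (hp q).unique hza⟩
    rw [this]; exact hF
  · intro q r hqr; exact (hpw q r hqr).2.1
  · intro q r hqr
    have : q < r := by
      rw [Fin.lt_def]; omega
    exact (hpw q r this).2.2
  · rw [← List.sum_ofFn]
    congr 1
    apply List.ext_get
    · simp
    · intro k h1 h2
      simp

end Pool.Agent.Helper37.Asym
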