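import Pool.Agent.Helper37.Asym.Scale

/-!
The trees.
-/

namespace Pool.Agent.Helper37.Asym

open Finset

/-- A family of averages living on `[b, E)`, with sizes dictated by the scale, and with the set of
the minima of the supports equal to `F`. -/
structure LF (n : ℕ) (hi : ℕ → ℕ) (π : ℕ → ℕ+) (b E : ℕ) (L : List (ℕ × Vec))
    (F : Finset ℕ+) : Prop where
  mem : ∀ z ∈ L, b ≤ z.1 ∧ z.1 < E ∧ (hi (z.1 - 1) + 1, z.2) ∈ Av n ∧ (∀ i, 0 ≤ z.2 i) ∧
    Reg π z.1 E z.2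
  pw : L.Pairwise (fun (z z' : ℕ × Vec) => z.1 < z'.1 ∧ Reg π z.1 z'.1 z.2)
  mins : ∀ p, p ∈ F ↔ ∃ z ∈ L, IsLeast (↑z.2.support : Set ℕ+) p

theorem LF.reg {n : ℕ} {hi : ℕ → ℕ} {π : ℕ → ℕ+} {b E : ℕ} {L : List (ℕ × Vec)}
    {F : Finset ℕ+} (h : LF n hi π b E L F) : ∀ p ∈ F, ∃ k, b ≤ k ∧ k < E ∧ π k = p := by
  intro p hp
  obtain ⟨z, hz, hz2⟩ := (h.mins p).1 hp
  obtain ⟨h1, h2, h3, h4, h5⟩ := h.mem z hz
  obtain ⟨k, h6, h7, h8⟩ := h5 p hz2.1
  exact ⟨k, h1.trans h6, h7, h8⟩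

/-- A tree of depth `D`. -/
structure Tree (n : ℕ) (lo hi dd : ℕ → ℕ) (D : ℕ) (K η : ℝ) (κ E : ℕ) (c : ℕ →₀ ℝ) : Prop where
  lt : κ < E
  nonneg : ∀ k, 0 ≤ c k
  supp : ∀ k ∈ c.support, κ ≤ k ∧ k < E
  ub : ∀ π, Pos lo hi π → ∀ φ, Wr n none φ → pair φ (push π c) ≤ 1 + 2 * D
  fb : ∀ π, Pos lo hi π → FB n n (push π c) K (lo κ) (lo κ)
  ub1 : ∀ π, Pos lo hi π → (∀ k, (π k : ℕ) ^ 2 ≤ dd k) → ∀ φ, Wr n none φ →
    pair φ (push π c) ≤ 1 + D * η
  lb : ∀ π, Pos lo hi π → (∀ k, dd k < (π k : ℕ)) → ∃ g ∈ W n, (∀ i, 0 ≤ g i) ∧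
    Reg π κ E g ∧ (D : ℝ) / 2 ≤ pair g (push π c)

/-- A piece of order `j`. -/
structure Piece (n : ℕ) (lo hi dd : ℕ → ℕ) (D : ℕ) (η : ℝ) (j : ℕ) (b E : ℕ) (c : ℕ →₀ ℝ) :
    Prop where
  lt : b < E
  nonneg : ∀ k, 0 ≤ c k
  supp : ∀ k ∈ c.support, b ≤ k ∧ k < E
  ub : ∀ π, Pos lo hi π → ∀ φ, Wr n none φ → pair φ (push π c) ≤ 2 + 2 * D
  ub1 : ∀ π, Pos lo hi π → (∀ k, (π k : ℕ) ^ 2 ≤ dd k) → ∀ φ, Wr n none φ →
    pair φ (push π c) ≤ 1 + D * η + η / 2
  fb : 0 < j → ∀ π, Pos lo hi π → FB n j (push π c) (j * (2 + 2 * D)) (lo b) (dd b)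
  lb : ∀ π, Pos lo hi π → (∀ k, dd k < (π k : ℕ)) → ∃ L F, LF n hi π b E L F ∧
    F ∈ Schreier j ∧ (D : ℝ) / 2 ≤ (L.map fun z => pair z.2 (push π c)).sum

/-- An average of `d` pieces of order `j`. -/
structure AvgS (n : ℕ) (lo hi dd : ℕ → ℕ) (D : ℕ) (η : ℝ) (j d : ℕ) (b E : ℕ) (c : ℕ →₀ ℝ) :
    Prop where
  lt : b < E
  nonneg : ∀ k, 0 ≤ c k
  supp : ∀ k ∈ c.support, b ≤ k ∧ k < E
  ub : ∀ π, Pos lo hi π → ∀ φ, Wr n none φ → pair φ (push π c) ≤ 2 + 2 * D
  ub1 : ∀ π, Pos lo hi π → (∀ k, (π k : ℕ) ^ 2 ≤ dd k) → ∀ φ, Wr n none φ →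
    pair φ (push π c) ≤ 1 + D * η + η / 2
  fb : ∀ π, Pos lo hi π → FB n (j + 1) (push π c) ((j + 1) * (2 + 2 * D)) (lo b) d
  lb : ∀ π, Pos lo hi π → (∀ k, dd k < (π k : ℕ)) → ∃ L F, LF n hi π b E L F ∧
    (∃ G : Fin d → Finset ℕ+, (∀ q, G q ∈ Schreier j) ∧
      (∀ q r, q < r → ∀ a ∈ G q, ∀ b ∈ G r, a < b) ∧ F = univ.biUnion G) ∧
    (D : ℝ) / 2 ≤ (L.map fun z => pair z.2 (push π c)).sum

variable {n : ℕ} {lo hi dd : ℕ → ℕ} {D : ℕ} {η : ℝ}

theorem AvgS.toPiece {j b E : ℕ} {c : ℕ →₀ ℝ} (hS : Scale lo hi dd)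
    (h : AvgS n lo hi dd D η j (dd b) b E c) :
    Piece n lo hi dd D η (j + 1) b E c where
  lt := h.lt
  nonneg := h.nonneg
  supp := h.supp
  ub := h.ub
  ub1 := h.ub1
  fb := fun _ π hπ => by
    have := h.fb π hπ
    push_cast
    exact this
  lb := by
    intro π hπ hd
    obtain ⟨L, F, hLF, ⟨G, hG1, hG2, hG3⟩, hv⟩ := h.lb π hπ hd
    refine ⟨L, F, hLF, ?_, hv⟩
    rw [hG3]
    have h4 := hS.le_lo b
    have h5 := hS.lo_le_dd b
    refine schreier_succ_of (by omega) hG1 hG2 ?_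
    intro q a ha
    have haF : a ∈ F := by rw [hG3]; exact mem_biUnion.2 ⟨q, mem_univ _, ha⟩
    obtain ⟨k, hk1, hk2, rfl⟩ := hLF.reg a haF
    have h6 := (hπ.strictMono hS).monotone hk1
    have h7 : (π b : ℕ) ≤ (π k : ℕ) := by exact_mod_cast h6
    have h8 := hd b
    omega

theorem sum_range_list (d : ℕ) (f : ℕ → ℝ) :
    ∑ v ∈ range d, f v = ((List.range d).map f).sum := by
  induction d with
  | zero => simp
  | succ d ih => rw [sum_range_succ, List.range_succ, List.map_append, List.sum_append, ih]; simp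

/-! ### chains -/

/-- The chain `b, nx b, nx (nx b), ...`. -/
def chain (nx : ℕ → ℕ) (b : ℕ) (v : ℕ) : ℕ := nx^[v] b

theorem chain_zero (nx : ℕ → ℕ) (b : ℕ) : chain nx b 0 = b := rfl

theorem chain_succ (nx : ℕ → ℕ) (b v : ℕ) : chain nx b (v + 1) = nx (chain nx b v) :=
  Function.iterate_succ_apply' nx v b

theorem chain_mono {nx : ℕ → ℕ} (hnx : ∀ b, b < nx b) (b : ℕ) : StrictMono (chain nx b) :=
  strictMono_nat_of_lt_succ fun v => by rw [chain_succ]; exact hnx _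

theorem le_chain {nx : ℕ → ℕ} (hnx : ∀ b, b < nx b) (b v : ℕ) : b + v ≤ chain nx b v := by
  induction v with
  | zero => simp [chain_zero]
  | succ v ih =>
    rw [chain_succ]
    have := hnx (chain nx b v)
    omega

/-- Position data of a chain. -/
theorem chain_data (hS : Scale lo hi dd) {nx : ℕ → ℕ} (hnx : ∀ b, b < nx b) (b : ℕ) :
    (∀ v, ((hi (chain nx b (v + 1) - 1) : ℕ) + 1 : ℝ) ^ 4 ≤ lo (chain nx b (v + 1))) ∧
    (∀ v, ((lo (chain nx b v) : ℕ) : ℝ) ≤ hi (chain nx b (v + 1) - 1)) ∧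
    (∀ v, (2 : ℝ) ^ (v + 1) ≤ hi (chain nx b (v + 1) - 1)) := by
  have hpos : ∀ v, chain nx b v < chain nx b (v + 1) := fun v => chain_mono hnx b (Nat.lt_succ_self v)
  refine ⟨fun v => ?_, fun v => ?_, fun v => ?_⟩
  · have h1 := hS.sparse (chain nx b (v + 1) - 1)
    have h2 := hpos v
    rw [show chain nx b (v + 1) - 1 + 1 = chain nx b (v + 1) by omega] at h1
    exact_mod_cast h1
  · have h2 := hpos v
    exact_mod_cast (hS.le _).trans (hS.hi_mono.monotone (by omega))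
  · have h2 := hpos v
    have h3 := le_chain hnx b v
    have h4 := hS.two_pow (chain nx b (v + 1) - 1)
    have h5 := hS.le (chain nx b (v + 1) - 1)
    have h6 : 2 ^ (v + 1) ≤ 2 ^ (chain nx b (v + 1) - 1 + 2) :=
      Nat.pow_le_pow_right (by norm_num) (by omega)
    have h7 : 2 ^ (v + 1) ≤ hi (chain nx b (v + 1) - 1) := by omega
    exact_mod_cast h7

/-- From pieces to averages of pieces. -/
theorem avgS_of_pieces (hS : Scale lo hi dd) {j κ1 : ℕ} (hj : j ≤ n)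
    (hP : ∀ b, κ1 ≤ b → ∃ E c, Piece n lo hi dd D η j b E c) :
    ∀ d, 0 < d → ∀ b, κ1 ≤ b → ∃ E c, AvgS n lo hi dd D η j d b E c := by
  classical
  intro d hd b hb
  have hP' : ∀ b, ∃ E c, b < E ∧ (κ1 ≤ b → Piece n lo hi dd D η j b E c) := by
    intro b
    by_cases hb : κ1 ≤ b
    · obtain ⟨E, c, h⟩ := hP b hb
      exact ⟨E, c, h.lt, fun _ => h⟩
    · exact ⟨b + 1, 0, Nat.lt_succ_self b, fun h => absurd h hb⟩
  choose nx cc hnx hPc using hP'
  set ch := chain nx b with hch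
  have hch0 : ch 0 = b := rfl
  have hchs : ∀ v, ch (v + 1) = nx (ch v) := fun v => chain_succ nx b v
  have hmono : StrictMono ch := chain_mono hnx b
  have hge : ∀ v, κ1 ≤ ch v := fun v => by
    have h : b + v ≤ ch v := le_chain hnx b v
    omega
  have hpc : ∀ v, Piece n lo hi dd D η j (ch v) (ch (v + 1)) (cc (ch v)) := fun v => by
    rw [hchs]; exact hPc _ (hge v)
  obtain ⟨hd1, hd2, hd3⟩ := chain_data hS hnx b
  have hd' : (0 : ℝ) < d := by exact_mod_cast hd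
  have hpush : ∀ π, push π ((d : ℝ)⁻¹ • ∑ v ∈ range d, cc (ch v)) =
      (d : ℝ)⁻¹ • ∑ v ∈ range d, push π (cc (ch v)) := fun π => by
    rw [push_smul, push_sum]
  have hreg : ∀ π v, Reg π (ch v) (ch (v + 1)) (push π (cc (ch v))) := fun π v =>
    push_reg (hpc v).supp
  refine ⟨ch d, (d : ℝ)⁻¹ • ∑ v ∈ range d, cc (ch v), ?_⟩
  refine
    { lt := ?_
      nonneg := ?_
      supp := ?_
      ub := ?_
      ub1 := ?_
      fb := ?_
      lb := ?_ }
  · exact hmono hd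
  · intro k
    show 0 ≤ (d : ℝ)⁻¹ * (∑ v ∈ range d, cc (ch v)) k
    rw [Finsupp.finsetSum_apply]
    exact mul_nonneg (inv_nonneg.2 hd'.le) (sum_nonneg fun v _ => (hpc v).nonneg k)
  · intro k hk
    obtain ⟨v, hv, hkv⟩ := mem_biUnion.1 (Finsupp.support_finsetSum (Finsupp.support_smul hk))
    obtain ⟨h1, h2⟩ := (hpc v).supp k hkv
    refine ⟨le_trans (hmono.monotone (Nat.zero_le v)) h1, lt_of_lt_of_le h2 ?_⟩
    exact hmono.monotone (mem_range.1 hv)
  · intro π hπ φ hφ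
    rw [hpush]
    exact convex_bound hd fun v _ => (hpc v).ub π hπ φ hφ
  · intro π hπ hπ2 φ hφ
    rw [hpush]
    exact convex_bound hd fun v _ => (hpc v).ub1 π hπ hπ2 φ hφ
  · intro π hπ
    rw [hpush]
    have hB0 : (0 : ℝ) ≤ 2 + 2 * D := by positivity
    have hlo0 : (0 : ℝ) < lo b := by
      have := hS.le_lo b
      exact_mod_cast (by omega : 0 < lo b)
    rcases Nat.eq_zero_or_pos j with hj0 | hj0
    · subst hj0
      have := fb_one (n := n) (d := d) (w := fun v => push π (cc (ch v))) (B := 2 + 2 * D)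
        (l := lo b) hd hB0 hlo0 (fun v _ i => push_nonneg (hpc v).nonneg i) ?_
        (fun v _ φ hφ => (hpc v).ub π hπ φ hφ) ?_
      · norm_num
        exact this
      · intro u _ v _ huv
        exact (hreg π u).before hS hπ (hreg π v) (hmono.monotone huv)
      · intro u _ p hp
        have h1 := (hreg π u).lo_le hS hπ p hp
        have h2 : lo b ≤ lo (ch u) := hS.lo_mono.monotone (hmono.monotone (Nat.zero_le u))
        have h3 : ((lo b : ℕ) : ℝ) ≤ lo (ch u) := by exact_mod_cast h2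
        linarith
    · have := fb_succ (n := n) (j := j) (d := d) (C := fun v => push π (cc (ch v)))
        (B := 2 + 2 * D) (K := j * (2 + 2 * D)) (a := fun v => (lo (ch v) : ℝ))
        (z := fun v => (hi (ch (v + 1) - 1) : ℝ)) (D := fun v => (dd (ch v) : ℝ)) hj hd hB0
        (by positivity) hlo0 (fun v _ i => push_nonneg (hpc v).nonneg i)
        (fun v _ φ hφ => (hpc v).ub π hπ φ hφ) (fun v _ => (hreg π v).lo_le hS hπ)
        (fun v _ => (hreg π v).le_hi hS hπ) hd1 hd2 hd3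
        (fun v => by exact_mod_cast hS.lo_le_dd (ch v))
        (fun v _ => (hpc v).fb hj0 π hπ)
      have e : ((j : ℝ) + 1) * (2 + 2 * D) = (2 + 2 * D) + j * (2 + 2 * D) := by ring
      rw [e]
      exact this
  · intro π hπ hπ2
    have hex : ∀ v, ∃ L F, LF n hi π (ch v) (ch (v + 1)) L F ∧ F ∈ Schreier j ∧
        (D : ℝ) / 2 ≤ (L.map fun z => pair z.2 (push π (cc (ch v)))).sum :=
      fun v => (hpc v).lb π hπ hπ2
    choose Ls Fs hLF hFs hval using hex
    refine ⟨((List.range d).map Ls).flatten, univ.biUnion (fun q : Fin d => Fs q), ?_, ?_, ?_⟩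
    · refine ⟨?_, ?_, ?_⟩
      · intro z hz
        obtain ⟨l, hl, hzl⟩ := List.mem_flatten.1 hz
        obtain ⟨v, hv, rfl⟩ := List.mem_map.1 hl
        obtain ⟨h1, h2, h3, h4, h5⟩ := (hLF v).mem z hzl
        have hvd : v < d := List.mem_range.1 hv
        have h6 : ch (v + 1) ≤ ch d := hmono.monotone hvd
        exact ⟨le_trans (hmono.monotone (Nat.zero_le v)) h1, lt_of_lt_of_le h2 h6, h3, h4,
          h5.mono le_rfl h6⟩
      · rw [List.pairwise_flatten]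
        refine ⟨?_, ?_⟩
        · intro l hl
          obtain ⟨v, hv, rfl⟩ := List.mem_map.1 hl
          exact (hLF v).pw
        · rw [List.pairwise_map]
          refine List.Pairwise.imp ?_ List.pairwise_lt_range
          intro u v huv z hz z' hz'
          obtain ⟨h1, h2, h3, h4, h5⟩ := (hLF u).mem z hz
          obtain ⟨h1', h2', h3', h4', h5'⟩ := (hLF v).mem z' hz'
          have h6 : ch (u + 1) ≤ ch v := hmono.monotone huv
          exact ⟨by omega, h5.mono le_rfl (h6.trans h1')⟩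
      · intro p
        rw [mem_biUnion]
        constructor
        · rintro ⟨q, _, hq⟩
          obtain ⟨z, hz, hz2⟩ := ((hLF q).mins p).1 hq
          exact ⟨z, List.mem_flatten.2 ⟨Ls q, List.mem_map.2 ⟨q, List.mem_range.2 q.2, rfl⟩, hz⟩,
            hz2⟩
        · rintro ⟨z, hz, hz2⟩
          obtain ⟨l, hl, hzl⟩ := List.mem_flatten.1 hz
          obtain ⟨v, hv, rfl⟩ := List.mem_map.1 hl
          exact ⟨⟨v, List.mem_range.1 hv⟩, mem_univ _, ((hLF v).mins p).2 ⟨z, hzl, hz2⟩⟩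
    · refine ⟨fun q : Fin d => Fs q, fun q => hFs q, ?_, rfl⟩
      intro q r hqr a ha b' hb'
      obtain ⟨k, hk1, hk2, rfl⟩ := (hLF q).reg a ha
      obtain ⟨l, hl1, hl2, rfl⟩ := (hLF r).reg b' hb'
      have h6 : ch ((q : ℕ) + 1) ≤ ch (r : ℕ) := hmono.monotone hqr
      exact (hπ.strictMono hS) (by omega)
    · -- the value
      have hx : ∀ v < d, ∀ i, ((d : ℝ)⁻¹ • push π (cc (ch v))) i ≤
          (push π ((d : ℝ)⁻¹ • ∑ v ∈ range d, cc (ch v))) i := by
        intro v hv i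
        rw [hpush, Finsupp.smul_apply, Finsupp.smul_apply, Finsupp.finsetSum_apply]
        refine smul_le_smul_of_nonneg_left ?_ (inv_nonneg.2 hd'.le)
        exact single_le_sum (f := fun v => push π (cc (ch v)) i)
          (fun u _ => push_nonneg (hpc u).nonneg i) (mem_range.2 hv)
      have hLv : ∀ v < d, (d : ℝ)⁻¹ * ((D : ℝ) / 2) ≤
          ((Ls v).map fun z => pair z.2 (push π ((d : ℝ)⁻¹ • ∑ v ∈ range d, cc (ch v)))).sum := by
        intro v hv
        have h1 : ((Ls v).map fun z => pair z.2 ((d : ℝ)⁻¹ • push π (cc (ch v)))).sum ≤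
            ((Ls v).map fun z =>
              pair z.2 (push π ((d : ℝ)⁻¹ • ∑ v ∈ range d, cc (ch v)))).sum := by
          refine List.sum_le_sum ?_
          intro z hz
          exact pair_le_pair_right ((hLF v).mem z hz).2.2.2.1 (hx v hv)
        have h2 : ((Ls v).map fun z => pair z.2 ((d : ℝ)⁻¹ • push π (cc (ch v)))).sum =
            (d : ℝ)⁻¹ * ((Ls v).map fun z => pair z.2 (push π (cc (ch v)))).sum := by
          rw [← List.sum_map_mul_left]
          simp only [pair_smul_right]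
        have h3 := mul_le_mul_of_nonneg_left (hval v) (inv_nonneg.2 hd'.le)
        linarith
      have h4 : ((((List.range d).map Ls).flatten).map fun z =>
          pair z.2 (push π ((d : ℝ)⁻¹ • ∑ v ∈ range d, cc (ch v)))).sum =
          ∑ v ∈ range d, ((Ls v).map fun z =>
            pair z.2 (push π ((d : ℝ)⁻¹ • ∑ v ∈ range d, cc (ch v)))).sum := by
        rw [List.map_flatten, List.sum_flatten, List.map_map, List.map_map]
        exact (sum_range_list d _).symm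
      rw [h4]
      calc (D : ℝ) / 2 = ∑ v ∈ range d, (d : ℝ)⁻¹ * ((D : ℝ) / 2) := by
            rw [sum_const, card_range, nsmul_eq_mul]; field_simp
        _ ≤ _ := sum_le_sum fun v hv => hLv v (mem_range.1 hv)

end Pool.Agent.Helper37.Asym
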